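import Pool.Agent.Lib.MP_0d9445_pr.Tip.Defs

/-! A comparison of two configurations off a point extends across the point. -/

open MeasureTheory ProbabilityTheory Set Filter Topology Real LQ.Met
open scoped NNReal ENNReal

noncomputable section

namespace Pool.Agent.Lib.MP_0d9445_pr.Tip

open CR (osq csq)
open Su (IsGFF0 pot CMpot)
open EN (nrm)

namespace RemoveAux

variable {D₁ D₂ : ℂ → ℂ → ℝ} {O : Set ℂ} {z : ℂ} {C : ℝ}

/-- the comparison of the two metrics near a point -/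
theorem loc_le (h₁ : IsMet D₁) (hC : 0 ≤ C) {V : Set ℂ} (hV : IsOpen V) {x : ℂ} (hx : x ∈ V)
    (hne : Vᶜ.Nonempty) (h : ∀ u ∈ V, ∀ v ∈ V, TU D₁ V u v ≤ C * TU D₂ V u v) :
    ∀ᶠ v in 𝓝 x, D₁ x v ≤ C * D₂ x v := by
  have h0 : D₁ x x < dOut D₁ V x := by
    rw [h₁.self]
    exact dOut_pos h₁ hV hne hx
  filter_upwards [hV.mem_nhds hx,
    (h₁.cont_right x).continuousAt.eventually_lt continuousAt_const h0] with v hv hlt
  rw [← TU_eq_of_le hlt.le]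
  exact (h x hx v hv).trans (mul_le_mul_of_nonneg_left (TU_le D₂ V x v) hC)

/-- along a piece of a path on which the comparison holds near every inner point -/
theorem path_le (h₁ : IsMet D₁) (h₂ : IsMet D₂) (hC : 0 ≤ C) {x y : ℂ} {L : ℝ} {P : ℝ → ℂ}
    (u : UP D₂ x y L P) {a b : ℝ} (ha : 0 ≤ a) (hab : a ≤ b) (hb : b ≤ L)
    (h : ∀ s ∈ Ioo a b, ∀ᶠ v in 𝓝 (P s), D₁ (P s) v ≤ C * D₂ (P s) v) :
    D₁ (P a) (P b) ≤ C * (b - a) := by
  have hP : ContinuousOn P (Icc a b) := u.cont.mono (Icc_subset_Icc ha hb)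
  have key : ∀ a' ∈ Ioo a b, D₁ (P a') (P b) ≤ C * (b - a') := by
    intro a' ha'
    have hP' : ContinuousOn P (Icc a' b) := hP.mono (Icc_subset_Icc_left ha'.1.le)
    have hcl : IsClosed ({t | D₁ (P a') (P t) ≤ C * (t - a')} ∩ Icc a' b) := by
      rw [inter_comm]
      exact isClosed_Icc.isClosed_le ((h₁.cont_right _).comp_continuousOn hP') (by fun_prop)
    refine hcl.Icc_subset_of_forall_mem_nhdsWithin (by simp [h₁.self]) ?_ ⟨ha'.2.le, le_rfl⟩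
    rintro s ⟨hs, hs1, hs2⟩
    have hs' : s ∈ Ioo a b := ⟨ha'.1.trans_le hs1, hs2⟩
    have hc : ContinuousAt P s := hP.continuousAt (Icc_mem_nhds hs'.1 hs'.2)
    filter_upwards [mem_nhdsWithin_of_mem_nhds (hc.eventually (h s hs')), Ioo_mem_nhdsGT hs2]
      with t ht ht'
    have h3 := u.lip h₂ (ha.trans hs'.1.le) ht'.1.le (ht'.2.le.trans hb)
    have h4 := h₁.tri (P a') (P s) (P t)
    have h5 := mul_le_mul_of_nonneg_left h3 hC
    have h6 : D₁ (P a') (P s) ≤ C * (s - a') := hs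
    show D₁ (P a') (P t) ≤ C * (t - a')
    have ht2 : D₁ (P s) (P t) ≤ C * D₂ (P s) (P t) := ht
    linarith
  rcases hab.eq_or_lt with rfl | hab'
  · simp [h₁.self]
  have hcl : IsClosed (Icc a b ∩ {t | D₁ (P t) (P b) ≤ C * (b - t)}) :=
    isClosed_Icc.isClosed_le ((h₁.cont_left _).comp_continuousOn hP) (by fun_prop)
  have hsub : closure (Ioo a b) ⊆ Icc a b ∩ {t | D₁ (P t) (P b) ≤ C * (b - t)} :=
    hcl.closure_subset_iff.2 fun t ht => ⟨Ioo_subset_Icc_self ht, key t ht⟩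
  rw [closure_Ioo hab'.ne] at hsub
  exact (hsub ⟨le_rfl, hab⟩).2

theorem up_le (h₁ : IsMet D₁) (h₂ : IsMet D₂) (hC : 0 ≤ C)
    (h : ∀ x ∈ O, x ≠ z → ∀ᶠ v in 𝓝 x, D₁ x v ≤ C * D₂ x v) {x y : ℂ} {L : ℝ} {P : ℝ → ℂ}
    (u : UP D₂ x y L P) (hm : MapsTo P (Icc 0 L) O) : D₁ x y ≤ C * L := by
  by_cases hne : (Icc 0 L ∩ P ⁻¹' {z}).Nonempty
  · have hK : IsCompact (Icc 0 L ∩ P ⁻¹' {z}) :=
      isCompact_Icc.of_isClosed_subset
        (u.cont.preimage_isClosed_of_isClosed isClosed_Icc isClosed_singleton) inter_subset_left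
    obtain ⟨t₁, ⟨k₁, e₁⟩, l₁⟩ := hK.exists_isLeast hne
    obtain ⟨t₂, ⟨k₂, e₂⟩, l₂⟩ := hK.exists_isGreatest hne
    have h12 : t₁ ≤ t₂ := l₁ ⟨k₂, e₂⟩
    have p₁ := path_le h₁ h₂ hC u le_rfl k₁.1 k₁.2 fun s hs => by
      have hs' : s ∈ Icc 0 L := ⟨hs.1.le, hs.2.le.trans k₁.2⟩
      exact h _ (hm hs') fun e => hs.2.not_ge (l₁ ⟨hs', e⟩)
    have p₂ := path_le h₁ h₂ hC u k₂.1 k₂.2 le_rfl fun s hs => by
      have hs' : s ∈ Icc 0 L := ⟨k₂.1.trans hs.1.le, hs.2.le⟩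
      exact h _ (hm hs') fun e => hs.1.not_ge (l₂ ⟨hs', e⟩)
    rw [u.src, show P t₁ = z from e₁] at p₁
    rw [u.tgt, show P t₂ = z from e₂] at p₂
    have := h₁.tri x z y
    nlinarith [mul_le_mul_of_nonneg_left h12 hC]
  · have := path_le h₁ h₂ hC u le_rfl u.nonneg le_rfl fun s hs =>
      h _ (hm (Ioo_subset_Icc_self hs)) fun e => hne ⟨s, Ioo_subset_Icc_self hs, e⟩
    rwa [u.src, u.tgt, sub_zero] at this

theorem TU_le_pos (h₁ : IsMet D₁) (h₂ : IsMet D₂) (hl₂ : IsLen D₂) (hC : 0 < C)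
    (h : ∀ x ∈ O, x ≠ z → ∀ᶠ v in 𝓝 x, D₁ x v ≤ C * D₂ x v)
    {V : Set ℂ} (hV : IsOpen V) (hne : Vᶜ.Nonempty) (hVO : closure V ⊆ O) (x y : ℂ) :
    TU D₁ V x y ≤ C * TU D₂ V x y := by
  refine TU_le_of_DU h₁ h₂ hl₂ hV hne hVO hC.le (fun _ y _ => ?_) y
  simp only [DU, ENNReal.mul_iInf_of_ne (ENNReal.ofReal_pos.2 hC).ne' ENNReal.ofReal_ne_top]
  refine le_iInf₂ fun g p => ?_
  by_cases hfin : len D₂ g (Icc 0 1) = ∞
  · rw [hfin, ENNReal.mul_top (ENNReal.ofReal_pos.2 hC).ne']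
    exact le_top
  · obtain ⟨P, u, hm⟩ := p.exists_UP h₂ hfin
    refine (ENNReal.ofReal_le_ofReal ((TU_le D₁ V x y).trans (up_le h₁ h₂ hC.le h u hm))).trans_eq ?_
    rw [ENNReal.ofReal_mul hC.le, ENNReal.ofReal_toReal hfin]

end RemoveAux

theorem TU_le_of_punct {D₁ D₂ : ℂ → ℂ → ℝ} (h₁ : IsMet D₁) (h₂ : IsMet D₂) (hl₂ : IsLen D₂)
    {O : Set ℂ} {z : ℂ} {C : ℝ} (hC : 0 ≤ C)
    (h : ∀ x ∈ O, x ≠ z → ∃ V : Set ℂ, IsOpen V ∧ x ∈ V ∧ Vᶜ.Nonempty ∧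
      ∀ u ∈ V, ∀ v ∈ V, TU D₁ V u v ≤ C * TU D₂ V u v)
    {V : Set ℂ} (hV : IsOpen V) (hne : Vᶜ.Nonempty) (hVO : closure V ⊆ O) (x y : ℂ) :
    TU D₁ V x y ≤ C * TU D₂ V x y := by
  have ht : Tendsto (fun c : ℝ => c * TU D₂ V x y) (𝓝[>] C) (𝓝 (C * TU D₂ V x y)) :=
    ((continuous_id.mul continuous_const).tendsto C).mono_left nhdsWithin_le_nhds
  refine ge_of_tendsto ht ?_
  filter_upwards [self_mem_nhdsWithin] with c hc
  refine RemoveAux.TU_le_pos (O := O) (z := z) h₁ h₂ hl₂ (hC.trans_lt hc) (fun u hu huz => ?_)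
    hV hne hVO x y
  obtain ⟨W, hW, huW, hWne, hle⟩ := h u hu huz
  filter_upwards [RemoveAux.loc_le h₁ hC hW huW hWne hle] with v hv
  exact hv.trans (mul_le_mul_of_nonneg_right (le_of_lt hc) (h₂.nonneg u v))

theorem restrict_le_of_punct {m₁ m₂ : Measure ℂ} {O : Set ℂ} (hO : IsOpen O) {z : ℂ} {C : ℝ≥0∞}
    (h0 : m₁ {z} = 0) (h : ∀ x ∈ O, x ≠ z → ∃ V : Set ℂ, IsOpen V ∧ x ∈ V ∧
      m₁.restrict V ≤ C • m₂.restrict V) : m₁.restrict O ≤ C • m₂.restrict O := by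
  obtain ⟨T, hTc, hTS, hT⟩ := TopologicalSpace.isOpen_sUnion_countable
    {V : Set ℂ | IsOpen V ∧ m₁.restrict V ≤ C • m₂.restrict V} fun _ hs => hs.1
  obtain ⟨U, hU⟩ := (hTc.insert ∅).exists_eq_range (insert_nonempty _ _)
  have hUS : ∀ n, IsOpen (U n) ∧ m₁.restrict (U n) ≤ C • m₂.restrict (U n) := fun n => by
    have : U n ∈ insert ∅ T := hU ▸ mem_range_self n
    rcases this with e | e
    · rw [e]
      simp
    · exact hTS e
  have hD : ∀ n, MeasurableSet (disjointed U n) :=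
    MeasurableSet.disjointed fun n => (hUS n).1.measurableSet
  refine Measure.le_iff.2 fun s hs => ?_
  have hA : MeasurableSet (s ∩ O) := hs.inter hO.measurableSet
  rw [Measure.smul_apply, Measure.restrict_apply hs, Measure.restrict_apply hs, smul_eq_mul]
  have hcov : s ∩ O ⊆ (⋃ n, s ∩ O ∩ disjointed U n) ∪ {z} := by
    intro x hx
    by_cases e : x = z
    · exact Or.inr e
    · obtain ⟨V, hV, hxV, hle⟩ := h x hx.2 e
      have h1 : x ∈ ⋃₀ T := hT ▸ mem_sUnion_of_mem hxV ⟨hV, hle⟩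
      obtain ⟨V', hV', hx'⟩ := h1
      obtain ⟨n, rfl⟩ : V' ∈ range U := hU ▸ mem_insert_of_mem _ hV'
      rw [← inter_iUnion, iUnion_disjointed]
      exact Or.inl ⟨hx, mem_iUnion_of_mem n hx'⟩
  have hdis : Pairwise (Function.onFun Disjoint fun n => s ∩ O ∩ disjointed U n) :=
    (disjoint_disjointed U).mono fun _ _ hij => hij.mono inter_subset_right inter_subset_right
  calc m₁ (s ∩ O) ≤ m₁ (⋃ n, s ∩ O ∩ disjointed U n) + m₁ {z} :=
        (measure_mono hcov).trans (measure_union_le _ _)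
    _ ≤ ∑' n, m₁ (s ∩ O ∩ disjointed U n) := by
        rw [h0, add_zero]
        exact measure_iUnion_le _
    _ ≤ ∑' n, C * m₂ (s ∩ O ∩ disjointed U n) := ENNReal.tsum_le_tsum fun n => by
        have h1 := (hUS n).2 (s ∩ O ∩ disjointed U n)
        have h2 : s ∩ O ∩ disjointed U n ⊆ U n := inter_subset_right.trans (disjointed_subset U n)
        rwa [Measure.smul_apply, Measure.restrict_eq_self _ h2, Measure.restrict_eq_self _ h2,
          smul_eq_mul] at h1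
    _ ≤ C * m₂ (s ∩ O) := by
        rw [ENNReal.tsum_mul_left, ← measure_iUnion hdis fun n => hA.inter (hD n)]
        exact mul_le_mul_right (measure_mono (iUnion_subset fun _ => inter_subset_left)) _

end Pool.Agent.Lib.MP_0d9445_pr.Tip
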