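import Pool.Agent.Lib.MP_0d9445_pr.Tip.Transl

/-! The law of the field with a singularity at a uniform point is absolutely continuous. -/

open MeasureTheory ProbabilityTheory Set Filter Topology Real LQ.Met LQ.Gauss
open scoped NNReal ENNReal RealInnerProductSpace

noncomputable section

namespace Pool.Agent.Lib.MP_0d9445_pr.Tip

open CR (osq csq)
open Su (IsGFF0 pot CMpot)
open EN (nrm)

variable {ν : Measure Field} {γ : ℝ}

theorem addFn_pot_apply (H : Field) (t : ℝ) (q p : ℝ × ℂ) :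
    addFn H (t • pot q) p = H p + t * gffCov p q := by
  rw [CM.addFn_apply, CM.gffCov_eq]
  congr 1
  exact circleAverage_smul (a := t) (f := pot q)

/-- Cameron-Martin formula for the potential of a circle. -/
theorem cm_exact (hν : IsGFF0 ν) (q : ℝ × ℂ) (t : ℝ) {F : Field → ℝ≥0∞} (hF : Measurable F) :
    ∫⁻ H, F (addFn H (t • pot q)) ∂ν =
      ∫⁻ H, ENNReal.ofReal (exp (t * H q - t ^ 2 / 2 * gffCov q q)) * F H ∂ν := by
  obtain ⟨K, _, _, hK, W, f, hW, e, hc⟩ := CM.gff0_iso hν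
  obtain ⟨D, hDc, hDd⟩ := TopologicalSpace.exists_countable_dense (ℝ × ℂ)
  have he := measurableEmbedding_evalOn (W := ℝ) hDc hDd
  set G : (ℝ × ℂ → ℝ) → ℝ≥0∞ := fun y => F (he.invFun fun q : D => y q) with hG
  have hGm : Measurable G := hF.comp (he.measurable_invFun.comp
    (measurable_pi_lambda _ fun q => measurable_pi_apply _))
  have hGF : ∀ H : Field, G (fun p => H p) = F H := fun H => congrArg F (he.leftInverse_invFun H)
  have h1 : ∀ H : Field, F (addFn H (t • pot q)) = G fun p => H p + ⟪t • f q, f p⟫ := fun H => by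
    have : (fun p => H p + ⟪t • f q, f p⟫) = fun p => addFn H (t • pot q) p := funext fun p => by
      rw [addFn_pot_apply, real_inner_smul_left, real_inner_comm, hc]
    rw [this, hGF]
  have h2 := CM.ae_eq_comp (X := fun p (H : Field) => H p + ⟪t • f q, f p⟫)
    (Y := fun p H => W (f p) H + ⟪t • f q, f p⟫)
    (fun p => (e p).mono fun H hH => by simp only [← hH]) hGm
  simp only [h1]
  rw [lintegral_congr_ae h2, ← hW.lintegral_tilt (t • f q) f hGm]
  refine lintegral_congr_ae ?_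
  filter_upwards [CM.ae_eq_comp e hGm, hW.smul t (f q), e q] with H a b c
  rw [← a, hGF, dens, b, ← c, norm_smul, mul_pow, ← real_inner_self_eq_norm_sq (f q), hc,
    Real.norm_eq_abs, sq_abs]
  congr 3
  ring

theorem lmax_of_le {x : ℂ} (h : ‖x‖ ≤ 1) : lmax x = 0 := by
  change log (max ‖x‖ 1) = 0
  rw [max_eq_right h, log_one]

theorem norm_le_of_sphere {t : ℝ} {z x : ℂ} (hx : x ∈ Metric.sphere z |exp (-t)|) :
    ‖x‖ ≤ ‖z‖ + exp (-t) := by
  rw [abs_of_pos (exp_pos _), mem_sphere_iff_norm] at hx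
  rw [← hx]
  simpa using norm_add_le z (x - z)

theorem avg_lmax_small {t : ℝ} {z : ℂ} (h : ‖z‖ + exp (-t) ≤ 1) : avg lmax (t, z) = 0 :=
  circleAverage_const_on_circle fun _ hx => lmax_of_le ((norm_le_of_sphere hx).trans h)

theorem pot_eq (q : ℝ × ℂ) (x : ℂ) :
    pot q x = lmax x + avg lmax q - log (max ‖x - q.2‖ (exp (-q.1))) := rfl

theorem pot_small {t : ℝ} {z : ℂ} (h : ‖z‖ + exp (-t) ≤ 1) (x : ℂ) :
    pot (t, z) x = lmax x - log (max ‖x - z‖ (exp (-t))) := by
  rw [pot_eq, avg_lmax_small h, add_zero]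

theorem gffCov_self {t : ℝ} {z : ℂ} (h : ‖z‖ + exp (-t) ≤ 1) : gffCov (t, z) (t, z) = t := by
  rw [CM.gffCov_eq]
  refine circleAverage_const_on_circle fun x hx => ?_
  rw [pot_small h, lmax_of_le ((norm_le_of_sphere hx).trans h)]
  rw [abs_of_pos (exp_pos _), mem_sphere_iff_norm] at hx
  rw [hx, max_self, log_exp]
  ring

theorem continuous_pot : Continuous fun x : (ℝ × ℂ) × ℂ => pot x.1 x.2 :=
  ((continuous_lmax.comp continuous_snd).add ((continuous_avg lmax).comp continuous_fst)).sub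
    (Continuous.log (by fun_prop) fun _ => (lt_max_of_lt_right (exp_pos _)).ne')

/-- the potentials of small circles around `z` converge in the space of fields -/
theorem tendsto_pot (hν : IsGFF id ν) {z : ℂ} (hz : z ∈ V0) (γ : ℝ) (H : Field) :
    Tendsto (fun k : ℕ => addFn H (γ • pot (k * log 2, z))) atTop (𝓝 (tip γ z H)) := by
  have hc : Continuous fun x : ℝ × (ℝ × ℂ) => circleAverage (pot x.2) z x.1 := by
    have : Continuous fun x : ℝ × (ℝ × ℂ) =>
        ∫ θ in (0 : ℝ)..2 * π, pot x.2 (circleMap z x.1 θ) := by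
      refine intervalIntegral.continuous_parametric_intervalIntegral_of_continuous' ?_ _ _
      refine continuous_pot.comp (f := fun y : (ℝ × (ℝ × ℂ)) × ℝ =>
        (y.1.2, circleMap z y.1.1 y.2)) ?_
      unfold circleMap
      fun_prop
    exact this.const_smul (2 * π)⁻¹
  let T : C(ℝ × (ℝ × ℂ), ℝ) := ⟨_, hc⟩
  obtain ⟨Θ, hΘc, hΘ⟩ : ∃ Θ : ℝ → Field, Continuous Θ ∧
      ∀ r p, Θ r p = H p + γ * circleAverage (pot p) z r :=
    ⟨fun r => H + γ • T.curry r, continuous_const.add (T.curry.continuous.const_smul γ),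
      fun _ _ => rfl⟩
  have h0 : Θ 0 = tip γ z H := by
    ext p
    rw [tip_apply, hΘ, circleAverage_const_on_circle (a := pot p z) fun x hx => by
      rw [abs_zero, Metric.sphere_zero] at hx
      rw [hx], pot_eq, lmax_of_le ((norm_le_of_mem_V0 hz).trans (by norm_num)), zero_add,
      norm_sub_rev]
  have h1 : ∀ k : ℕ, Θ (2⁻¹ ^ k) = addFn H (γ • pot (k * log 2, z)) := fun k => by
    ext p
    rw [addFn_pot_apply, TranslAux.gffCov_symm hν, CM.gffCov_eq, avg, Mu.exp_neg_log_two, hΘ]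
  rw [← h0]
  exact ((hΘc.tendsto 0).comp (tendsto_pow_atTop_nhds_zero_of_lt_one (by norm_num)
    (by norm_num))).congr h1

theorem measurable_pot (γ t : ℝ) :
    Measurable fun x : Field × ℂ => addFn x.1 (γ • pot (t, x.2)) := by
  have : Continuous fun z : ℂ => pot (t, z) :=
    ContinuousMap.continuous_of_continuous_uncurry _
      (continuous_pot.comp (f := fun y : ℂ × ℂ => ((t, y.1), y.2)) (by fun_prop))
  exact EN.measurable_addFn' measurable_fst
    ((this.const_smul γ).measurable.comp measurable_snd)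

/-- the law of the shifted field has the density `den` averaged over `V0` -/
theorem pot_le (hν : IsGFF0 ν) {p q : ℝ} (hpq : p.HolderConjugate q) {k : ℕ} (hk : 1 ≤ k)
    {U : Set Field} (hU : MeasurableSet U) :
    ν.prod U0 {x | addFn x.1 (γ • pot (k * log 2, x.2)) ∈ U} ≤ (volume V0)⁻¹ *
      ((∫⁻ H, (∫⁻ z in V0, ENNReal.ofReal (Mu.den γ H k z)) ^ p ∂ν) ^ (1 / p) * ν U ^ (1 / q)) := by
  have := hν.prob
  have hd : Measurable fun x : Field × ℂ => ENNReal.ofReal (Mu.den γ x.1 k x.2) :=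
    (Mu.measurable_uncurry_of (fun H => Mu.den_cont γ H k) (Mu.den_meas γ k)).ennreal_ofReal
  have hi : Measurable (U.indicator (1 : Field → ℝ≥0∞)) := measurable_one.indicator hU
  have e1 : ν.prod U0 {x | addFn x.1 (γ • pot (k * log 2, x.2)) ∈ U} =
      ∫⁻ z, ∫⁻ H, ENNReal.ofReal (Mu.den γ H k z) * U.indicator 1 H ∂ν ∂U0 := by
    rw [show {x : Field × ℂ | addFn x.1 (γ • pot (k * log 2, x.2)) ∈ U} =
      (fun x : Field × ℂ => addFn x.1 (γ • pot (k * log 2, x.2))) ⁻¹' U from rfl,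
      Measure.prod_apply_symm (measurable_pot γ _ hU)]
    refine lintegral_congr_ae (ae_mem_V0.mono fun z hz => ?_)
    have hs : ‖z‖ + exp (-((k : ℝ) * log 2)) ≤ 1 := by
      have h1 : (2⁻¹ : ℝ) ^ k ≤ 2⁻¹ ^ 1 := pow_le_pow_of_le_one (by norm_num) (by norm_num) hk
      rw [Mu.exp_neg_log_two]
      linarith [norm_le_of_mem_V0 hz]
    have h2 := cm_exact hν (k * log 2, z) γ hi
    rw [gffCov_self hs] at h2
    refine Eq.trans ?_ h2
    exact (lintegral_indicator_one (μ := ν)
      (Su.measurable_shift (γ • pot (k * log 2, z)) hU)).symm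
  have hm : Measurable fun H => ∫⁻ z in V0, ENNReal.ofReal (Mu.den γ H k z) :=
    hd.lintegral_prod_right'
  rw [e1, ← lintegral_lintegral_swap (f := fun H z => ENNReal.ofReal (Mu.den γ H k z) *
    U.indicator 1 H) (hd.mul (hi.comp measurable_fst)).aemeasurable]
  have e2 : ∀ H : Field, ∫⁻ z, ENNReal.ofReal (Mu.den γ H k z) * U.indicator 1 H ∂U0 =
      (volume V0)⁻¹ * ((∫⁻ z in V0, ENNReal.ofReal (Mu.den γ H k z)) * U.indicator 1 H) := by
    intro H
    rw [U0, ProbabilityTheory.cond, lintegral_smul_measure, smul_eq_mul,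
      lintegral_mul_const _ (Mu.den_cont γ H k).measurable.ennreal_ofReal]
  simp only [e2]
  rw [lintegral_const_mul _ (hm.fun_mul hi)]
  refine mul_le_mul_right ((ENNReal.lintegral_mul_le_Lp_mul_Lq ν hpq hm.aemeasurable
    hi.aemeasurable).trans (le_of_eq ?_)) _
  congr 2
  rw [← lintegral_indicator_one hU]
  refine lintegral_congr fun H => ?_
  by_cases h : H ∈ U
  · simp [h]
  · simp [h, hpq.symm.pos]

theorem tip_ac (hν : IsGFF0 ν) (hU : DenUI γ ν) :
    (ν.prod U0).map (fun x => tip γ x.2 x.1) ≪ ν := by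
  have := hν.prob
  obtain ⟨p, hp, C, hC⟩ := hU
  have hpq := Real.HolderConjugate.conjExponent hp
  set q := p.conjExponent
  set c : ℝ≥0∞ := (volume V0)⁻¹ * (C : ℝ≥0∞) ^ (1 / p) with hc
  have hc' : c ≠ ∞ := ENNReal.mul_ne_top (ENNReal.inv_ne_top.2 volume_V0_ne_zero)
    (ENNReal.rpow_ne_top_of_nonneg hpq.one_div_nonneg ENNReal.coe_ne_top)
  have hm := (continuous_tip γ).measurable
  have key : ∀ U : Set Field, IsOpen U →
      (ν.prod U0).map (fun x => tip γ x.2 x.1) U ≤ c * ν U ^ (1 / q) := by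
    intro U hUo
    set E : ℕ → Set (Field × ℂ) := fun k => {x | addFn x.1 (γ • pot (k * log 2, x.2)) ∈ U}
    have h1 : (fun x : Field × ℂ => tip γ x.2 x.1) ⁻¹' U ≤ᵐ[ν.prod U0]
        ⋃ n, ⋂ k ≥ n, E (k + 1) := by
      filter_upwards [Measure.quasiMeasurePreserving_snd.ae ae_mem_V0] with x hx h
      obtain ⟨n, hn⟩ := eventually_atTop.1 ((tendsto_pot hν.1 hx γ x.1).eventually (hUo.mem_nhds h))
      exact mem_iUnion.2 ⟨n, mem_iInter₂.2 fun k hk => hn _ (Nat.le_succ_of_le hk)⟩
    rw [Measure.map_apply hm hUo.measurableSet]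
    refine (measure_mono_ae h1).trans ?_
    rw [Monotone.measure_iUnion fun a b hab => biInter_subset_biInter_left fun k hk => hab.trans hk]
    refine iSup_le fun n => (measure_mono (biInter_subset_of_mem (le_refl n))).trans ?_
    refine (pot_le hν hpq (Nat.le_add_left 1 n) hUo.measurableSet).trans ?_
    rw [hc, mul_assoc]
    have := hpq.one_div_nonneg
    gcongr
    exact hC _
  refine Measure.AbsolutelyContinuous.mk fun A _ h0 => le_antisymm ?_ zero_le
  have ht : Tendsto (fun r : ℝ≥0∞ => c * r ^ (1 / q)) (𝓝[>] 0) (𝓝 0) := by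
    have h1 := (ENNReal.continuous_rpow_const (y := 1 / q)).tendsto 0
    rw [ENNReal.zero_rpow_of_pos hpq.symm.one_div_pos] at h1
    simpa using (ENNReal.Tendsto.const_mul h1 (Or.inr hc')).mono_left nhdsWithin_le_nhds
  refine ge_of_tendsto ht ?_
  filter_upwards [self_mem_nhdsWithin] with r hr
  obtain ⟨U, hAU, hUo, hr'⟩ := A.exists_isOpen_lt_of_lt (μ := ν) r (h0.trans_lt hr)
  refine (measure_mono hAU).trans ((key U hUo).trans ?_)
  gcongr
  exact hpq.symm.one_div_nonneg

end Pool.Agent.Lib.MP_0d9445_pr.Tip
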