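import Pool.Agent.Lib.MP_0d9445_pr.Tip.Defs
import Pool.Agent.Lib.MP_0d9445_pr.CM.Pot
import Pool.Agent.Lib.MP_0d9445_pr.Su.ConeSwap

/-! The quantum cone near its marked point. -/

open MeasureTheory ProbabilityTheory Set Filter Topology Real LQ.Met
open scoped NNReal ENNReal

noncomputable section

namespace Pool.Agent.Lib.MP_0d9445_pr.Tip

open CR (osq csq)
open Su (IsGFF0 pot CMpot)
open EN (nrm)

variable {Ω : Type} [MeasurableSpace Ω] {P : Measure Ω} {h : Ω → Field} {f : Ω → ℂ → ℝ}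
  {ν : Measure Field} {γ Q : ℝ}

namespace ConeAux

/-- Fields with the same law that agree along a sequence of open sets with dense union can be
glued. -/
theorem glue [IsFiniteMeasure P] {Φ : ℕ → Ω → Field} (hΦ : ∀ k, Measurable (Φ k))
    (hν : ∀ k, P.map (Φ k) = ν) {U : ℕ → Set (ℝ × ℂ)} (hU : ∀ k, IsOpen (U k))
    (hd : Dense (⋃ k, U k)) (hc : ∀ ω k l, k ≤ l → EqOn (Φ k ω) (Φ l ω) (U k)) :
    ∃ g : Ω → Field, Measurable g ∧ P.map g = ν ∧ ∀ᵐ ω ∂P, ∀ k, EqOn (g ω) (Φ k ω) (U k) := by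
  obtain ⟨D, hD, hDc, hDd⟩ := hd.exists_countable_dense_subset
  have he := measurableEmbedding_evalOn (W := ℝ) hDc hDd
  choose n hn using fun q : D => mem_iUnion.1 (hD q.2)
  have mX : Measurable fun ω (q : D) => Φ (n q) ω q :=
    measurable_pi_lambda _ fun q => (CM.measurable_ev _).comp (hΦ _)
  have mY : Measurable fun ω (q : D) => Φ 0 ω q := he.measurable.comp (hΦ 0)
  have e : P.map (fun ω (q : D) => Φ (n q) ω q) = P.map fun ω (q : D) => Φ 0 ω q := by
    refine (map_eq_iff_forall_finset_map_restrict_eq (X := fun (q : D) ω => Φ (n q) ω q)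
      (Y := fun (q : D) ω => Φ 0 ω q) mX.aemeasurable mY.aemeasurable).2 fun I => ?_
    have m : Measurable fun F : Field => I.restrict fun q : D => F q :=
      (Finset.measurable_restrict I).comp he.measurable
    have e1 : (fun ω => I.restrict fun q : D => Φ (n q) ω q) =
        (fun F : Field => I.restrict fun q : D => F q) ∘ Φ (I.sup n) :=
      funext fun ω => funext fun q => hc ω _ _ (Finset.le_sup q.2) (hn q)
    rw [e1, ← Measure.map_map m (hΦ _), hν, ← hν 0, Measure.map_map m (hΦ _)]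
    rfl
  refine ⟨fun ω => he.invFun fun q => Φ (n q) ω q, he.measurable_invFun.comp mX, ?_, ?_⟩
  · have := congrArg (Measure.map he.invFun) e
    rw [Measure.map_map he.measurable_invFun mX, Measure.map_map he.measurable_invFun mY] at this
    refine this.trans ((congrArg (Measure.map · P) (funext fun ω => ?_)).trans (hν 0))
    exact he.leftInverse_invFun _
  have h1 : ∀ᵐ y ∂P.map (fun ω (q : D) => Φ (n q) ω q),
      y ∈ range fun (F : Field) (q : D) => F q := by
    rw [e]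
    exact (ae_map_iff mY.aemeasurable he.measurableSet_range).2 (.of_forall fun ω => ⟨_, rfl⟩)
  filter_upwards [ae_of_ae_map mX.aemeasurable h1] with ω ⟨F, hF⟩ k
  rw [← hF, he.leftInverse_invFun]
  refine (EqOn.closure (s := U k ∩ D) (fun q hq => ?_) F.continuous (Φ k ω).continuous).mono
    (hDd.open_subset_closure_inter (hU k))
  exact ((congrFun hF ⟨q, hq.2⟩).trans (hc ω _ _ (le_max_left _ k) (hn ⟨q, hq.2⟩))).trans
    (hc ω _ _ (le_max_right _ k) hq.1).symm

/-- the circles at distance more than `exp (-k)` from the origin -/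
def far (k : ℕ) : Set (ℝ × ℂ) := {q | exp (-(k : ℝ)) < |‖q.2‖ - exp (-q.1)|}

theorem dense_far : Dense (⋃ k, far k) := fun q => by
  have hc : Continuous fun s : ℝ => (s, q.2) := by fun_prop
  have hd : Dense {s : ℝ | exp (-s) = ‖q.2‖}ᶜ := (Set.Subsingleton.countable fun s hs t ht =>
    neg_injective (exp_injective (Eq.trans hs (Eq.symm ht)))).dense_compl ℝ
  refine closure_mono ?_ (image_closure_subset_closure_image hc ⟨q.1, hd q.1, rfl⟩)
  rintro _ ⟨s, hs, rfl⟩
  have h0 : 0 < |‖q.2‖ - exp (-s)| := abs_pos.2 (sub_ne_zero.2 (Ne.symm hs))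
  obtain ⟨k, hk⟩ := ((tendsto_exp_neg_atTop_nhds_zero.comp
    tendsto_natCast_atTop_atTop).eventually_lt_const h0).exists
  exact mem_iUnion.2 ⟨k, hk⟩

theorem mem_far {k : ℕ} {q : ℝ × ℂ}
    (hq : Disjoint (Metric.sphere q.2 (exp (-q.1))) (Metric.closedBall 0 (exp (-(k : ℝ))))) :
    q ∈ far k := by
  obtain ⟨u, hu, hq2⟩ : ∃ u : ℂ, ‖u‖ = 1 ∧ q.2 = (‖q.2‖ : ℂ) * u :=
    ⟨Complex.exp (Complex.arg q.2 * Complex.I), Complex.norm_exp_ofReal_mul_I _,
      (Complex.norm_mul_exp_arg_mul_I _).symm⟩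
  have h1 : ((‖q.2‖ - exp (-q.1) : ℝ) : ℂ) * u ∈ Metric.sphere q.2 (exp (-q.1)) := by
    rw [mem_sphere_iff_norm, Complex.ofReal_sub, sub_mul, ← hq2, sub_sub_cancel_left, norm_neg,
      norm_mul, hu, mul_one, Complex.norm_real, Real.norm_of_nonneg (exp_pos _).le]
  have h2 := disjoint_left.1 hq h1
  rwa [mem_closedBall_zero_iff, norm_mul, hu, mul_one, Complex.norm_real, Real.norm_eq_abs,
    not_le] at h2

theorem swap_congr (H : Field) (X : ℝ≥0 → ℝ) {k l : ℕ} (hkl : k ≤ l) :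
    EqOn (addFn H (Su.swapFn k X H)) (addFn H (Su.swapFn l X H)) (far k) := fun q hq => by
  rw [CM.addFn_apply, CM.addFn_apply]
  congr 1
  refine circleAverage_congr_sphere fun x hx => ?_
  rw [abs_of_pos (exp_pos _), mem_sphere_iff_norm, norm_sub_rev] at hx
  have h1 : exp (-((k : ℝ≥0) : ℝ)) ≤ ‖x‖ := by
    have := abs_norm_sub_norm_le q.2 (q.2 - x)
    rw [sub_sub_cancel, hx] at this
    exact (lt_of_lt_of_le hq this).le
  have h2 : exp (-((l : ℝ≥0) : ℝ)) ≤ ‖x‖ :=
    (exp_le_exp.2 (neg_le_neg (by exact_mod_cast hkl))).trans h1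
  have h3 : Su.ConeAux.tm 1 0 (k : ℝ≥0) x = Su.ConeAux.tm 1 0 (l : ℝ≥0) x := by
    rw [← NNReal.coe_inj, Su.tm_coe, Su.tm_coe, max_eq_left h1, max_eq_left h2]
  simp only [Su.swapFn, ContinuousMap.sub_apply, ContinuousMap.comp_apply, h3]

end ConeAux

end Pool.Agent.Lib.MP_0d9445_pr.Tip
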