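import Pool.Agent.Lib.MP_0d9445_pr.Tip.XDefs
import Pool.Agent.Lib.MP_0d9445_pr.Tip.Cone

/-! The quantum cone near its marked point. -/

open MeasureTheory ProbabilityTheory Set Filter Topology Real LQ.Met
open scoped NNReal ENNReal

noncomputable section

namespace Pool.Agent.Lib.MP_0d9445_pr.Tip

open CR (osq csq)
open Su (IsGFF0 pot CMpot)
open EN (nrm)

variable {Ω : Type} [MeasurableSpace Ω] {P : Measure Ω} {h : Ω → Field} {f : Ω → ℂ → ℝ}
  {ν : Measure Field} {γ Q : ℝ}

namespace ConeXAux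

theorem pot_ball {x : ℂ} (hx : x ∈ Metric.ball (0 : ℂ) (3 / 4)) :
    pot (-log (3 / 4), 0) x = -log (3 / 4) := by
  rw [mem_ball_zero_iff] at hx
  have e : exp (-(-log (3 / 4 : ℝ))) = 3 / 4 := by rw [neg_neg, exp_log (by norm_num)]
  have h1 : avg (fun y => log (max ‖y‖ 1)) (-log (3 / 4), 0) = 0 :=
    Su.ConeAux.avg_of_norm fun y hy => by
      rw [hy, e, max_eq_right (by norm_num), log_one]
  change log (max ‖x‖ 1) + avg (fun y => log (max ‖y‖ 1)) (-log (3 / 4), 0) -
    log (max ‖x - 0‖ (exp (-(-log (3 / 4 : ℝ))))) = _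
  rw [h1, e, sub_zero, max_eq_right (hx.le.trans (by norm_num)), max_eq_right hx.le, log_one]
  ring

theorem null_ball (hν : IsGFF0 ν) {B : Set Field}
    (hB : MeasurableSet[sigmaOn id (Metric.ball (0 : ℂ) (3 / 4))] B) (hB0 : Su.ref ν B = 0) :
    ν B = 0 := by
  have := hν.prob
  have hBm : MeasurableSet B := Mu.sigmaOn_le measurable_id _ B hB
  have h0 : -log (3 / 4 : ℝ) ≠ 0 :=
    (neg_pos.2 (log_neg (by norm_num) (by norm_num))).ne'
  have hg := (CM.cmPot hν).qi (-log (3 / 4), 0)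
  refine Su.null_of_line (T := fun u H => addFn H (u • pot (-log (3 / 4), 0)))
    (Su.measurable_addFn measurable_fst ((Su.measurable_smul_fn _).comp measurable_snd)) hg.ac
    hBm ?_
  filter_upwards [Su.ae_null_of_ref hBm hB0] with H hN
  refine Eq.trans (congrArg volume (Set.ext fun u => ?_))
    ((Real.volume_preimage_mul_right h0 _).trans (by rw [hN, mul_zero]))
  refine Su.mem_addFn_congr hB H fun x hx => ?_
  rw [ContinuousMap.smul_apply, pot_ball hx]
  rfl

theorem disjoint_of_subset {q : ℝ × ℂ} {r : ℝ}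
    (hq : Metric.closedBall q.2 (exp (-q.1)) ⊆ {x | r < ‖x - 0‖}) :
    Disjoint (Metric.sphere q.2 (exp (-q.1))) (Metric.closedBall 0 r) :=
  disjoint_left.2 fun x hx hx' => by
    have h1 : r < ‖x - 0‖ := hq (Metric.sphere_subset_closedBall hx)
    rw [sub_zero] at h1
    exact absurd (mem_closedBall_zero_iff.1 hx') (not_le.2 h1)

end ConeXAux

open ConeAux ConeXAux

theorem cone_tipX (hν : IsGFF0 ν) (hc : IsCone γ Q P h f) : TipX γ ν P h f 0 := by
  obtain ⟨hh, h0, b, c, hbm, -, hbB, -, -, hi, hf⟩ := hc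
  have := hh.gauss.isProbabilityMeasure
  have hi' : IndepFun (fun ω t => b t ω) h P := hi.comp measurable_fst measurable_id
  have e0 : P.map h = ν := CM.gff0_unique (Su.ConeAux.isGFF0_map hh h0) hν
  have e1 : ∀ k : ℕ, P.map (fun ω => addFn (h ω) (Su.swapFn k (fun t => b t ω) (h ω))) = ν :=
    fun k => (Su.map_swap hh h0 hbm hbB hi' k).trans e0
  obtain ⟨g, hg, e2, hgk⟩ := glue (fun k : ℕ => Su.measurable_swap hh.meas hbm k) e1 (U := far)
    (fun k => isOpen_lt continuous_const (by fun_prop)) dense_far fun ω k l hkl =>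
      swap_congr _ _ hkl
  refine ⟨hh.meas, e0.absolutelyContinuous, g, fun k ω => Su.swapFn k (fun t => b t ω) (h ω),
    ⟨g, fun _ => 0, hg, measurable_const, e2.absolutelyContinuous,
      fun ω => (Mu.addFn_zero _).symm⟩,
    fun k => Su.measurable_swapFn.comp ((measurable_pi_lambda _ hbm).prodMk hh.meas),
    fun B hB hB0 => ?_, ?_⟩
  · have h1 := null_ball hν hB hB0
    rwa [← e2, Measure.map_apply hg (Mu.sigmaOn_le measurable_id _ B hB)] at h1
  filter_upwards [hgk, hbB.cont] with ω h1 hω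
  refine ⟨fun k q hq => h1 k (mem_far (disjoint_of_subset hq)), fun k x h2 h3 => ?_⟩
  rw [sub_zero] at h2 h3 ⊢
  have e := Su.tm_of_mem (S := k) h2.le (h3.le.trans (by norm_num))
  rw [hf, Su.swapFn_apply hω, radial, if_pos (e ▸ NNReal.coe_nonneg _), ← neg_neg (log ‖x‖),
    neg_neg (-log ‖x‖), ← e, Real.toNNReal_coe]
  ring

end Pool.Agent.Lib.MP_0d9445_pr.Tip
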