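import Pool.Agent.Lib.MP_0d9445_pr.Tip.Defs
import Pool.Agent.Lib.MP_0d9445_pr.CM.Pot

/-! Translation invariance. -/

open MeasureTheory ProbabilityTheory Set Filter Topology Real LQ.Met
open scoped NNReal ENNReal

noncomputable section

namespace Pool.Agent.Lib.MP_0d9445_pr.Tip

open CR (osq csq)
open Su (IsGFF0 pot CMpot)
open EN (nrm)

variable {ν : Measure Field}

namespace TranslAux

/-- the translation invariant part of the covariance -/
def S (p q : ℝ × ℂ) : ℝ := avg (fun x => log (max ‖x - q.2‖ (exp (-q.1)))) p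

theorem gffCov_split (p q : ℝ × ℂ) : gffCov p q = avg lmax p + avg lmax q - S p q := by
  have hc : Continuous fun x : ℂ => log (max ‖x - q.2‖ (exp (-q.1))) :=
    Continuous.log (by fun_prop) fun _ => (lt_max_of_lt_right (exp_pos _)).ne'
  have h1 := Mu.avg_add (f := fun x : ℂ => log (max ‖x‖ 1) + avg lmax q)
    (g := fun x : ℂ => -log (max ‖x - q.2‖ (exp (-q.1))))
    (continuous_lmax.add continuous_const) hc.neg p
  have h2 := Mu.avg_add continuous_lmax (continuous_const (y := avg lmax q)) p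
  have h3 := Mu.avg_neg (fun x : ℂ => log (max ‖x - q.2‖ (exp (-q.1)))) p
  have h4 : avg (fun _ : ℂ => avg lmax q) p = avg lmax q := EN.avg_cst _ p
  have h5 : avg (pot q) p = avg (fun z : ℂ => (log (max ‖z‖ 1) + avg lmax q) +
      -log (max ‖z - q.2‖ (exp (-q.1)))) p := by
    congr 1
  rw [CM.gffCov_eq, h5, h1, h2, h3, h4]
  rfl

theorem S_zero (p : ℝ × ℂ) : S p 0 = avg lmax p := by
  unfold S
  congr 1
  funext x
  simp [lmax]

theorem S_shift (b : ℂ) (p q : ℝ × ℂ) : S (p.1, p.2 + b) (q.1, q.2 + b) = S p q := by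
  have h := EN.avg_aff (fun x => log (max ‖x - (q.2 + b)‖ (exp (-q.1)))) one_ne_zero b p
  simp only [one_mul, norm_one, log_one, sub_zero, add_sub_add_right_eq_sub] at h
  exact h.symm

theorem gffCov_symm (hν : IsGFF id ν) (p q : ℝ × ℂ) : gffCov p q = gffCov q p := by
  rw [← hν.cov, ← hν.cov]
  simp only [mul_comm]

theorem avg_lmax_zero (hν : IsGFF id ν) : avg lmax 0 = 0 := by
  have h := hν.cov 0 0
  rw [gffCov_split, S_zero] at h
  simp only [sub_self, mul_zero, integral_zero] at h
  linarith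

theorem gffCov_shift (hν : IsGFF id ν) (b : ℂ) (p q : ℝ × ℂ) :
    gffCov (p.1, p.2 + b) (q.1, q.2 + b) - gffCov (p.1, p.2 + b) (0, 0 + b) -
      (gffCov (0, 0 + b) (q.1, q.2 + b) - gffCov (0, 0 + b) (0, 0 + b)) = gffCov p q := by
  have h0 := avg_lmax_zero hν
  have h1 := S_shift b p 0
  have h2 := S_shift b q 0
  have h3 := S_shift b 0 0
  simp only [Prod.fst_zero, Prod.snd_zero] at h1 h2 h3
  rw [gffCov_symm hν (0, 0 + b) (q.1, q.2 + b)]
  simp only [gffCov_split, S_shift, h1, h2, h3, S_zero, h0]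
  ring

theorem affine_one (Q : ℝ) (b : ℂ) (H : Field) : affine Q 1 b H = tr b H := by
  ext p
  simp [tr, affine]

theorem measurable_tr_sub (p : ℂ) : Measurable fun x : Field × ℂ => tr (p - x.2) x.1 :=
  continuous_tr.measurable.comp (f := fun x : Field × ℂ => (x.1, p - x.2)) (by fun_prop)

theorem measurable_pull_fst {α : Type} [MeasurableSpace α] {c : α → Cf} (hc : Measurable c)
    (p : ℂ) : Measurable fun x : α × ℂ => (pull 1 (p - x.2) (c x.1)).1 := by
  have h : Continuous fun x : Met × ℂ => (pull 1 x.2 (x.1, 0)).1 := by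
    refine ContinuousMap.continuous_of_continuous_uncurry _ ?_
    change Continuous fun y : (Met × ℂ) × (ℂ × ℂ) =>
      y.1.1 (1 * y.2.1 + y.1.2, 1 * y.2.2 + y.1.2)
    fun_prop
  exact h.measurable.comp (f := fun x : α × ℂ => ((c x.1).1, p - x.2)) (by fun_prop)

theorem locFin_map (m : Measure ℂ) [IsLocallyFiniteMeasure m] (b : ℂ) :
    IsLocallyFiniteMeasure (m.map fun z => (z - b) / 1) := by
  have e0 : (fun w : ℂ => (w - b) / 1) = (Mu.aff 1 b one_ne_zero).symm := by
    funext w; rw [Mu.aff_symm_apply]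
  rw [e0]
  have : IsFiniteMeasureOnCompacts (m.map (Mu.aff 1 b one_ne_zero).symm) :=
    Measure.IsFiniteMeasureOnCompacts.map m (Mu.aff 1 b one_ne_zero).symm
  infer_instance

theorem continuous_integral_shift (m : Measure ℂ) [IsLocallyFiniteMeasure m] {φ : ℂ → ℝ}
    (h1 : Continuous φ) (h2 : HasCompactSupport φ) : Continuous fun b : ℂ => ∫ z, φ (z - b) ∂m := by
  have hg : HasCompactSupport fun u : ℂ => φ (-u) := h2.comp_homeomorph (Homeomorph.neg ℂ)
  have h := hg.continuous_convolution_right (ContinuousLinearMap.lsmul ℝ ℝ)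
    (f := fun _ : ℂ => (1 : ℝ)) (μ := m) (locallyIntegrable_const 1) (h1.comp continuous_neg)
  refine h.congr fun b => ?_
  simp [convolution_def]

theorem measurable_integral {α : Type} [MeasurableSpace α] {m : α → Measure ℂ}
    (hm : Measurable m) (hf : ∀ a, IsLocallyFiniteMeasure (m a)) {φ : ℂ → ℝ}
    (h1 : Continuous φ) (h2 : HasCompactSupport φ) : Measurable fun a => ∫ z, φ z ∂m a := by
  have e : (fun a => ∫ z, φ z ∂m a) = fun a => (∫⁻ z, ENNReal.ofReal (φ z) ∂m a).toReal -
      (∫⁻ z, ENNReal.ofReal (-φ z) ∂m a).toReal := by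
    funext a
    have := hf a
    exact integral_eq_lintegral_pos_part_sub_lintegral_neg_part
      (h1.integrable_of_hasCompactSupport h2)
  rw [e]
  exact (((Measure.measurable_lintegral h1.measurable.ennreal_ofReal).comp
    hm).ennreal_toReal).sub (((Measure.measurable_lintegral
    h1.measurable.neg.ennreal_ofReal).comp hm).ennreal_toReal)

theorem ae_prod_of_forall {α : Type} [MeasurableSpace α] {P : Measure α} [SFinite P]
    {q : α × ℂ → Prop} (hq : MeasurableSet {x | q x}) (h : ∀ z, ∀ᵐ a ∂P, q (a, z)) :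
    ∀ᵐ x ∂P.prod U0, q x := by
  rw [Measure.ae_prod_iff_ae_ae hq, Measure.ae_ae_comm (p := fun a z => q (a, z)) hq]
  exact ae_of_all _ h

end TranslAux

open TranslAux

theorem isGFF_tr (hν : IsGFF id ν) (b : ℂ) : IsGFF (tr b) ν := by
  obtain ⟨K, _, W, f, hW, hf, hin⟩ := CM.exists_iso hν.gauss hν.mean
  have hY : ∀ p : ℝ × ℂ, (fun H : Field => tr b H p - tr b H 0) =ᵐ[ν]
      W (f (p.1, p.2 + b) - f (0, 0 + b)) := by
    intro p
    filter_upwards [hW.sub (f (p.1, p.2 + b)) (f (0, 0 + b)), hf (p.1, p.2 + b), hf (0, 0 + b)]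
      with H h1 h2 h3
    rw [h1, ← h2, ← h3, tr_apply, tr_apply]
    simp only [id, Prod.fst_zero, Prod.snd_zero]
    ring
  refine ⟨EN.measurable_affine 0 1 b, hW.version_isGaussianProcess hY, fun p => ?_,
    fun p q => ?_⟩
  · rw [integral_congr_ae (hY p), hW.integral_eq_zero]
  · have e : ∫ H, (tr b H p - tr b H 0) * (tr b H q - tr b H 0) ∂ν =
        ∫ H, W (f (p.1, p.2 + b) - f (0, 0 + b)) H * W (f (q.1, q.2 + b) - f (0, 0 + b)) H ∂ν := by
      refine integral_congr_ae ?_
      filter_upwards [hY p, hY q] with H h1 h2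
      rw [h1, h2]
    rw [e, hW.integral_mul, inner_sub_left, inner_sub_right, inner_sub_right, hin, hin, hin, hin,
      hν.cov, hν.cov, hν.cov, hν.cov]
    exact gffCov_shift hν b p q

theorem map_nrm_tr (hν : IsGFF0 ν) (b : ℂ) : ν.map (fun H => nrm (tr b H)) = ν := by
  rw [EN.gff_law (isGFF_tr hν.1 b) hν.1]
  have e : (fun H : Field => nrm (id H)) =ᵐ[ν] id :=
    hν.2.mono fun H hH => EN.nrm_of_zero hH
  rw [Measure.map_congr e, Measure.map_id]

theorem map_nrm_tr_prod (hν : IsGFF0 ν) (p : ℂ) :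
    (ν.prod U0).map (fun x => (nrm (tr (p - x.2) x.1), x.2)) = ν.prod U0 := by
  have := hν.prob
  have hm : Measurable fun x : Field × ℂ => (nrm (tr (p - x.2) x.1), x.2) :=
    (EN.measurable_nrm.comp (measurable_tr_sub p)).prodMk measurable_snd
  ext s hs
  rw [Measure.map_apply hm hs, Measure.prod_apply_symm (hm hs), Measure.prod_apply_symm hs]
  refine lintegral_congr fun z => ?_
  have h : ν.map (fun H => nrm (tr (p - z) H)) ((fun H => (H, z)) ⁻¹' s) =
      ν ((fun H => (H, z)) ⁻¹' s) := by rw [map_nrm_tr hν]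
  rw [Measure.map_apply (EN.measurable_nrm.fun_comp (isGFF_tr hν.1 (p - z)).meas)
    (measurable_prodMk_right hs)] at h
  exact h

theorem measurable_pull_prod {α : Type} [MeasurableSpace α] {c : α → Cf} (hc : Measurable c)
    (hf : ∀ a, IsLocallyFiniteMeasure (c a).2) (p : ℂ) :
    Measurable fun x : α × ℂ => pull 1 (p - x.2) (c x.1) := by
  refine (measurable_pull_fst hc p).prodMk ?_
  refine Mu.measurable_of_integral (F := fun x : α × ℂ => (c x.1).2.map fun z => (z - (p - x.2)) / 1)
    (fun x => ?_) fun φ h1 h2 => ?_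
  · have := hf x.1
    exact locFin_map _ _
  · have e : (fun x : α × ℂ => ∫ z, φ z ∂(c x.1).2.map fun z => (z - (p - x.2)) / 1) =
        fun x : α × ℂ => ∫ z, φ (z - (p - x.2)) ∂(c x.1).2 := by
      funext x
      rw [integral_map (by fun_prop) h1.aestronglyMeasurable]
      simp only [div_one]
    rw [e]
    refine Mu.measurable_uncurry_of (f := fun a w => ∫ z, φ (z - (p - w)) ∂(c a).2)
      (fun a => ?_) fun w => ?_
    · have := hf a
      exact (continuous_integral_shift (c a).2 h1 h2).comp (continuous_const.sub continuous_id)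
    · exact measurable_integral hc.snd hf (h1.comp (continuous_id.sub continuous_const))
        (h2.comp_homeomorph (Homeomorph.subRight (p - w)))

theorem aemeasurable_pull_prod {α : Type} [MeasurableSpace α] {P : Measure α} {c : α → Cf}
    (hc : Measurable c) (hf : ∀ᵐ a ∂P, IsLocallyFiniteMeasure (c a).2) (p : ℂ) :
    AEMeasurable (fun x : α × ℂ => pull 1 (p - x.2) (c x.1)) (P.prod U0) := by
  classical
  have hA : MeasurableSet {a | IsLocallyFiniteMeasure (c a).2} := by
    simp only [Mu.locFin_iff, ofPred_forall]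
    exact MeasurableSet.iInter fun R =>
      measurableSet_lt ((Measure.measurable_coe measurableSet_ball).comp hc.snd) measurable_const
  let c' : α → Cf := fun a => if IsLocallyFiniteMeasure (c a).2 then c a else (0, 0)
  have hc' : Measurable c' := Measurable.ite hA hc measurable_const
  have hf' : ∀ a, IsLocallyFiniteMeasure (c' a).2 := by
    intro a
    by_cases h : IsLocallyFiniteMeasure (c a).2
    · simp only [c', if_pos h, h]
    · simp only [c', if_neg h]
      infer_instance
  refine (measurable_pull_prod hc' hf' p).aemeasurable.congr ?_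
  filter_upwards [Measure.quasiMeasurePreserving_fst.ae hf] with x hx
  simp only [c', if_pos hx]

end Pool.Agent.Lib.MP_0d9445_pr.Tip
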