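import Pool.Agent.Lib.MP_0d9445_pr.Tip.XDefs
import Pool.Agent.Lib.MP_0d9445_pr.Tip.Transl
import Pool.Agent.Lib.MP_0d9445_pr.PPP.BridgeD

/-! Poisson points seen through an independent random translation. -/

open MeasureTheory ProbabilityTheory Set Filter Topology Real LQ.Met
open scoped NNReal ENNReal

noncomputable section

namespace Pool.Agent.Lib.MP_0d9445_pr.Tip

open CR (osq csq)
open Su (IsGFF0 pot CMpot)
open EN (nrm)

variable {Ω : Type} [MeasurableSpace Ω] {P : Measure Ω} [IsProbabilityMeasure P]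

namespace CoxAux

open PPP

variable {W : Sq}

theorem add_mem {p z y : ℂ} (hz : z ∈ V0) (hy : y ∈ Wt.o) : y + (p - z) ∈ Metric.ball p 1 := by
  have h1 := norm_le_of_mem_V0 hz
  have h2 : ‖y‖ ≤ 3 / 2 * (1 / 4) := norm_le_of_mem_osq hy
  have h3 := norm_sub_le y z
  rw [mem_ball_iff_norm, show y + (p - z) - p = y - z by ring]
  linarith

theorem image_eq (hW : W.o ⊆ Wt.o) {p z : ℂ} (hz : z ∈ V0) (s : Set ℂ) :
    (fun y => (y - (p - z)) / 1) '' (s ∩ Metric.ball p 1) ∩ W.o =
      (fun y => y + (p - z)) ⁻¹' s ∩ W.o := by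
  ext y
  constructor
  · rintro ⟨⟨u, hu, rfl⟩, hy⟩
    refine ⟨?_, hy⟩
    simpa using hu.1
  · rintro ⟨h1, h2⟩
    exact ⟨⟨y + (p - z), ⟨h1, add_mem hz (hW h2)⟩, by simp⟩, h2⟩

theorem measurable_sh (b : ℂ) : Measurable fun y : ℂ => (y - b) / 1 := by fun_prop

theorem winInt_pull (hW : W.o ⊆ Wt.o) (l : ℝ≥0) {p z : ℂ} (hz : z ∈ V0) (c : Cf) :
    ((winInt l (Metric.ball p 1) c).map fun y => (y - (p - z)) / 1).restrict W.o =
      winInt l W.o (pull 1 (p - z) c) := by
  ext A hA
  have hAW := hA.inter (isOpen_osq W.1 W.2).measurableSet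
  rw [Measure.restrict_apply hA, Measure.map_apply (measurable_sh _) hAW,
    winInt_apply _ _ _ (measurable_sh _ hAW), winInt_apply _ _ _ hA]
  simp only [pull]
  rw [Measure.map_apply (measurable_sh _) hAW, inter_eq_self_of_subset_left]
  intro y hy
  simpa using add_mem (p := p) hz (hW hy.2)

theorem finite_winInt (l : ℝ≥0) {W : Set ℂ} {c : Cf} (h : c.2 W ≠ ∞) :
    IsFiniteMeasure (winInt l W c) :=
  ⟨by
    rw [winInt_apply _ _ _ MeasurableSet.univ, univ_inter]
    exact ENNReal.mul_lt_top ENNReal.coe_lt_top h.lt_top⟩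

omit [IsProbabilityMeasure P] in
/-- a measurable labelling of the points in a bounded set -/
theorem exists_label {d : Ω → Met} {m : Ω → Measure ℂ} {l : ℝ≥0} {Y : Ω → Set ℂ}
    (hY : IsPPP P d m l Y) {B : Set ℂ} (hB : MeasurableSet B) (hb : Bornology.IsBounded B) :
    ∃ y : Ω → Conf ℂ, Measurable y ∧ ∀ ω, (Y ω ∩ B).Finite → pts (y ω) = Y ω ∩ B := by
  obtain ⟨A, Ψ, hA, hΨ, h⟩ := Bridge.exists_select ℂ
  refine ⟨fun ω => Ψ fun j => (Y ω ∩ B ∩ A j).ncard,
    hΨ.comp (measurable_pi_lambda _ fun j => Bridge.measurable_ncard_of_encard fun n => ?_),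
    fun ω hω => h _ hω⟩
  have h1 := (hY 1 (fun _ => B ∩ A j) (fun _ => n) univ (fun _ => hB.inter (hA j))
    (fun _ => hb.subset inter_subset_left) (Subsingleton.pairwise) MeasurableSet.univ).1
  simpa only [forall_const, inter_assoc] using h1

/-- the Poisson expectation is a.e. measurable along a map with a.e. finite intensity -/
theorem aemeasurable_ppp {α : Type} [MeasurableSpace α] {Q : Measure α} {h : α → Cf}
    (hh : AEMeasurable h Q) {κ : Cf → Measure ℂ} (hκ : Measurable κ)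
    (hf : ∀ᵐ x ∂Q, κ (h x) univ ≠ ∞) {f : Cf × Conf ℂ → ℝ≥0∞} (hF : Measurable f) :
    AEMeasurable (fun x => ∫⁻ c, f (h x, c) ∂ppp (κ (h x))) Q := by
  classical
  have hs : MeasurableSet {g : Cf | κ g univ = ∞} :=
    ((Measure.measurable_coe MeasurableSet.univ).comp hκ) (measurableSet_singleton ∞)
  have h1 : Measurable fun g : Cf => if κ g univ = ∞ then 0 else κ g :=
    Measurable.ite hs measurable_const hκ
  have h2 : ∀ g : Cf, IsFiniteMeasure (if κ g univ = ∞ then 0 else κ g) := fun g => by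
    split_ifs with hg
    · infer_instance
    · exact ⟨lt_top_iff_ne_top.2 hg⟩
  refine ((measurable_lintegral_ppp h1 h2 hF).comp_aemeasurable hh).congr ?_
  filter_upwards [hf] with x hx
  simp only [Function.comp_apply, if_neg hx]

end CoxAux

open PPP CoxAux in
theorem isCox_tr {d : Ω → Met} {m : Ω → Measure ℂ} {l : ℝ≥0} {Y : Ω → Set ℂ}
    (hY : IsPPP P d m l Y) (hd : Measurable d) (hm : Measurable m) (p : ℂ)
    (hfin : ∀ᵐ ω ∂P, IsLocallyFiniteMeasure (m ω)) (hat : ∀ᵐ ω ∂P, ∀ z, m ω {z} = 0)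
    {W : Sq} (hW : W.o ⊆ Wt.o) :
    PPP.IsCox (P.prod U0) (fun x => pull 1 (p - x.2) (d x.1, m x.1)) (winInt l W.o)
      fun x => (fun y => y + (p - x.2)) ⁻¹' Y x.1 ∩ W.o := by
  intro F hF0
  have hWm : MeasurableSet W.o := (isOpen_osq _ _).measurableSet
  have hF : Measurable fun q : Cf × Conf ℂ => F q.1 (pts q.2) := measurable_prod_conf hF0
  have hB : MeasurableSet (Metric.ball p 1) := Metric.isOpen_ball.measurableSet
  have hBf : ∀ᵐ ω ∂P, m ω (Metric.ball p 1) ≠ ∞ := hfin.mono fun ω hω =>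
    Metric.isBounded_ball.measure_lt_top.ne
  have hC := hY.isCox hd hm hB Metric.isBounded_ball hBf (hat.mono fun ω hω z _ => hω z)
  obtain ⟨y, hy, hy'⟩ := exists_label hY hB Metric.isBounded_ball
  have hh : AEMeasurable (fun x : Ω × ℂ => pull 1 (p - x.2) (d x.1, m x.1)) (P.prod U0) :=
    aemeasurable_pull_prod (c := fun ω => (d ω, m ω)) (hd.prodMk hm) hfin p
  have hV : ∀ᵐ x ∂P.prod U0, x.2 ∈ V0 := Measure.quasiMeasurePreserving_snd.ae ae_mem_V0
  have hL : AEMeasurable (fun x : Ω × ℂ => F (pull 1 (p - x.2) (d x.1, m x.1))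
      ((fun y => y + (p - x.2)) ⁻¹' Y x.1 ∩ W.o)) (P.prod U0) := by
    have h1 : Measurable fun x : Ω × ℂ =>
        filt W.o (cmap (fun u => (u - (p - x.2)) / 1) (y x.1)) :=
      (measurable_filt hWm).comp
        ((measurable_cmap_param (f := fun (z : ℂ) (u : ℂ) => (u - (p - z)) / 1)
          (by fun_prop)).comp (measurable_snd.prodMk (hy.comp measurable_fst)))
    refine (hF.comp_aemeasurable (hh.prodMk h1.aemeasurable)).congr ?_
    filter_upwards [hV, Measure.quasiMeasurePreserving_fst.ae hC.ae_finite] with x h2 h3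
    simp only [Function.comp_apply, pts_filt, pts_cmap]
    rw [hy' _ h3, image_eq hW h2]
  have hR : AEMeasurable (fun x : Ω × ℂ => ∫⁻ c, F (pull 1 (p - x.2) (d x.1, m x.1)) (pts c)
      ∂ppp (winInt l W.o (pull 1 (p - x.2) (d x.1, m x.1)))) (P.prod U0) := by
    refine aemeasurable_ppp hh (measurable_winInt l hWm) ?_ hF
    filter_upwards [hV, Measure.quasiMeasurePreserving_fst.ae hBf] with x h2 h3
    have := finite_winInt l (c := (d x.1, m x.1)) h3
    rw [← winInt_pull hW l h2]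
    exact measure_ne_top _ _
  refine ⟨hL, Eq.trans ?_ (lintegral_congr fun x => lintegral_ppp_pts _ _)⟩
  rw [lintegral_prod_symm _ hL, lintegral_prod_symm _ hR]
  refine lintegral_congr_ae ?_
  filter_upwards [ae_mem_V0] with z hz
  have h1 : Measurable fun q : Cf × Conf ℂ =>
      F (pull 1 (p - z) q.1) ((fun u => (u - (p - z)) / 1) '' pts q.2 ∩ W.o) := by
    have := hF.comp (((EN.measurable_pull 1 (p - z)).comp measurable_fst).prodMk
      ((measurable_filt hWm).comp
        ((measurable_cmap (measurable_sh (p - z))).comp measurable_snd)))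
    simpa only [Function.comp_def, pts_filt, pts_cmap] using this
  have h2 := hC.lintegral_eq (F := fun c s =>
    F (pull 1 (p - z) c) ((fun u => (u - (p - z)) / 1) '' s ∩ W.o)) h1
  simp only [image_eq hW hz] at h2
  refine h2.trans (lintegral_congr_ae ?_)
  filter_upwards [hBf] with ω hω
  have := finite_winInt l (c := (d ω, m ω)) hω
  have h3 : Meas (F (pull 1 (p - z) (d ω, m ω))) := hF.comp measurable_prodMk_left
  rw [← winInt_pull hW l hz, ← lintegral_ppp_restrict _ hWm h3,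
    ← lintegral_ppp_map _ (measurable_sh _) (h3.inter hWm)]

end Pool.Agent.Lib.MP_0d9445_pr.Tip
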