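import Pool.Agent.Lib.MP_0d9445_pr.EN.Local
import Pool.Agent.Lib.MP_0d9445_pr.EN.Pull
import Pool.Agent.Lib.MP_0d9445_pr.Su.Basic

/-! A logarithmic singularity at a uniformly chosen point: definitions. -/

open MeasureTheory ProbabilityTheory Set Filter Topology Real
open scoped NNReal ENNReal

noncomputable section

namespace Pool.Agent.Lib.MP_0d9445_pr

namespace Tip

open CR (osq csq)

theorem continuous_lmax : Continuous fun x : ℂ => log (max ‖x‖ 1) :=
  Continuous.log (by fun_prop) fun _ => (lt_max_of_lt_right one_pos).ne'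

/-- the function `log (max |x| 1)` -/
def lmax : Fn := ⟨fun x => log (max ‖x‖ 1), continuous_lmax⟩

/-- the circle averages of `x ↦ log (max |x| 1) - log |x - z|` -/
def tipF (z : ℂ) : Field :=
  ⟨fun p => avg lmax p - log (max ‖p.2 - z‖ (exp (-p.1))), (continuous_avg lmax).sub
    (Continuous.log (by fun_prop) fun _ => (lt_max_of_lt_right (exp_pos _)).ne')⟩

/-- the field `H` with a logarithmic singularity of strength `γ` at `z` -/
def tip (γ : ℝ) (z : ℂ) (H : Field) : Field := H + γ • tipF z

/-- the translated field `H (· + b)` -/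
def tr (b : ℂ) (H : Field) : Field := affine 0 1 b H

/-- the square in which the singularity is chosen -/
def V0 : Set ℂ := osq 0 (1 / 16)

/-- the uniform law on `V0` -/
def U0 : Measure ℂ := ProbabilityTheory.cond volume V0

/-- the window around the singularity -/
def Wt : Sq := (0, 1 / 4)

theorem measurableSet_V0 : MeasurableSet V0 := (isOpen_osq _ _).measurableSet

theorem volume_V0_ne_zero : volume V0 ≠ 0 :=
  ((isOpen_osq _ _).measure_pos volume ⟨0, by constructor <;> simp⟩).ne'

theorem volume_V0_ne_top : volume V0 ≠ ∞ :=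
  ((isBounded_csq 0 _).subset (osq_subset_csq _ _)).measure_lt_top.ne

instance : IsProbabilityMeasure U0 :=
  cond_isProbabilityMeasure_of_finite volume_V0_ne_zero volume_V0_ne_top

theorem ae_mem_V0 : ∀ᵐ z ∂U0, z ∈ V0 := ae_cond_mem measurableSet_V0

theorem norm_le_of_mem_osq {r : ℝ} {z : ℂ} (hz : z ∈ osq 0 r) : ‖z‖ ≤ 3 / 2 * r := by
  have h1 := hz.1
  have h2 := hz.2
  simp only [Complex.zero_re, Complex.zero_im, sub_zero] at h1 h2
  have hr : 0 ≤ r := (abs_nonneg _).trans h1.le
  refine abs_le_of_sq_le_sq' ?_ (by positivity) |>.2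
  rw [Complex.sq_norm, Complex.normSq_apply]
  nlinarith [abs_lt.1 h1, abs_lt.1 h2]

theorem norm_le_of_mem_V0 {z : ℂ} (hz : z ∈ V0) : ‖z‖ ≤ 1 / 8 :=
  (norm_le_of_mem_osq hz).trans (by norm_num)

theorem tr_apply (b : ℂ) (H : Field) (p : ℝ × ℂ) : tr b H p = H (p.1, p.2 + b) := by
  simp [tr, affine]

theorem tip_apply (γ : ℝ) (z : ℂ) (H : Field) (p : ℝ × ℂ) :
    tip γ z H p = H p + γ * (avg lmax p - log (max ‖p.2 - z‖ (exp (-p.1)))) := rfl

theorem continuous_tr : Continuous fun x : Field × ℂ => tr x.2 x.1 := by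
  refine ContinuousMap.continuous_of_continuous_uncurry _ ?_
  simp only [Function.uncurry_def, tr_apply]
  fun_prop

theorem continuous_tipF : Continuous tipF := by
  refine ContinuousMap.continuous_of_continuous_uncurry _ ?_
  exact ((continuous_avg lmax).comp continuous_snd).sub
    (Continuous.log (by fun_prop) fun _ => (lt_max_of_lt_right (exp_pos _)).ne')

theorem continuous_tip (γ : ℝ) : Continuous fun x : Field × ℂ => tip γ x.2 x.1 :=
  continuous_fst.add ((continuous_tipF.comp continuous_snd).const_smul γ)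

/-- a moment of order `p > 1` of the approximations of the measure of `V0` stays bounded -/
def DenUI (γ : ℝ) (ν : Measure Field) : Prop :=
  ∃ p : ℝ, 1 < p ∧ ∃ C : ℝ≥0, ∀ k : ℕ,
    ∫⁻ H, (∫⁻ z in V0, ENNReal.ofReal (Mu.den γ H k z)) ^ p ∂ν ≤ C

end Tip

end Pool.Agent.Lib.MP_0d9445_pr
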