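import Pool.Agent.Lib.MP_0d9445_pr.Tip.Rho

/-! Local absolute continuity of the field seen from the random origin. -/

open MeasureTheory ProbabilityTheory Set Filter Topology Real LQ.Met
open scoped NNReal ENNReal

noncomputable section

namespace Pool.Agent.Lib.MP_0d9445_pr.Tip

open CR (osq csq)
open Su (IsGFF0 pot CMpot)
open EN (nrm)

variable {Ω : Type} [MeasurableSpace Ω] {P : Measure Ω} {ν : Measure Field} {G : Ω → Field}
  {γ : ℝ}

namespace FacAux

theorem meas_seen (γ : ℝ) (p : ℂ) :
    Measurable fun x : Field × ℂ => tip γ x.2 (tr (p - x.2) x.1) :=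
  (continuous_tip γ).measurable.comp
    (f := fun x : Field × ℂ => (tr (p - x.2) x.1, x.2))
    ((TranslAux.measurable_tr_sub p).prodMk measurable_snd)

theorem meas_loc (γ : ℝ) (p : ℂ) {z : ℂ} (hz : z ∈ V0) :
    Measurable[sigmaOn id (Metric.ball p (3 / 4)), sigmaOn id Wt.o]
      fun H : Field => tip γ z (tr (p - z) H) := by
  refine measurable_iff_comap_le.2 ?_
  simp only [sigmaOn, MeasurableSpace.comap_iSup, MeasurableSpace.comap_comp]
  refine iSup₂_le fun q hq => measurable_iff_comap_le.1 ?_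
  have hs : Metric.closedBall (q.2 + (p - z)) (exp (-q.1)) ⊆ Metric.ball p (3 / 4) := by
    intro y hy
    have h1 : y - (p - z) ∈ osq 0 (1 / 4) := hq (by
      rw [Metric.mem_closedBall, dist_eq_norm] at hy ⊢
      rwa [show y - (p - z) - q.2 = y - (q.2 + (p - z)) by ring])
    have h2 := norm_le_of_mem_osq h1
    have h3 := norm_le_of_mem_V0 hz
    have h4 := norm_sub_le (y - (p - z)) z
    rw [show y - (p - z) - z = y - p by ring] at h4
    rw [Metric.mem_ball, dist_eq_norm]
    linarith
  have hm : Measurable[sigmaOn id (Metric.ball p (3 / 4))]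
      fun H : Field => id H (q.1, q.2 + (p - z)) :=
    measurable_iff_comap_le.2 (le_iSup₂_of_le (q.1, q.2 + (p - z)) hs le_rfl)
  have e : ((fun H : Field => id H q) ∘ fun H : Field => tip γ z (tr (p - z) H)) =
      fun H : Field => id H (q.1, q.2 + (p - z)) +
        γ * (avg lmax q - log (max ‖q.2 - z‖ (exp (-q.1)))) := by
    funext H
    simp only [Function.comp, id, tip_apply, tr_apply]
  rw [e]
  exact hm.add_const _

theorem ae_null (hν : IsGFF0 ν) (hU : DenUI γ ν) (p : ℂ) {B : Set Field} (hB : MeasurableSet B)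
    (h0 : Su.ref ν B = 0) : ∀ᵐ x ∂ν.prod U0,
      volume {c : ℝ | addFn (tip γ x.2 (tr (p - x.2) x.1)) (cst c) ∈ B} = 0 := by
  have := hν.prob
  have hm : Measurable fun x : Field × ℂ => (nrm (tr (p - x.2) x.1), x.2) :=
    (EN.measurable_nrm.comp (TranslAux.measurable_tr_sub p)).prodMk measurable_snd
  have h1 := ae_of_ae_map (continuous_tip γ).measurable.aemeasurable
    ((tip_ac hν hU).ae_le (Su.ae_null_of_ref hB h0))
  rw [← map_nrm_tr_prod hν p] at h1
  filter_upwards [ae_of_ae_map hm.aemeasurable h1] with x hx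
  rw [← measure_preimage_add volume (tr (p - x.2) x.1 0)] at hx
  refine Eq.trans (congrArg _ (Set.ext fun c => ?_)) hx
  have e : addFn (tip γ x.2 (tr (p - x.2) x.1)) (cst c) =
      addFn (tip γ x.2 (nrm (tr (p - x.2) x.1))) (cst (tr (p - x.2) x.1 0 + c)) := by
    ext q
    simp only [EN.addFn_cst_apply, tip_apply, EN.nrm_apply]
    ring
  simp only [mem_preimage, mem_ofPred_eq, e]

theorem ref_null (hν : IsGFF0 ν) {p z : ℂ} {B : Set Field} (hB : MeasurableSet B)
    (h : ∀ᵐ H ∂ν, volume {c : ℝ | addFn (tip γ z (tr (p - z) H)) (cst c) ∈ B} = 0) :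
    Su.ref ν ((fun H : Field => tip γ z (tr (p - z) H)) ⁻¹' B) = 0 := by
  have := hν.prob
  have hm : Measurable fun x : Field × ℝ => addFn x.1 (cst x.2) :=
    Su.measurable_addFn measurable_fst (Su.measurable_cst.comp measurable_snd)
  have hS : MeasurableSet ((fun H : Field => tip γ z (tr (p - z) H)) ⁻¹' B) :=
    (meas_seen γ p).comp (f := fun H : Field => (H, z)) measurable_prodMk_right hB
  rw [Su.ref, Measure.map_apply hm hS, Measure.measure_prod_null (hm hS)]
  filter_upwards [h] with H hH
  refine gaussianReal_absolutelyContinuous 0 one_ne_zero ?_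
  refine Eq.trans (congrArg _ (Set.ext fun c => ?_)) hH
  have e : tip γ z (tr (p - z) (addFn H (cst c))) = addFn (tip γ z (tr (p - z) H)) (cst c) := by
    ext q
    simp only [EN.addFn_cst_apply, tip_apply, tr_apply]
    ring
  simp only [mem_preimage, mem_ofPred_eq, e]

end FacAux

theorem FAC.seen [IsProbabilityMeasure P] (hν : IsGFF0 ν) (hU : DenUI γ ν) (hG : Measurable G)
    {p : ℂ} (h : FAC ν P G (Metric.ball p (3 / 4))) :
    FAC ν (P.prod U0) (seen γ p G) Wt.o := by
  have := hν.prob
  intro B hB h0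
  have hBm : MeasurableSet B := Mu.sigmaOn_le measurable_id _ B hB
  have h1 := Measure.ae_ae_of_ae_prod
    (Measure.measurePreserving_swap.quasiMeasurePreserving.ae (FacAux.ae_null hν hU p hBm h0))
  have hS : MeasurableSet {x : Ω × ℂ | Tip.seen γ p G x ∈ B} :=
    (FacAux.meas_seen γ p).comp (f := fun x : Ω × ℂ => (G x.1, x.2))
      ((hG.comp measurable_fst).prodMk measurable_snd) hBm
  rw [Measure.prod_apply_symm hS]
  refine (lintegral_congr_ae ?_).trans lintegral_zero
  filter_upwards [h1, ae_mem_V0] with z hz hV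
  exact h _ (FacAux.meas_loc γ p hV hB) (FacAux.ref_null hν hBm hz)

end Pool.Agent.Lib.MP_0d9445_pr.Tip
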