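import Pool.Agent.Lib.MP_0d9445_pr.Tip.Pre

/-! The hypotheses on the environment are invariant under translations. -/

open MeasureTheory Set Filter Topology
open scoped NNReal ENNReal

noncomputable section

namespace Pool.Agent.Lib.MP_0d9445_pr.Tip

open Walk Cell AS

namespace ShiftAux

/-- `N'` is the translate of `N` by `-b` -/
structure Sh (b : ℂ) (N N' : FC) : Prop where
  V : ∀ x, x ∈ N'.V ↔ x + b ∈ N.V
  H : ∀ x w, w ∈ N'.H x ↔ w + b ∈ N.H (x + b)

variable {b : ℂ} {N N' : FC}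

theorem ne_iff {A A' B B' : Set ℂ} (hA : ∀ w, w ∈ A' ↔ w + b ∈ A) (hB : ∀ w, w ∈ B' ↔ w + b ∈ B) :
    (A' ∩ B').Nonempty ↔ (A ∩ B).Nonempty := by
  constructor
  · rintro ⟨w, h1, h2⟩
    exact ⟨w + b, (hA w).1 h1, (hB w).1 h2⟩
  · rintro ⟨w, h1, h2⟩
    exact ⟨w - b, (hA _).2 (by rwa [sub_add_cancel]), (hB _).2 (by rwa [sub_add_cancel])⟩

theorem sum_eq {s s' : Finset ℂ} (h : ∀ x, x ∈ s' ↔ x + b ∈ s) {f f' : ℂ → ℝ}
    (hf : ∀ x ∈ s', f' x = f (x + b)) : ∑ x ∈ s', f' x = ∑ x ∈ s, f x :=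
  Finset.sum_equiv (Equiv.addRight b) h hf

theorem meet_eq {D D' : Cells} (hV : ∀ x, x ∈ D'.V ↔ x + b ∈ D.V)
    (hH : ∀ x w, w ∈ D'.H x ↔ w + b ∈ D.H (x + b)) (K : Set ℂ) :
    {x | x ∈ D'.V ∧ (D'.H x ∩ (fun w => w + b) ⁻¹' K).Nonempty} =
      (fun w => w + b) ⁻¹' {x | x ∈ D.V ∧ (D.H x ∩ K).Nonempty} := by
  ext x
  exact and_congr (hV x) (ne_iff (hH x) fun _ => Iff.rfl)

theorem fin_iff {D D' : Cells} (hV : ∀ x, x ∈ D'.V ↔ x + b ∈ D.V)
    (hH : ∀ x w, w ∈ D'.H x ↔ w + b ∈ D.H (x + b)) (K : Set ℂ) :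
    {x | x ∈ D'.V ∧ (D'.H x ∩ (fun w => w + b) ⁻¹' K).Nonempty}.Finite ↔
      {x | x ∈ D.V ∧ (D.H x ∩ K).Nonempty}.Finite := by
  rw [meet_eq hV hH]
  exact ⟨fun h => h.of_preimage (add_right_surjective b),
    fun h => h.preimage (add_left_injective b).injOn⟩

theorem sh_toFC {D D' : Cells} (hV : ∀ x, x ∈ D'.V ↔ x + b ∈ D.V)
    (hH : ∀ x w, w ∈ D'.H x ↔ w + b ∈ D.H (x + b)) (K : Set ℂ) :
    Sh b (D.toFC K) (D'.toFC ((fun w => w + b) ⁻¹' K)) where
  V x := by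
    by_cases hf : {x | x ∈ D.V ∧ (D.H x ∩ K).Nonempty}.Finite
    · have hf' := (fin_iff hV hH K).2 hf
      simp only [Cells.toFC, dif_pos hf, dif_pos hf', Finite.mem_toFinset]
      rw [meet_eq hV hH]
      rfl
    · have hf' := fun h => hf ((fin_iff hV hH K).1 h)
      simp only [Cells.toFC, dif_neg hf, dif_neg hf', Finset.notMem_empty]
  H := hH

theorem Sh.nb (h : Sh b N N') (x y : ℂ) : y ∈ N'.G.N x ↔ y + b ∈ N.G.N (x + b) := by
  rw [FC.mem_N, FC.mem_N, h.V, h.V, ne_iff (h.H x) (h.H y), (add_left_injective b).ne_iff]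

theorem Sh.deg (h : Sh b N N') (x : ℂ) : N'.G.deg x = N.G.deg (x + b) := by
  unfold Net.deg
  rw [Finset.card_equiv (Equiv.addRight b) (h.nb x)]

theorem Sh.H_eq (h : Sh b N N') (x : ℂ) : N'.H x = (fun w => w + b) ⁻¹' N.H (x + b) :=
  Set.ext (h.H x)

theorem Sh.diam (h : Sh b N N') (x : ℂ) : Metric.diam (N'.H x) = Metric.diam (N.H (x + b)) := by
  rw [h.H_eq]
  exact (IsometryEquiv.addRight b).diam_preimage _

theorem Sh.nice (h : Sh b N N') {K : Set ℂ} {ε : ℝ} (hn : N'.Nice ((fun w => w + b) ⁻¹' K) ε) :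
    N.Nice K ε := by
  have hv : ∀ x ∈ N.V, x - b ∈ N'.V := fun x hx => (h.V _).2 (by rwa [sub_add_cancel])
  have he : ∀ x, N'.H (x - b) = (fun w => w + b) ⁻¹' N.H x := fun x => by
    rw [h.H_eq, sub_add_cancel]
  refine ⟨fun x hx => ?_, fun x hx => ?_, fun x hx => ?_, fun x hx => ?_, fun w hw => ?_⟩
  · have := hn.cpt _ (hv x hx)
    rw [he] at this
    exact (Homeomorph.addRight b).isCompact_preimage.1 this
  · have := hn.conn _ (hv x hx)
    rw [he] at this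
    exact (Homeomorph.addRight b).isPreconnected_preimage.1 this
  · have := hn.mem _ (hv x hx)
    rw [he, mem_preimage, sub_add_cancel] at this
    exact this
  · have := hn.diam _ (hv x hx)
    rwa [h.diam, sub_add_cancel] at this
  · obtain ⟨x, hx, hw'⟩ := hn.cover (w - b) (by rwa [mem_preimage, sub_add_cancel])
    refine ⟨x + b, (h.V x).1 hx, ?_⟩
    have := (h.H x _).1 hw'
    rwa [sub_add_cancel] at this

theorem Sh.pts (h : Sh b N N') (S : Set ℂ) (x : ℂ) :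
    x ∈ N'.pts ((fun w => w + b) ⁻¹' S) ↔ x + b ∈ N.pts S := by
  rw [FC.mem_pts, FC.mem_pts, h.V, mem_preimage]

theorem Sh.en (h : Sh b N N') (S : Set ℂ) {u : ℂ → ℝ}
    (hu : ∀ x y, u x - u y = u (x + b) - u (y + b)) :
    N'.G.en (N'.pts ((fun w => w + b) ⁻¹' S)) u u = N.G.en (N.pts S) u u := by
  unfold Net.en
  congr 1
  exact sum_eq (h.pts S) fun x _ => sum_eq (h.nb x) fun y _ => by rw [hu]

theorem Sh.X (h : Sh b N N') (S : Set ℂ) : N'.X ((fun w => w + b) ⁻¹' S) = N.X S := by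
  unfold FC.X
  rw [h.en S fun x y => by simp, h.en S fun x y => by simp]

theorem Sh.Y (h : Sh b N N') (S : Set ℂ) : N'.Y ((fun w => w + b) ⁻¹' S) = N.Y S :=
  sum_eq (h.pts S) fun x _ => by rw [h.diam]

theorem Sh.inside (h : Sh b N N') (S : Set ℂ) (x : ℂ) :
    x ∈ N'.inside ((fun w => w + b) ⁻¹' S) ↔ x + b ∈ N.inside S := by
  rw [mem_ins, mem_ins, h.V, h.H_eq, preimage_subset_preimage_iff]
  rw [(add_right_surjective b).range_eq]
  exact subset_univ _

theorem Sh.sol (h : Sh b N N') {S : Set ℂ} {m : ℝ} {u : ℂ → ℝ}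
    (hu : N.G.Sol (N.inside S) 0 (fun x => N.G.deg x / m) 0 u) :
    N'.G.Sol (N'.inside ((fun w => w + b) ⁻¹' S)) 0 (fun x => N'.G.deg x / m) 0
      fun x => u (x + b) := by
  refine ⟨fun x hx => hu.1 _ fun k => hx ((h.inside S x).2 k), fun x hx => ?_⟩
  have := hu.2 _ ((h.inside S x).1 hx)
  simp only [Pi.zero_apply, zero_mul, add_zero] at this ⊢
  rw [h.deg, ← this]
  exact sum_eq (h.nb x) fun _ _ => rfl

theorem sn_add (c w b : ℂ) : sn (c - b) w = sn c (w + b) := by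
  unfold sn
  simp only [Complex.sub_re, Complex.sub_im, Complex.add_re, Complex.add_im]
  congr 2 <;> ring

theorem sqC_eq (c b : ℂ) (r : ℝ) : sqC (c - b) r = (fun w => w + b) ⁻¹' sqC c r := by
  ext w
  simp only [sqC, mem_ofPred_eq, mem_preimage, sn_add]

theorem sqO_eq (c b : ℂ) (r : ℝ) : sqO (c - b) r = (fun w => w + b) ⁻¹' sqO c r := by
  ext w
  simp only [sqO, mem_ofPred_eq, mem_preimage, sn_add]

theorem map_pre (μ : Measure ℂ) (b : ℂ) {S : Set ℂ} (hS : MeasurableSet S) :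
    (μ.map fun w => w - b) ((fun w => w + b) ⁻¹' S) = μ S := by
  rw [Measure.map_apply (measurable_sub_const b) (measurable_add_const b hS)]
  congr 1
  ext w
  simp

end ShiftAux

open ShiftAux

variable {O : Set ℂ} {μ : Measure ℂ} {C C' : ℕ → Cells} {M : ℕ → ℝ}

theorem Pre.shift (b : ℂ) (hV : ∀ n x, x ∈ (C' n).V ↔ x + b ∈ (C n).V)
    (hH : ∀ n x w, w ∈ (C' n).H x ↔ w + b ∈ (C n).H (x + b))
    (h : Pre O (μ.map fun w => w - b) C' M) : Pre ((fun w => w - b) ⁻¹' O) μ C M := by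
  have hc : ∀ K : Set ℂ, IsCompact K → IsCompact ((fun w => w + b) ⁻¹' K) := fun K hK =>
    (Homeomorph.addRight b).isCompact_preimage.2 hK
  have ho : ∀ K : Set ℂ, K ⊆ (fun w => w - b) ⁻¹' O → (fun w => w + b) ⁻¹' K ⊆ O :=
    fun K hK w hw => by simpa using hK hw
  have hs : ∀ n K, Sh b ((C n).toFC K) ((C' n).toFC ((fun w => w + b) ⁻¹' K)) := fun n K =>
    sh_toFC (hV n) (hH n) K
  refine ⟨fun K hK hO ε hε => ?_, fun K hK hO => ?_, fun K hK hO φ h1 h2 => ?_,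
    fun K hK hO => ?_, fun K hK hO ε hε => ?_⟩
  · filter_upwards [h.nice _ (hc K hK) (ho K hO) ε hε] with n hn
    exact ⟨(fin_iff (hV n) (hH n) K).1 hn.1, (hs n K).nice hn.2⟩
  · obtain ⟨Cst, k⟩ := h.xy _ (hc K hK) (ho K hO)
    refine ⟨Cst, fun c r hr hsub => ?_⟩
    filter_upwards [k (c - b) r hr (by rw [sqC_eq]; exact preimage_mono hsub)] with n hn
    rwa [sqC_eq, (hs n K).X, (hs n K).Y] at hn
  · have h3 : Continuous fun w => φ (w + b) := h1.comp (continuous_add_const b)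
    have h4 : tsupport (fun w => φ (w + b)) ⊆ interior ((fun w => w + b) ⁻¹' K) := by
      have e1 : tsupport (fun w => φ (w + b)) = (fun w => w + b) ⁻¹' tsupport φ :=
        ((Homeomorph.addRight b).preimage_closure (Function.support φ)).symm
      have e2 : interior ((fun w => w + b) ⁻¹' K) = (fun w => w + b) ⁻¹' interior K :=
        ((Homeomorph.addRight b).preimage_interior K).symm
      rw [e1, e2]
      exact preimage_mono h2
    have h5 := h.mass _ (hc K hK) (ho K hO) _ h3 h4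
    rw [integral_map (measurable_sub_const b).aemeasurable h3.aestronglyMeasurable] at h5
    simp only [sub_add_cancel] at h5
    refine h5.congr fun n => ?_
    congr 1
    exact sum_eq (hs n K).V fun x _ => by rw [(hs n K).deg]
  · obtain ⟨h1, Cst, α, r₀, h2, h3, k⟩ := h.frost _ (hc K hK) (ho K hO)
    rw [map_pre μ b hK.measurableSet] at h1
    refine ⟨h1, Cst, α, r₀, h2, h3, fun x hx r hr hr' => ?_⟩
    have h4 := k (x - b) (by rwa [mem_preimage, sub_add_cancel]) r hr hr'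
    have e : Metric.ball (x - b) r ∩ (fun w => w + b) ⁻¹' K =
        (fun w => w + b) ⁻¹' (Metric.ball x r ∩ K) := by
      rw [preimage_inter]
      congr 1
      ext w
      simp only [Metric.mem_ball, mem_preimage, dist_eq_norm]
      rw [show w - (x - b) = w + b - x by ring]
    rwa [e, map_pre μ b (Metric.isOpen_ball.measurableSet.inter hK.measurableSet)] at h4
  · obtain ⟨δ, hδ, k⟩ := h.green _ (hc K hK) (ho K hO) ε hε
    refine ⟨δ, hδ, fun r h1 h2 => ?_⟩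
    filter_upwards [k r h1 h2] with n hn c u hsub hu x
    have h3 := hn (c - b) (fun x => u (x + b)) (by rw [sqC_eq]; exact preimage_mono hsub)
      (by rw [sqO_eq]; exact (hs n K).sol hu) (x - b)
    simpa only [sub_add_cancel] using h3

end Pool.Agent.Lib.MP_0d9445_pr.Tip
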