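import Pool.Agent.Lib.MP_0d9445_pr.Tip.XDefs
import Pool.Agent.Lib.MP_0d9445_pr.CM.Pot
import Pool.Agent.Lib.MP_0d9445_pr.Su.Sphere

/-! The quantum sphere near its marked points. -/

open MeasureTheory ProbabilityTheory Set Filter Topology Real LQ.Met
open scoped NNReal ENNReal

noncomputable section

namespace Pool.Agent.Lib.MP_0d9445_pr.Tip

open CR (osq csq)
open Su (IsGFF0 pot CMpot)
open EN (nrm)

variable {Ω : Type} [MeasurableSpace Ω] {P : Measure Ω} {h : Ω → Field} {f : Ω → ℂ → ℝ}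
  {ν : Measure Field} {γ Q : ℝ}

namespace SphereXAux

open Su Mu

theorem avg_L_pos (t : ℝ) : 0 < avg (fun y => log (max ‖y‖ 1)) (t, -1) := by
  unfold avg circleAverage
  rw [smul_eq_mul]
  have := pi_pos
  refine mul_pos (by positivity) (intervalIntegral.integral_pos (by positivity)
    (continuous_L.comp (continuous_circleMap _ _)).continuousOn
    (fun θ _ => log_nonneg (le_max_right _ _)) ⟨π, ⟨by linarith, by linarith⟩, log_pos ?_⟩)
  refine lt_max_of_lt_left ?_
  have e : circleMap (-1) (exp (-t)) π = -((1 + exp (-t) : ℝ) : ℂ) := by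
    simp [circleMap]; ring
  have := exp_pos (-t)
  rw [e, norm_neg, Complex.norm_real, Real.norm_eq_abs, abs_of_pos (by linarith)]
  linarith

theorem avg_L_le (t : ℝ) : avg (fun y => log (max ‖y‖ 1)) (t, -1) ≤ exp (-t) := by
  refine avg_le continuous_L fun z hz => ?_
  have h1 : ‖z‖ ≤ 1 + exp (-t) := by
    simpa using norm_le_norm_add_const_of_dist_le (Metric.mem_closedBall.1 hz)
  have := exp_pos (-t)
  have h4 := log_le_sub_one_of_pos (lt_max_of_lt_right one_pos : 0 < max ‖z‖ 1)
  have h5 : max ‖z‖ 1 ≤ 1 + exp (-t) := max_le h1 (by linarith)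
  linarith

/-- A Cameron-Martin direction that is a nonzero constant away from `-1` and larger near `-1`. -/
theorem exists_dir (cm : CMpot ν) (t : ℝ) :
    ∃ (g : Fn) (k : ℝ), QI ν g ∧ k ≠ 0 ∧ (∀ x, k ≤ g x) ∧
      (∀ x, exp (-t) ≤ ‖x - -1‖ → g x = k) ∧ k < g (-1) := by
  set c : ℝ → ℝ := fun t => avg (fun y => log (max ‖y‖ 1)) (t, -1) with hc
  have hc0 : 0 < c t := avg_L_pos t
  set t' := max (t + 1) (1 - log (c t)) with ht'
  have h1 : exp (-t') < exp (-t) := exp_lt_exp.2 (by linarith [le_max_left (t + 1) (1 - log (c t))])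
  have h2 : c t' < c t := by
    refine (avg_L_le t').trans_lt ?_
    rw [← exp_log hc0]
    exact exp_lt_exp.2 (by linarith [le_max_right (t + 1) (1 - log (c t))])
  have e : ∀ x, (pot (t', -1) - pot (t, -1)) x = c t' - c t +
      (log (max ‖x - -1‖ (exp (-t))) - log (max ‖x - -1‖ (exp (-t')))) := by
    intro x; simp only [ContinuousMap.sub_apply, pot_apply, hc]; ring
  refine ⟨pot (t', -1) - pot (t, -1), c t' - c t, (cm.qi _).sub (cm.qi _),
    (sub_neg.2 h2).ne, fun x => ?_, fun x hx => ?_, ?_⟩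
  · rw [e, le_add_iff_nonneg_right, sub_nonneg]
    exact log_le_log (lt_max_of_lt_right (exp_pos _)) (max_le_max le_rfl h1.le)
  · rw [e, max_eq_left hx, max_eq_left (h1.le.trans hx), sub_self, add_zero]
  · rw [e, lt_add_iff_pos_right, sub_pos, sub_self, norm_zero, max_eq_right (exp_pos _).le,
      max_eq_right (exp_pos _).le]
    exact log_lt_log (exp_pos _) h1

/-- the field plus a Cameron-Martin direction, normalised by a weighted area -/
theorem null_norm (hγ : 0 < γ) {μ : Field → Measure ℂ} (hμ : IsLQGMeasure γ μ) (hν : IsGFF0 ν)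
    (pos : ∀ᵐ H ∂ν, (μ H).IsOpenPosMeasure) {w : ℂ → ℝ} (hw : Measurable w) {s : Fn} (hs : QI ν s)
    (C : ℝ) {V : Set ℂ} {t : ℝ} (hV : ∀ x ∈ V, exp (-t) ≤ ‖x - -1‖) {F : Field → Fn}
    (hFm : Measurable F)
    (hF : ∀ H, F H = s + cst (C - log (∫⁻ z, ENNReal.ofReal (exp (w z)) ∂μ H).toReal / γ))
    {B : Set Field} (hB : MeasurableSet[sigmaOn id V] B) (hB0 : ref ν B = 0) :
    ν {H | addFn H (F H) ∈ B} = 0 := by
  have := hν.prob
  obtain ⟨g, k, hg, hk, hkg, hgk, hgr⟩ := exists_dir (CM.cmPot hν) t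
  have hw : Measurable fun z => ENNReal.ofReal (exp (w z)) := hw.exp.ennreal_ofReal
  have hBm : MeasurableSet B := sigmaOn_le measurable_id V B hB
  refine null_of_line (T := fun u H => addFn H (u • g))
    (Su.measurable_addFn measurable_fst ((measurable_smul_fn g).comp measurable_snd)) hg.ac
    (Su.measurable_addFn measurable_id hFm hBm) ?_
  filter_upwards [hs.ae (ae_null_of_ref hBm hB0), pos, ae_weyl_line hμ hν.1 g] with H hN hpos hW
  set N : Set ℝ := {a | addFn (addFn H s) (cst a) ∈ B} with hNdef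
  set m : Measure ℂ := (μ H).withDensity fun z => ENNReal.ofReal (exp (w z)) with hm
  set φ : ℝ → ℝ≥0∞ := fun u => ∫⁻ z, ENNReal.ofReal (exp (u * (γ * (g z - k)))) ∂m with hφ
  have hgm : Measurable fun z => γ * (g z - k) := by fun_prop
  have hm0 : m {z | 0 < γ * (g z - k)} ≠ 0 := fun h' =>
    (isOpen_lt (g := fun z => γ * (g z - k)) continuous_const (by fun_prop)).measure_ne_zero (μ H)
      ⟨-1, mul_pos hγ (sub_pos.2 hgr)⟩ (withDensity_absolutelyContinuous' hw.aemeasurable
        (.of_forall fun z => by simp [exp_pos]) h')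
  have n1 := null_lap hgm (fun z => mul_nonneg hγ.le (sub_nonneg.2 (hkg z))) hm0 (C := C) hγ.ne' hN
  have n2 : volume {u : ℝ | u * k + C ∈ N} = 0 := by
    have e : {u : ℝ | u * k + C ∈ N} = (fun u => u * k) ⁻¹' ((fun a => a + C) ⁻¹' N) := rfl
    rw [e, Real.volume_preimage_mul_right hk, measure_preimage_add_right, hN, mul_zero]
  refine measure_mono_null (fun u hu => or_iff_not_imp_left.2 fun hWu => ?_)
    (measure_union_null (ae_iff.1 hW) (measure_union_null n1 n2))
  have e1 : ∫⁻ z, ENNReal.ofReal (exp (w z)) ∂μ (addFn H (u • g)) =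
      ENNReal.ofReal (exp (γ * (u * k))) * φ u := by
    simp only [hφ, hm]
    rw [not_not.1 hWu, lintegral_withDensity_eq_lintegral_mul _ (by fun_prop) hw,
      lintegral_withDensity_eq_lintegral_mul _ hw (by fun_prop),
      ← lintegral_const_mul _ (hw.mul (by fun_prop))]
    refine lintegral_congr fun z => ?_
    simp only [Pi.mul_apply]
    rw [← ENNReal.ofReal_mul (exp_pos _).le, ← ENNReal.ofReal_mul (exp_pos _).le,
      ← ENNReal.ofReal_mul (exp_pos _).le, ← exp_add, ← exp_add, ← exp_add]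
    congr 2; ring
  have e2 : u * k + (C - log (ENNReal.ofReal (exp (γ * (u * k))) * φ u).toReal / γ) ∈ N := by
    have hu' : addFn (addFn H (u • g)) (F (addFn H (u • g))) ∈ B := hu
    rw [addFn_addFn, hF, e1] at hu'
    simp only [hNdef, mem_ofPred_eq, addFn_addFn]
    refine (mem_addFn_congr hB H fun x hx => ?_).1 hu'
    simp only [ContinuousMap.add_apply, ContinuousMap.smul_apply, ContinuousMap.const_apply,
      smul_eq_mul, hgk x (hV x hx)]
    ring
  by_cases hfin : φ u = ∞
  · refine Or.inr ?_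
    rw [hfin, ENNReal.mul_top (by simp [exp_pos])] at e2
    simpa using e2
  · refine Or.inl ⟨hfin, ?_⟩
    have hφ0 : φ u ≠ 0 := by
      intro h'
      rw [hφ, lintegral_eq_zero_iff (by fun_prop)] at h'
      exact hm0 (measure_mono_null (fun x _ => by simp [exp_pos]) (ae_iff.1 h'))
    rw [ENNReal.toReal_mul, ENNReal.toReal_ofReal (exp_pos _).le,
      log_mul (exp_pos _).ne' (ENNReal.toReal_pos hφ0 hfin).ne', log_exp] at e2
    have e3 : u * k + (C - (γ * (u * k) + log (φ u).toReal) / γ) = C - log (φ u).toReal / γ := by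
      field_simp; ring
    rwa [e3] at e2

end SphereXAux

theorem sphere_tipX (hγ : 0 < γ) {μ : Field → Measure ℂ} (hμ : IsLQGMeasure γ μ) (hν : IsGFF0 ν)
    (pos : ∀ᵐ H ∂ν, (μ H).IsOpenPosMeasure) (hS : IsSphere γ Q μ P h f) {p : ℂ}
    (hp : p = 0 ∨ p = 1) : TipX γ ν P h f p := by
  obtain ⟨hh, ⟨ν', c, hν', hν0, hP⟩, hf⟩ := hS
  obtain rfl := CM.gff0_unique hν ⟨hν', hν0⟩
  have hac : P.map h ≪ ν := hP ▸ withDensity_absolutelyContinuous _ _
  have cm := CM.cmPot hν
  have h4 : exp (-log 4) = 1 / 4 := by rw [exp_neg, exp_log four_pos, one_div]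
  have hw : Measurable fun z => γ * sphereFn γ Q z := by unfold sphereFn; fun_prop
  set s := γ • pot (log 4, 1 - p) + (2 * γ - 2 * Q) • pot (-log 4, 0) with hs
  set C := -(γ * avg (fun y => log (max ‖y‖ 1)) (log 4, 1 - p) +
    (2 * γ - 2 * Q) * (avg (fun y => log (max ‖y‖ 1)) (-log 4, 0) - log 4)) with hC
  set F : Field → Fn := fun H => s + cst (C -
    log (∫⁻ z, ENNReal.ofReal (exp (γ * sphereFn γ Q z)) ∂μ H).toReal / γ) with hF
  have hFm : Measurable F := by
    have : Continuous fun a : ℝ => s + cst a := continuous_const.add ContinuousMap.continuous_const'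
    exact this.measurable.comp (measurable_const.sub ((((Measure.measurable_lintegral
      hw.exp.ennreal_ofReal).comp hμ.meas).ennreal_toReal.log).div_const γ))
  have tri : ∀ x a : ℂ, ‖x - p‖ < 3 / 4 → 1 ≤ ‖p - a‖ → 1 / 4 ≤ ‖x - a‖ := fun x a h1 h2 => by
    have := norm_sub_le_norm_sub_add_norm_sub p x a
    rw [norm_sub_rev p x] at this
    linarith
  refine ⟨hh, hac, fun ω => addFn (h ω) (F (h ω)), fun _ ω => F (h ω),
    ⟨h, fun ω => F (h ω), hh, hFm.comp hh, hac, fun _ => rfl⟩, fun _ => hFm.comp hh,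
    fun B hB hB0 => ?_, .of_forall fun ω => ⟨fun _ _ _ => rfl, fun k x _ hx => ?_⟩⟩
  · refine (Measure.map_apply hh (Su.measurable_addFn measurable_id hFm
      (Mu.sigmaOn_le measurable_id _ B hB))).symm.trans (hac (SphereXAux.null_norm hγ hμ hν pos hw
        (((cm.qi _).smul _).add ((cm.qi _).smul _)) C (t := log 4) (fun x hx => ?_) hFm
        (fun _ => rfl) hB hB0))
    rw [h4]
    exact tri x _ (mem_ball_iff_norm.1 hx) (by rcases hp with rfl | rfl <;> norm_num)
  · have h1 := tri x (1 - p) hx (by rcases hp with rfl | rfl <;> norm_num)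
    have h2 : ‖x‖ ≤ 4 := by
      have := norm_le_norm_add_norm_sub' x p
      have : ‖p‖ ≤ 1 := by rcases hp with rfl | rfl <;> norm_num
      linarith
    simp only [hf, hF, hs, hC, ContinuousMap.add_apply, ContinuousMap.smul_apply, Su.pot_apply,
      ContinuousMap.const_apply, smul_eq_mul, h4, neg_neg, exp_log four_pos, sub_zero,
      max_eq_left h1, max_eq_right h2, sphereFn]
    rcases hp with rfl | rfl
    · simp only [sub_zero]; ring
    · simp only [sub_self, sub_zero]; ring

end Pool.Agent.Lib.MP_0d9445_pr.Tip
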