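import Pool.Agent.Lib.MP_0d9445_pr.Tip.Fac
import Pool.Agent.Lib.MP_0d9445_pr.Tip.Cox
import Pool.Agent.Lib.MP_0d9445_pr.AS.Defs
import Pool.Agent.Lib.MP_0d9445_pr.Met.Loc

/-! The surface seen from the random origin is a surface of the assembly. -/

open MeasureTheory ProbabilityTheory Set Filter Topology Real LQ.Met
open scoped NNReal ENNReal

noncomputable section

namespace Pool.Agent.Lib.MP_0d9445_pr.Tip

open CR (osq csq)
open Su (IsGFF0 pot CMpot)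
open EN (nrm)

namespace SurfAux

theorem isCox_congr {Ω G α : Type} [MeasurableSpace Ω] [MeasurableSpace G] [MeasurableSpace α]
    {P : Measure Ω} {h h' : Ω → G} {m : G → Measure α} {Y : Ω → Set α}
    (H : PPP.IsCox P h m Y) (e : ∀ᵐ ω ∂P, h' ω = h ω) : PPP.IsCox P h' m Y := fun F hF => by
  obtain ⟨a, b⟩ := H F hF
  have e1 : (fun ω => F (h ω) (Y ω)) =ᵐ[P] fun ω => F (h' ω) (Y ω) :=
    e.mono fun ω hω => by simp only [hω]
  refine ⟨a.congr e1, ?_⟩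
  rw [← lintegral_congr_ae e1, b]
  exact lintegral_congr_ae (e.mono fun ω hω => by simp only [hω])

theorem close_congr {ξ γ k : ℝ} {c c' c₂ : Cf} {W : Sq} (h : Close ξ γ k W c c₂)
    (e : ∀ w : Sq, w.o ⊆ W.o → loc w c' = loc w c) : Close ξ γ k W c' c₂ := by
  obtain ⟨⟨κ, hκ, h1⟩, h2⟩ := h
  have e2 : c'.2.restrict W.o = c.2.restrict W.o := congrArg Prod.snd (e W subset_rfl)
  refine ⟨⟨κ, hκ, fun w hw p => ?_⟩, by rwa [e2]⟩
  have e1 : T w c'.1 = T w c.1 := congrArg Prod.fst (e w hw)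
  rw [e1]
  exact h1 w hw p

theorem exists_csq {O : Set ℂ} (hO : IsOpen O) {z : ℂ} (hz : z ∈ O) :
    ∃ r, 0 < r ∧ csq z r ⊆ O := by
  obtain ⟨ε, hε, h⟩ := Metric.isOpen_iff.1 hO z hz
  refine ⟨ε / 3, by positivity, fun y hy => h ?_⟩
  rw [mem_ball_iff_norm]
  have := Complex.norm_le_abs_re_add_abs_im (y - z)
  rw [Complex.sub_re, Complex.sub_im] at this
  linarith [hy.1, hy.2]

end SurfAux

open SurfAux

variable {Ω : Type} [MeasurableSpace Ω] {P : Measure Ω} [IsProbabilityMeasure P]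
  {ν : Measure Field}

theorem tip_surf (M : Model) (hν : IsGFF0 ν) {d : Ω → Met} {m : Ω → Measure ℂ}
    {Y : ℝ≥0 → Ω → Set ℂ} (hd : Measurable d) (hm : Measurable m)
    (hg : ∀ᵐ ω ∂P, IsGood (d ω, m ω)) (hfin : ∀ᵐ ω ∂P, IsLocallyFiniteMeasure (m ω))
    (hat : ∀ᵐ ω ∂P, ∀ z, m ω {z} = 0) (hY : ∀ l, IsPPP P d m l (Y l)) {p : ℂ}
    {X : Ω × ℂ → Field} (hX : Plus ν (P.prod U0) X) (hF : FAC ν (P.prod U0) X Wt.o)
    (he : ∀ᵐ x ∂P.prod U0, ∀ w : Sq, w.o ⊆ Wt.o →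
      loc w (seenC p (fun ω => (d ω, m ω)) x) = loc w (M.conf (X x))) :
    ∃ s : Ω × ℂ → Cf, (∀ᵐ x ∂P.prod U0, s x = seenC p (fun ω => (d ω, m ω)) x) ∧
      AS.Surf M (P.prod U0) univ Wt.o ∅ s fun l => seenY p (Y l) := by
  have hA := aemeasurable_pull_prod (P := P) (c := fun ω => (d ω, m ω)) (hd.prodMk hm) hfin p
  have e : ∀ᵐ x ∂P.prod U0, hA.mk _ x = seenC p (fun ω => (d ω, m ω)) x := hA.ae_eq_mk.symm
  have hl : ∀ᵐ x ∂P.prod U0, ∀ w : Sq, w.o ⊆ Wt.o →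
      loc w (hA.mk _ x) = loc w (M.conf (X x)) := by
    filter_upwards [e, he] with x h1 h2 w hw
    rw [h1, h2 w hw]
  refine ⟨hA.mk _, e, inferInstance, hA.measurable_mk, isClosed_univ, isOpen_osq _ _,
    subset_univ _, isClosed_empty, measure_empty, ?_, fun l => by simp, fun l W hW => ?_,
    fun W hW => ?_, fun z hz => ?_⟩
  · filter_upwards [e, Measure.quasiMeasurePreserving_fst.ae hg] with x h1 h2
    have h3 := EN.IsGood.pull (b := p - x.2) one_ne_zero h2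
    rw [h1]
    exact nearGeo h3.1 h3.2
  · exact isCox_congr (isCox_tr (hY l) hd hm p hfin hat ((osq_subset_csq _ _).trans hW)) e
  · obtain ⟨c, h1, h2, h3⟩ := hX.close M hν
    refine ⟨c, h1, h2, ?_⟩
    filter_upwards [h3, hl] with x a1 a2
    exact (a1 W).imp fun k hk => close_congr hk fun w hw =>
      a2 w (hw.trans ((osq_subset_csq _ _).trans hW))
  · obtain ⟨r, hr, h1⟩ := exists_csq (isOpen_osq _ _) hz.1
    exact ⟨(z, r), ⟨by simpa using hr, by simpa using hr⟩, h1,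
      ((hX.ldom M hν hF).congr hl).mono ((osq_subset_csq _ _).trans h1)⟩

end Pool.Agent.Lib.MP_0d9445_pr.Tip
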