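import Pool.Agent.Lib.MP_0d9445_pr.Tip.Defs
import Pool.Agent.Lib.MP_0d9445_pr.EN.Field
import Pool.Agent.Lib.MP_0d9445_pr.CR.Wt

/-! Moments of the approximations of the measure for the normalised GFF. -/

open MeasureTheory ProbabilityTheory Set Filter Topology Real LQ.Met
open scoped NNReal ENNReal

noncomputable section

namespace Pool.Agent.Lib.MP_0d9445_pr.Tip

open CR (osq csq)
open Su (IsGFF0 pot CMpot)
open EN (nrm)

namespace UIAux

theorem abs_avg_le {g : Fn} (h0 : g 0 = 0) {L : ℝ≥0} (hL : CR.lip g (Metric.ball 0 2) ≤ L)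
    {p : ℝ × ℂ} (h1 : 0 ≤ p.1) (h2 : ‖p.2‖ ≤ 1 / 8) : |avg g p| ≤ 2 * L := by
  have key : ∀ x ∈ Metric.closedBall p.2 (exp (-p.1)), |g x| ≤ 2 * L := by
    intro x hx
    have h3 : exp (-p.1) ≤ 1 := exp_le_one_iff.2 (by linarith)
    have h4 : dist x 0 < 2 := by
      have h5 := dist_triangle x p.2 0
      rw [dist_zero_right p.2] at h5
      have h6 : dist x p.2 ≤ exp (-p.1) := hx
      linarith
    have h := (CR.lipschitzOnWith_of_lip_le hL).dist_le_mul x h4 0 (Metric.mem_ball_self two_pos)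
    rw [h0, Real.dist_eq, sub_zero] at h
    nlinarith [L.coe_nonneg]
  exact abs_le.2 ⟨Mu.le_avg g.continuous fun x hx => (abs_le.1 (key x hx)).1,
    Mu.avg_le g.continuous fun x hx => (abs_le.1 (key x hx)).2⟩

/-- the dominating factor -/
def Y (M : Model) (ω : M.Ω) : ℝ≥0∞ :=
  ENNReal.ofReal (exp (-M.γ * M.H 0 ω 0)) *
    CR.ex (ENNReal.ofReal (4 * M.γ) * CR.lip (M.ginf ω) (Metric.ball 0 2))

theorem den_le (M : Model) (ω : M.Ω) (k : ℕ) {z : ℂ} (hz : z ∈ V0) :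
    ENNReal.ofReal (Mu.den M.γ (M.hat ω) k z) ≤
      Y M ω * ENNReal.ofReal (Mu.den M.γ (M.H 0 ω) k z) := by
  have hγ := M.γ_pos
  rcases eq_or_ne (CR.lip (M.ginf ω) (Metric.ball 0 2)) ∞ with hL | hL
  · rw [Y, hL, ENNReal.mul_top (by simpa using hγ), CR.Wt_ex_top,
      ENNReal.mul_top (by simpa using exp_pos _),
      ENNReal.top_mul (by simpa using Mu.den_pos _ _ _ _)]
    exact le_top
  · obtain ⟨L, hL'⟩ : ∃ L : ℝ≥0, (L : ℝ≥0∞) = CR.lip (M.ginf ω) (Metric.ball 0 2) :=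
      ⟨_, ENNReal.coe_toNNReal hL⟩
    have h1 := abs_le.1 (abs_avg_le (M.ginf_zero ω) hL'.ge (p := ((k : ℝ) * log 2, z))
      (mul_nonneg (Nat.cast_nonneg k) (log_nonneg one_le_two)) (norm_le_of_mem_V0 hz))
    have h2 := abs_le.1 (abs_avg_le (M.ginf_zero ω) hL'.ge (p := 0) le_rfl (by simp))
    have h3 : ∀ c q, avg (cst c) q = c := fun c q => circleAverage_const c _ _
    rw [Y, ← hL', ← ENNReal.ofReal_coe_nnreal, ← ENNReal.ofReal_mul (by positivity),
      CR.ex_ofReal (by positivity), ← ENNReal.ofReal_mul (exp_pos _).le,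
      ← ENNReal.ofReal_mul (by positivity), Model.hat, Mu.den_addFn, Mu.den_addFn, h3,
      Mu.addFn_apply, ← mul_assoc, ← exp_add, ← exp_add]
    refine ENNReal.ofReal_le_ofReal (mul_le_mul_of_nonneg_right (exp_le_exp.2 ?_)
      (Mu.den_nonneg _ _ _ _))
    nlinarith [h1.2, h2.1]

theorem mul_rpow_le (a b : ℝ≥0∞) {q : ℝ} (hq : 0 < q) :
    (a * b) ^ q ≤ a ^ (2 * q) + b ^ (2 * q) := by
  have h : ∀ c : ℝ≥0∞, (c * c) ^ q = c ^ (2 * q) := fun c => by
    rw [ENNReal.rpow_mul, ENNReal.rpow_two, sq]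
  rcases le_total a b with hab | hab
  · calc (a * b) ^ q ≤ (b * b) ^ q := by gcongr
      _ = b ^ (2 * q) := h b
      _ ≤ _ := le_add_self
  · calc (a * b) ^ q ≤ (a * a) ^ q := by gcongr
      _ = a ^ (2 * q) := h a
      _ ≤ _ := le_self_add

theorem gauss_exp (M : Model) (t : ℝ) :
    ∫⁻ ω, ENNReal.ofReal (exp (t * M.H 0 ω 0)) ∂M.P < ∞ := by
  have hG : HasGaussianLaw (fun ω => M.H 0 ω 0) M.P :=
    M.gproc.hasGaussianLaw_eval (Sum.inr (0, 0))
  have h1 : Integrable (fun x => exp (t * x)) (M.P.map fun ω => M.H 0 ω 0) := by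
    rw [hG.map_eq_gaussianReal]
    exact integrable_exp_mul_gaussianReal t
  exact (h1.comp_aemeasurable hG.aemeasurable).lintegral_lt_top

theorem measurable_A (M : Model) :
    Measurable fun ω => ENNReal.ofReal (exp (-M.γ * M.H 0 ω 0)) :=
  ((((Mu.measurable_eval (0 : ℝ × ℂ)).comp (M.meas_H 0)).const_mul _).exp).ennreal_ofReal

theorem measurable_Y (M : Model) : Measurable (Y M) :=
  (measurable_A M).mul (CR.measurable_ex.comp (((CR.measurable_lip Mu.measurable_eval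
    Metric.isOpen_ball).comp M.meas_ginf).const_mul _))

theorem Y_mom (M : Model) {q : ℝ} (hq : 0 < q) : ∫⁻ ω, Y M ω ^ q ∂M.P < ∞ := by
  have hγ := M.γ_pos
  refine (lintegral_mono fun ω => mul_rpow_le _ _ hq).trans_lt ?_
  rw [lintegral_add_left ((measurable_A M).pow_const _)]
  refine ENNReal.add_lt_top.2 ⟨?_, ?_⟩
  · refine lt_of_eq_of_lt (lintegral_congr fun ω => ?_) (gauss_exp M (-M.γ * (2 * q)))
    rw [ENNReal.ofReal_rpow_of_pos (exp_pos _), ← exp_mul]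
    congr 2
    ring
  · refine lt_of_eq_of_lt (lintegral_congr fun ω => ?_) (M.lipexp_ginf (2 * q * (4 * M.γ)) 2)
    rw [CR.ex_rpow (by positivity), ← mul_assoc, ← ENNReal.ofReal_mul (by positivity)]

theorem young (a b : ℝ≥0∞) {r s : ℝ} (h : r.HolderConjugate s) : a * b ≤ a ^ r + b ^ s := by
  refine (ENNReal.young_inequality a b h).trans (add_le_add ?_ ?_)
  · exact ENNReal.div_le_of_le_mul
      (le_mul_of_one_le_right' (ENNReal.one_le_ofReal.2 h.lt.le))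
  · exact ENNReal.div_le_of_le_mul
      (le_mul_of_one_le_right' (ENNReal.one_le_ofReal.2 h.symm.lt.le))

end UIAux

open UIAux in
theorem denUI (M : Model) {p : ℝ} (hp : 1 < p) {C : ℝ≥0∞} (hC : C ≠ ∞)
    (h : ∀ k : ℕ, ∫⁻ ω, (∫⁻ z in V0, ENNReal.ofReal (Mu.den M.γ (M.H 0 ω) k z)) ^ p ∂M.P ≤ C) :
    DenUI M.γ (M.P.map M.hat) := by
  obtain ⟨q, hq1, hqp⟩ := exists_between hp
  have hq0 : 0 < q := one_pos.trans hq1
  have hs : 1 < p / q := (one_lt_div hq0).2 hqp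
  have hc := (Real.HolderConjugate.conjExponent hs).symm
  have hY := Y_mom M (mul_pos hq0 hc.pos)
  refine ⟨q, hq1, (∫⁻ ω, Y M ω ^ (q * Real.conjExponent (p / q)) ∂M.P + C).toNNReal, fun k => ?_⟩
  rw [ENNReal.coe_toNNReal (ENNReal.add_ne_top.2 ⟨hY.ne, hC⟩)]
  refine (lintegral_map_le _ _).trans ?_
  refine le_trans (lintegral_mono fun ω => ?_) ((lintegral_add_left
    ((measurable_Y M).pow_const (q * Real.conjExponent (p / q)))
    fun ω => (∫⁻ z in V0, ENNReal.ofReal (Mu.den M.γ (M.H 0 ω) k z)) ^ p).le.trans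
      (add_le_add le_rfl (h k)))
  have h1 : ∫⁻ z in V0, ENNReal.ofReal (Mu.den M.γ (M.hat ω) k z) ≤
      Y M ω * ∫⁻ z in V0, ENNReal.ofReal (Mu.den M.γ (M.H 0 ω) k z) := by
    rw [← lintegral_const_mul _ (Mu.den_cont _ _ _).measurable.ennreal_ofReal]
    exact setLIntegral_mono' measurableSet_V0 fun z hz => den_le M ω k hz
  refine (ENNReal.rpow_le_rpow h1 hq0.le).trans ?_
  rw [ENNReal.mul_rpow_of_nonneg _ _ hq0.le]
  refine (young _ _ hc).trans_eq ?_
  rw [← ENNReal.rpow_mul, ← ENNReal.rpow_mul, mul_div_cancel₀ _ hq0.ne']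

end Pool.Agent.Lib.MP_0d9445_pr.Tip
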