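import Pool.Agent.Lib.MP_0d9445_pr.Tip.UnionA

/-! Gluing of the environment on two open sets: crude bounds and potentials. -/

open MeasureTheory Set Filter Topology
open scoped NNReal ENNReal

noncomputable section

namespace Pool.Agent.Lib.MP_0d9445_pr.Tip

open Walk Cell AS

variable {O₁ O₂ : Set ℂ} {μ : Measure ℂ} {C : ℕ → Cells} {a M : ℕ → ℝ}

namespace UnionBAux

/-- the contribution of a vertex to `X` -/
def wX (N : FC) (x : ℂ) : ℝ :=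
  ∑ y ∈ N.G.N x, ((x.re - y.re) * (x.re - y.re) + (x.im - y.im) * (x.im - y.im)) / 2

theorem term_nonneg (x y : ℂ) :
    0 ≤ ((x.re - y.re) * (x.re - y.re) + (x.im - y.im) * (x.im - y.im)) / 2 :=
  div_nonneg (add_nonneg (mul_self_nonneg _) (mul_self_nonneg _)) zero_le_two

theorem wX_nonneg (N : FC) (x : ℂ) : 0 ≤ wX N x := Finset.sum_nonneg fun y _ => term_nonneg x y

theorem X_eq (N : FC) (S : Set ℂ) : N.X S = ∑ x ∈ N.pts S, wX N x := by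
  simp only [FC.X, Net.en, wX, Finset.mul_sum, ← Finset.sum_add_distrib]
  exact Finset.sum_congr rfl fun x _ => Finset.sum_congr rfl fun y _ => by ring

theorem sum_cover {ι : Type*} (t : Finset ι) (g : ι → Finset ℂ) {A : Finset ℂ} {f : ℂ → ℝ}
    (hf : ∀ x, 0 ≤ f x) (h : ∀ x ∈ A, ∃ i ∈ t, x ∈ g i) :
    ∑ x ∈ A, f x ≤ ∑ i ∈ t, ∑ x ∈ g i, f x := by
  classical
  calc ∑ x ∈ A, f x ≤ ∑ x ∈ A, ∑ i ∈ t, if x ∈ g i then f x else 0 := by
        refine Finset.sum_le_sum fun x hx => ?_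
        obtain ⟨i, hi, hxi⟩ := h x hx
        refine le_trans ?_ (Finset.single_le_sum (f := fun i => if x ∈ g i then f x else 0)
          (fun j _ => by split_ifs; exacts [hf x, le_rfl]) hi)
        simp only [hxi, if_true, le_refl]
    _ = ∑ i ∈ t, ∑ x ∈ A, if x ∈ g i then f x else 0 := Finset.sum_comm
    _ ≤ ∑ i ∈ t, ∑ x ∈ g i, f x := by
        refine Finset.sum_le_sum fun i _ => ?_
        rw [← Finset.sum_filter]
        exact Finset.sum_le_sum_of_subset_of_nonneg (fun x hx => (Finset.mem_filter.1 hx).2)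
          fun x _ _ => hf x

theorem xy_cover (N : FC) (t : Finset ℂ) (g : ℂ → Set ℂ) {S : Set ℂ}
    (h : ∀ x ∈ S, ∃ i ∈ t, x ∈ g i) :
    N.X S ≤ ∑ i ∈ t, N.X (g i) ∧ N.Y S ≤ ∑ i ∈ t, N.Y (g i) := by
  have h' : ∀ x ∈ N.pts S, ∃ i ∈ t, x ∈ N.pts (g i) := fun x hx => by
    obtain ⟨i, hi, hxi⟩ := h x (N.mem_pts.1 hx).2
    exact ⟨i, hi, N.mem_pts.2 ⟨(N.mem_pts.1 hx).1, hxi⟩⟩
  constructor
  · simp only [X_eq]
    exact sum_cover t (fun i => N.pts (g i)) (wX_nonneg N) h'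
  · exact sum_cover t (fun i => N.pts (g i)) (fun _ => sq_nonneg _) h'

theorem xy_le {D : Cells} {K K' S : Set ℂ} (hm : ∀ x ∈ D.V, x ∈ D.H x)
    (hK : {x | x ∈ D.V ∧ (D.H x ∩ K).Nonempty}.Finite)
    (hK' : {x | x ∈ D.V ∧ (D.H x ∩ K').Nonempty}.Finite)
    (h : ∀ x ∈ (D.toFC K).V, x ∈ S → D.H x ⊆ K') :
    (D.toFC K).X S ≤ (D.toFC K').X S ∧ (D.toFC K).Y S ≤ (D.toFC K').Y S := by
  have hv : ∀ x ∈ (D.toFC K).V, x ∈ S → x ∈ (D.toFC K').V := fun x hx hS => by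
    have h1 := ((LQ.Met.mem_toFC hK).1 hx).1
    exact (LQ.Met.mem_toFC hK').2 ⟨h1, x, hm x h1, h x hx hS (hm x h1)⟩
  have hs : (D.toFC K).pts S ⊆ (D.toFC K').pts S := fun x hx => by
    rw [FC.mem_pts] at hx ⊢
    exact ⟨hv x hx.1 hx.2, hx.2⟩
  constructor
  · rw [X_eq, X_eq]
    refine le_trans (Finset.sum_le_sum fun x hx => ?_)
      (Finset.sum_le_sum_of_subset_of_nonneg hs fun x _ _ => wX_nonneg _ x)
    rw [FC.mem_pts] at hx
    refine Finset.sum_le_sum_of_subset_of_nonneg (fun y hy => ?_) fun y _ _ => term_nonneg x y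
    rw [FC.mem_N] at hy ⊢
    obtain ⟨h1, h2, h3, w, w1, w2⟩ := hy
    exact ⟨(LQ.Met.mem_toFC hK').2 ⟨((LQ.Met.mem_toFC hK).1 h1).1, w, w2, h x h2 hx.2 w1⟩,
      hv x h2 hx.2, h3, w, w1, w2⟩
  · exact Finset.sum_le_sum_of_subset_of_nonneg hs fun x _ _ => sq_nonneg _

theorem sol_transfer {D : Cells} {K K' S : Set ℂ} {m : ℝ} {u : ℂ → ℝ} (hm : ∀ x ∈ D.V, x ∈ D.H x)
    (hK : {x | x ∈ D.V ∧ (D.H x ∩ K).Nonempty}.Finite)
    (hK' : {x | x ∈ D.V ∧ (D.H x ∩ K').Nonempty}.Finite) (hS : S ⊆ K) (hS' : S ⊆ K')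
    (h : (D.toFC K).G.Sol ((D.toFC K).inside S) 0 (fun x => (D.toFC K).G.deg x / m) 0 u) :
    (D.toFC K').G.Sol ((D.toFC K').inside S) 0 (fun x => (D.toFC K').G.deg x / m) 0 u := by
  have e := sameOn_toFC (A := {x | D.H x ⊆ S}) hm hK hK' fun _ _ hx => ⟨hx.trans hS, hx.trans hS'⟩
  have hi : ∀ x, x ∈ (D.toFC K').inside S ↔ x ∈ (D.toFC K).inside S := fun x => by
    have := Finset.ext_iff.1 e.pts x
    rw [FC.mem_pts, FC.mem_pts] at this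
    rw [mem_ins, mem_ins]
    exact this.symm
  refine ⟨fun x hx => h.1 x fun h' => hx ((hi x).2 h'), fun x hx => ?_⟩
  have hA : x ∈ {x | D.H x ⊆ S} := (mem_ins.1 hx).2
  have := h.2 x ((hi x).1 hx)
  simp only [Net.lap, Net.deg, e.nbr x hA] at this ⊢
  exact this

theorem self_mem (c : ℂ) {r : ℝ} (hr : 0 ≤ r) : c ∈ sqC c r := by
  simpa [sqC, sn] using hr

theorem small {O K K' : Set ℂ} {δ Cst r : ℝ} {c : ℂ} (hm : ∀ n, ∀ x ∈ (C n).V, x ∈ (C n).H x)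
    (hN : NiceIn O C) (hK : IsCompact K) (hKO : K ⊆ O) (hK' : IsCompact K') (hKO' : K' ⊆ O)
    (hb : Metric.ball c δ ⊆ K') (hr : 0 < r) (hrδ : r ≤ δ / 8)
    (hx : ∀ c r, 0 < r → sqC c r ⊆ K' → ∀ᶠ n in atTop,
      ((C n).toFC K').X (sqC c r) ≤ Cst * r ^ 2 ∧ ((C n).toFC K').Y (sqC c r) ≤ Cst * r ^ 2) :
    ∀ᶠ n in atTop,
      ((C n).toFC K).X (sqC c r) ≤ Cst * r ^ 2 ∧ ((C n).toFC K).Y (sqC c r) ≤ Cst * r ^ 2 := by
  have hd : ∀ w ∈ sqC c r, dist w c ≤ δ / 4 := fun w hw => by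
    have h1 : sn c w ≤ r := hw
    linarith [dist_le_sn c w]
  have hs : sqC c r ⊆ K' := fun w hw => hb (Metric.mem_ball.2 (by linarith [hd w hw]))
  filter_upwards [hx c r hr hs, hN K hK hKO (δ / 4) (by linarith), hN K' hK' hKO' 1 one_pos]
    with n h1 h2 h3
  have h4 := xy_le (S := sqC c r) (hm n) h2.1 h3.1 fun x hxV hxS w hw => hb (by
    have a := h2.2.dist_le hxV hw (h2.2.mem x hxV)
    have b := dist_triangle w x c
    exact Metric.mem_ball.2 (by linarith [hd x hxS]))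
  exact ⟨h4.1.trans h1.1, h4.2.trans h1.2⟩

end UnionBAux

open UnionBAux

theorem xy_union (h₁ : IsOpen O₁) (h₂ : IsOpen O₂) (hm : ∀ n, ∀ x ∈ (C n).V, x ∈ (C n).H x)
    (hN : NiceIn (O₁ ∪ O₂) C) (x₁ : XYIn O₁ C) (x₂ : XYIn O₂ C) : XYIn (O₁ ∪ O₂) C := by
  intro K hK hKO
  obtain ⟨K₁, K₂, δ, c₁, c₂, s₁, s₂, hδ, hb⟩ := exists_split h₁ h₂ hK hKO
  obtain ⟨A₁, a₁⟩ := x₁ K₁ c₁ s₁
  obtain ⟨A₂, a₂⟩ := x₂ K₂ c₂ s₂
  set A := max 0 (max A₁ A₂) with hA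
  have hA0 : 0 ≤ A := le_max_left _ _
  have hA1 : A₁ ≤ A := (le_max_left _ _).trans (le_max_right _ _)
  have hA2 : A₂ ≤ A := (le_max_right _ _).trans (le_max_right _ _)
  have hs : ∀ c ∈ K, ∀ r, 0 < r → r ≤ δ / 8 → ∀ᶠ n in atTop,
      ((C n).toFC K).X (sqC c r) ≤ A * r ^ 2 ∧ ((C n).toFC K).Y (sqC c r) ≤ A * r ^ 2 := by
    intro c hc r hr hrδ
    rcases hb c hc with h | h
    · have e := mul_le_mul_of_nonneg_right hA1 (sq_nonneg r)
      exact (small hm hN hK hKO c₁ (s₁.trans subset_union_left) h hr hrδ a₁).mono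
        fun n hn => ⟨hn.1.trans e, hn.2.trans e⟩
    · have e := mul_le_mul_of_nonneg_right hA2 (sq_nonneg r)
      exact (small hm hN hK hKO c₂ (s₂.trans subset_union_right) h hr hrδ a₂).mono
        fun n hn => ⟨hn.1.trans e, hn.2.trans e⟩
  have h8 : 0 < δ / 8 := by linarith
  obtain ⟨t, htK, htf, hcov⟩ := finite_cover_balls_of_compact hK h8
  refine ⟨(htf.toFinset.card + 1) * A, fun c r hr hsq => ?_⟩
  have hcard : (0 : ℝ) ≤ htf.toFinset.card := Nat.cast_nonneg _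
  have hAr : 0 ≤ A * r ^ 2 := mul_nonneg hA0 (sq_nonneg r)
  rcases le_total r (δ / 8) with h | h
  · have e : A * r ^ 2 ≤ (htf.toFinset.card + 1) * A * r ^ 2 := by
      nlinarith [mul_nonneg hcard hAr]
    exact (hs c (hsq (self_mem c hr.le)) r hr h).mono fun n hn => ⟨hn.1.trans e, hn.2.trans e⟩
  · have hall := (eventually_all_finset htf.toFinset).2 fun i hi =>
      hs i (htK (htf.mem_toFinset.1 hi)) (δ / 8) h8 le_rfl
    have e : ∑ _i ∈ htf.toFinset, A * (δ / 8) ^ 2 ≤ (htf.toFinset.card + 1) * A * r ^ 2 := by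
      rw [Finset.sum_const, nsmul_eq_mul]
      have e1 : A * (δ / 8) ^ 2 ≤ A * r ^ 2 :=
        mul_le_mul_of_nonneg_left (pow_le_pow_left₀ h8.le h 2) hA0
      nlinarith [mul_le_mul_of_nonneg_left e1 hcard]
    filter_upwards [hall] with n hn
    have h1 := xy_cover ((C n).toFC K) htf.toFinset (fun i => sqC i (δ / 8)) (S := sqC c r)
      fun x hx => by
        obtain ⟨i, hi, hxi⟩ := mem_iUnion₂.1 (hcov (hsq hx))
        exact ⟨i, htf.mem_toFinset.2 hi, (sn_le_dist i x).trans (Metric.mem_ball.1 hxi).le⟩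
    exact ⟨h1.1.trans ((Finset.sum_le_sum fun i hi => (hn i hi).1).trans e),
      h1.2.trans ((Finset.sum_le_sum fun i hi => (hn i hi).2).trans e)⟩

theorem green_union (h₁ : IsOpen O₁) (h₂ : IsOpen O₂) (hm : ∀ n, ∀ x ∈ (C n).V, x ∈ (C n).H x)
    (hN : NiceIn (O₁ ∪ O₂) C) (g₁ : GreenIn O₁ C M) (g₂ : GreenIn O₂ C M) :
    GreenIn (O₁ ∪ O₂) C M := by
  intro K hK hKO ε hε
  obtain ⟨K₁, K₂, δ, c₁, c₂, s₁, s₂, hδ, hb⟩ := exists_split h₁ h₂ hK hKO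
  obtain ⟨δ₁, p₁, a₁⟩ := g₁ K₁ c₁ s₁ ε hε
  obtain ⟨δ₂, p₂, a₂⟩ := g₂ K₂ c₂ s₂ ε hε
  refine ⟨min (δ / 17) (min δ₁ δ₂), lt_min (by linarith) (lt_min p₁ p₂), fun r hr hrδ => ?_⟩
  simp only [le_min_iff] at hrδ
  filter_upwards [a₁ r hr hrδ.2.1, a₂ r hr hrδ.2.2, hN K hK hKO 1 one_pos,
    hN K₁ c₁ (s₁.trans subset_union_left) 1 one_pos,
    hN K₂ c₂ (s₂.trans subset_union_right) 1 one_pos] with n b₁ b₂ f f₁ f₂ c u hsq hu
  have hs : sqC c (8 * r) ⊆ Metric.ball c δ := fun w hw => by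
    have h1 : sn c w ≤ 8 * r := hw
    exact Metric.mem_ball.2 (by linarith [dist_le_sn c w, hrδ.1])
  have ho : sqO c r ⊆ sqC c (8 * r) := (sqO_subset c r).trans (sqC_mono c (by linarith))
  rcases hb c (hsq (self_mem c (by linarith))) with h | h
  · exact b₁ c u (hs.trans h) (sol_transfer (hm n) f.1 f₁.1 (ho.trans hsq) (ho.trans (hs.trans h)) hu)
  · exact b₂ c u (hs.trans h) (sol_transfer (hm n) f.1 f₂.1 (ho.trans hsq) (ho.trans (hs.trans h)) hu)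

theorem Pre.union (h₁ : IsOpen O₁) (h₂ : IsOpen O₂) (hm : ∀ n, ∀ x ∈ (C n).V, x ∈ (C n).H x)
    (e₁ : Pre O₁ μ C M) (e₂ : Pre O₂ μ C M) : Pre (O₁ ∪ O₂) μ C M :=
  have hN := nice_union h₁ h₂ e₁.nice e₂.nice
  have hF := frost_union h₁ h₂ e₁.frost e₂.frost
  ⟨hN, xy_union h₁ h₂ hm hN e₁.xy e₂.xy,
    mass_union h₁ h₂ hm hN (fun K hK hO => (hF K hK hO).1) e₁.mass e₂.mass, hF,
    green_union h₁ h₂ hm hN e₁.green e₂.green⟩

end Pool.Agent.Lib.MP_0d9445_pr.Tip
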