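import Pool.Agent.Lib.MP_0d9445_pr.Tip.Main
import Pool.Agent.Lib.MP_0d9445_pr.Tip.Surf
import Pool.Agent.Lib.MP_0d9445_pr.Tip.UI
import Pool.Agent.Lib.MP_0d9445_pr.Tip.ConeX
import Pool.Agent.Lib.MP_0d9445_pr.Tip.SphereX
import Pool.Agent.Lib.MP_0d9445_pr.Tip.Shift
import Pool.Agent.Lib.MP_0d9445_pr.Tip.UnionB
import Pool.Agent.Lib.MP_0d9445_pr.AS.Env
import Pool.Agent.Lib.MP_0d9445_pr.Mu.Main

/-! The environment of the walk on the whole plane, marked points included. -/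

open MeasureTheory ProbabilityTheory Set Filter Topology Real LQ.Met
open scoped NNReal ENNReal

noncomputable section

namespace Pool.Agent.Lib.MP_0d9445_pr.Tip

open Su (IsGFF0)
open Walk Cell AS

variable {Ω : Type} [MeasurableSpace Ω] {P : Measure Ω} {M : Model}

theorem isGFF0_hat (M : Model) : IsGFF0 (M.P.map M.hat) :=
  Su.ConeAux.isGFF0_map (M.gff.add_cst ((Mu.measurable_eval 0).comp M.gff.meas).neg)
    (.of_forall fun _ => (EN.nrm_apply _ 0).trans (sub_self _))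

theorem denUI_hat (M : Model) : DenUI M.γ (M.P.map M.hat) := by
  have h0 := M.γ_pos
  have h2 := M.γ_lt
  have hq : 0 < M.γ ^ 2 := by positivity
  have h1 : 1 < 4 / M.γ ^ 2 := (one_lt_div hq).2 (by nlinarith)
  obtain ⟨q, a, b⟩ := exists_between (lt_min one_lt_two h1)
  obtain ⟨B, hB, h⟩ := Mu.exists_apx_bound M.toLayers h0.le a (b.le.trans (min_le_left _ _))
    ((lt_div_iff₀ hq).1 (b.trans_le (min_le_right _ _))) (A := V0)
    ((isBounded_csq 0 _).subset (osq_subset_csq _ _))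
  exact denUI M a hB.ne h

theorem reg_hat (M : Model) :
    ∀ᵐ H ∂M.P.map M.hat, (M.μ H).IsOpenPosMeasure ∧ ∀ z, M.μ H {z} = 0 := by
  obtain ⟨α, hα, h⟩ := Mu.ae_reg_law M.toLayers M.γ_pos M.γ_lt M.hμ
  refine (h M.hat M.meas_hat (.of_forall fun ω => ⟨_, Mu.addFn_addFn _ _ _⟩) (M.ae_vague
    (M.gff.add_cst ((Mu.measurable_eval 0).comp M.gff.meas).neg).plus)).mono fun H hH => ?_
  exact ⟨hH.openPos, hH.noAtoms hα⟩

theorem V0_subset : V0 ⊆ Wt.o := fun _ h =>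
  ⟨h.1.trans (by norm_num [Wt]), h.2.trans (by norm_num [Wt])⟩

theorem exists_of_ae_prod [SFinite P] {q : Ω × ℂ → Prop} (h : ∀ᵐ x ∂P.prod U0, q x) :
    ∀ᵐ ω ∂P, ∃ z ∈ V0, q (ω, z) :=
  (Measure.ae_ae_of_ae_prod h).mono fun _ a => (ae_mem_V0.and a).exists

/-- gluing of the complement of a finite set with neighbourhoods of its points -/
theorem env_glue {Z : Set ℂ} (hZ : Z.Finite) {μ : Ω → Measure ℂ} {C : ℝ≥0 → Ω → Cells}
    {a Mn : ℝ≥0 → ℝ} (near : ∀ p ∈ Z, ∀ l : ℕ → ℝ≥0, Tendsto l atTop atTop →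
      ∃ φ : ℕ → ℕ, StrictMono φ ∧ ∀ᵐ ω ∂P, ∃ O, IsOpen O ∧ p ∈ O ∧
        Pre O (μ ω) (fun i => C (l (φ i)) ω) fun i => Mn (l (φ i)))
    {l : ℕ → ℝ≥0} (hl : Tendsto l atTop atTop) (base : ∀ᵐ ω ∂P,
      Env Zᶜ (μ ω) (fun i => C (l i) ω) (fun _ => univ) (fun i => a (l i)) fun i => Mn (l i)) :
    ∃ φ : ℕ → ℕ, StrictMono φ ∧ ∀ᵐ ω ∂P, Env univ (μ ω) (fun i => C (l (φ i)) ω) (fun _ => univ)
      (fun i => a (l (φ i))) fun i => Mn (l (φ i)) := by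
  have key : ∀ T : Set ℂ, T.Finite → T ⊆ Z → ∃ φ : ℕ → ℕ, StrictMono φ ∧ ∀ᵐ ω ∂P,
      ∃ O, IsOpen O ∧ Zᶜ ∪ T ⊆ O ∧
        Pre O (μ ω) (fun i => C (l (φ i)) ω) fun i => Mn (l (φ i)) := by
    intro T hT
    induction T, hT using Set.Finite.induction_on with
    | empty =>
      exact fun _ => ⟨id, strictMono_id, base.mono fun ω h =>
        ⟨Zᶜ, hZ.isClosed.isOpen_compl, by simp, pre_of_env h⟩⟩
    | @insert p T _ _ ih =>
      intro hs
      obtain ⟨φ, hφ, h1⟩ := ih ((subset_insert _ _).trans hs)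
      obtain ⟨ψ, hψ, h2⟩ := near p (hs (mem_insert _ _)) _ (hl.comp hφ.tendsto_atTop)
      refine ⟨φ ∘ ψ, hφ.comp hψ, ?_⟩
      filter_upwards [h1, h2, base] with ω ⟨O, a1, a2, a3⟩ ⟨O', b1, b2, b3⟩ e
      refine ⟨O ∪ O', a1.union b1, ?_, Pre.union a1 b1 (fun n => e.mem _)
        (a3.subseq hψ.tendsto_atTop) b3⟩
      rw [union_insert]
      exact insert_subset (Or.inr b2) (a2.trans subset_union_left)
  obtain ⟨φ, hφ, h⟩ := key Z hZ subset_rfl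
  refine ⟨φ, hφ, ?_⟩
  filter_upwards [h, base] with ω ⟨O, _, a2, a3⟩ e
  rw [compl_union_self, univ_subset_iff] at a2
  subst a2
  have e' := env_subseq e hφ.tendsto_atTop
  refine env_of_pre e' a3 (nu_ext hZ.isClosed.isOpen_compl ?_ e'.mem (subset_univ _) a3.nice e'.nu)
  rw [sdiff_compl, univ_inter]
  exact hZ.measure_zero _

variable [IsProbabilityMeasure P] {h : Ω → Field} {f : Ω → ℂ → ℝ} {d : Ω → Met}
  {m : Ω → Measure ℂ} {Y : ℝ≥0 → Ω → Set ℂ} {Z N : Set ℂ} {p : ℂ} {A κ : ℝ → ℝ}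

/-- the area is finite near the marked point -/
theorem fin_near (hT : TipX M.γ (M.P.map M.hat) P h f p) (hS : IsSurf M.γ M.ξ M.D M.μ Z P h f d m)
    (hZ : ∀ y ∈ Z, y = p ∨ 3 / 4 ≤ ‖y - p‖) : ∀ᵐ ω ∂P, (m ω).FiniteAtFilter (𝓝 p) := by
  have hν := isGFF0_hat M
  obtain ⟨G, hG, -, he⟩ := tip_loc M hν (denUI_hat M) ((reg_hat M).mono fun _ a => a.2) hT hS hZ
  filter_upwards [exists_of_ae_prod (he.and
    ((hG.seen hν (denUI_hat M) p).ae_vague M hν.1))] with ω ⟨z, hz, a, b⟩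
  have : IsLocallyFiniteMeasure (M.conf (seen M.γ p G (ω, z))).2 := b.1
  have h1 := congrArg (fun c : Cf => c.2 univ) (a Wt subset_rfl)
  simp only [loc, Measure.restrict_apply_univ, seenC, EN.sim_one.pull_apply] at h1
  refine ⟨(EN.img 1 (p - z) Wt).o, (isOpen_osq _ _).mem_nhds ?_, h1.trans_lt
    ((isBounded_csq _ _).subset (osq_subset_csq _ _)).measure_lt_top⟩
  simpa using (EN.sim_one.mem_img (b := p - z) Wt z).2 (V0_subset hz)

theorem pre_near (hM : Micro) (F : M.All) (R : RefOK M) (hL : LocalLaw M A κ)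
    (hT : TipX M.γ (M.P.map M.hat) P h f p) (hS : IsSurf M.γ M.ξ M.D M.μ Z P h f d m)
    (hZ : ∀ y ∈ Z, y = p ∨ 3 / 4 ≤ ‖y - p‖) (hY : ∀ l, IsPPP P d m l (Y l))
    (hfin : ∀ᵐ ω ∂P, IsLocallyFiniteMeasure (m ω)) (l : ℕ → ℝ≥0) (hl : Tendsto l atTop atTop) :
    ∃ φ : ℕ → ℕ, StrictMono φ ∧ ∀ᵐ ω ∂P, ∃ O, IsOpen O ∧ p ∈ O ∧
      Pre O (m ω) (fun i => vorS univ (d ω) (Y (l (φ i)) ω))
        fun i => κ (ht M.γ (l (φ i))) * l (φ i) := by
  have hν := isGFF0_hat M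
  have hU := denUI_hat M
  have hat := (reg_hat M).mono fun _ a => a.2
  obtain ⟨G, hG, hF, he⟩ := tip_loc M hν hU hat hT hS hZ
  have h0 : ∀ᵐ ω ∂P, ∀ z, m ω {z} = 0 := by
    filter_upwards [hS.area, (Plus.of_ac hT.1 hT.2.1).ae_noAtoms M hν.1 hat] with ω a b z
    rw [a]
    exact withDensity_absolutelyContinuous _ _ (b z)
  obtain ⟨s, hs, hS'⟩ := tip_surf M hν hS.measd hS.measm hS.length hfin h0 hY (hG.seen hν hU p)
    (hF.seen hν hU hG.measurable) he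
  obtain ⟨φ, hφ, hE⟩ := hS'.env hM F R hL hl
  refine ⟨φ, hφ, ?_⟩
  filter_upwards [exists_of_ae_prod (hs.and hE)] with ω ⟨z, hz, a, b⟩
  have b' := pre_of_env b
  simp only [cells, a, seenC, pull, div_one] at b'
  refine ⟨_, (isOpen_osq _ _).preimage (by fun_prop), by simpa using V0_subset hz,
    Pre.shift (p - z) (fun _ _ => Iff.rfl) (fun n x w => ?_) b'⟩
  simp only [vorS, cell, mem_univ, true_and, mem_ofPred_eq, Function.curry_apply,
    ContinuousMap.comp_apply, ContinuousMap.coe_mk, one_mul, seenY, mem_preimage]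
  exact ⟨fun k y hy => by simpa using k (y - (p - z)) (by simpa using hy), fun k y hy => k _ hy⟩

theorem env_of_tipX (hM : Micro) (F : M.All) (R : RefOK M) (hL : LocalLaw M A κ) (hZ : Z.Finite)
    (hT : ∀ p ∈ Z, TipX M.γ (M.P.map M.hat) P h f p ∧ ∀ y ∈ Z, y = p ∨ 3 / 4 ≤ ‖y - p‖)
    (hS : IsSurf M.γ M.ξ M.D M.μ Z P h f d m) (hY : ∀ l, IsPPP P d m l (Y l))
    (h0 : Surf M P univ Zᶜ N (fun ω => (d ω, m ω)) Y) {l : ℕ → ℝ≥0}
    (hl : Tendsto l atTop atTop) : ∃ φ : ℕ → ℕ, StrictMono φ ∧ ∀ᵐ ω ∂P, MeasOK (m ω) univ ∧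
      Env univ (m ω) (fun i => cells univ (fun ω => (d ω, m ω)) Y (l (φ i)) ω) (fun _ => univ)
        (fun i => A (ht M.γ (l (φ i)))) fun i => κ (ht M.γ (l (φ i))) * l (φ i) := by
  have hO := hZ.isClosed.isOpen_compl
  have hfin : ∀ᵐ ω ∂P, IsLocallyFiniteMeasure (m ω) := by
    filter_upwards [h0.measOK R, (ae_ball_iff hZ.countable).2 fun p hp =>
      fin_near (hT p hp).1 hS (hT p hp).2] with ω a b
    refine ⟨fun x => ?_⟩
    by_cases hx : x ∈ Z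
    · exact b x hx
    · obtain ⟨K, hK, h1, h2⟩ := exists_compact_subset hO hx
      exact ⟨K, mem_interior_iff_mem_nhds.1 h1, (a.frost K hK h2).1⟩
  obtain ⟨φ, hφ, h1⟩ := h0.env hM F R hL hl
  obtain ⟨ψ, hψ, h2⟩ := env_glue (C := fun l ω => vorS univ (d ω) (Y l ω))
    (a := fun l => A (ht M.γ l)) (Mn := fun l => κ (ht M.γ l) * l) hZ
    (fun p hp => pre_near hM F R hL (hT p hp).1 hS (hT p hp).2 hY hfin)
    (hl.comp hφ.tendsto_atTop) h1
  refine ⟨φ ∘ ψ, hφ.comp hψ, ?_⟩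
  filter_upwards [h2, h0.measOK R] with ω a b
  refine ⟨⟨a.frost, fun U hU _ hne h => ?_, ?_⟩, a⟩
  · exact b.pos (U ∩ Zᶜ) (hU.inter hO) inter_subset_right
      ((hZ.countable.dense_compl ℝ).inter_open_nonempty U hU hne)
      (measure_mono_null inter_subset_left h)
  · filter_upwards [b.low, hZ.countable.ae_notMem volume] with y h1 h2 _ using h1 h2

/-- the environment of the cone and of the sphere on the whole plane -/
theorem env_univ (hM : Micro) (F : M.All) (R : RefOK M) (hL : LocalLaw M A κ)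
    (hc : IsCone M.γ M.Q P h f ∧ Z = {0} ∨ IsSphere M.γ M.Q M.μ P h f ∧ Z = {0, 1})
    (hS : IsSurf M.γ M.ξ M.D M.μ Z P h f d m) (hY : ∀ l, IsPPP P d m l (Y l))
    (h0 : Surf M P univ Zᶜ N (fun ω => (d ω, m ω)) Y) {l : ℕ → ℝ≥0}
    (hl : Tendsto l atTop atTop) : ∃ φ : ℕ → ℕ, StrictMono φ ∧ ∀ᵐ ω ∂P, MeasOK (m ω) univ ∧
      Env univ (m ω) (fun i => cells univ (fun ω => (d ω, m ω)) Y (l (φ i)) ω) (fun _ => univ)
        (fun i => A (ht M.γ (l (φ i)))) fun i => κ (ht M.γ (l (φ i))) * l (φ i) := by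
  have hν := isGFF0_hat M
  rcases hc with ⟨hc, rfl⟩ | ⟨hc, rfl⟩
  · refine env_of_tipX hM F R hL (finite_singleton 0) ?_ hS hY h0 hl
    rintro p rfl
    exact ⟨cone_tipX hν hc, fun y hy => Or.inl hy⟩
  · refine env_of_tipX hM F R hL (toFinite _) (fun p hp => ?_) hS hY h0 hl
    refine ⟨sphere_tipX M.γ_pos M.hμ hν ((reg_hat M).mono fun _ a => a.1) hc hp, fun y hy => ?_⟩
    rcases hp with rfl | rfl <;> rcases hy with rfl | rfl <;> norm_num

end Pool.Agent.Lib.MP_0d9445_pr.Tip
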