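import Pool.Agent.Lib.MP_0d9445_pr.Tip.Rho
import Pool.Agent.Lib.MP_0d9445_pr.Tip.Remove

/-! The surface seen from the random origin is locally the surface of a field. -/

open MeasureTheory ProbabilityTheory Set Filter Topology Real LQ.Met
open scoped NNReal ENNReal

noncomputable section

namespace Pool.Agent.Lib.MP_0d9445_pr.Tip

open CR (osq csq)
open Su (IsGFF0 pot CMpot)
open EN (nrm)

variable {Ω : Type} [MeasurableSpace Ω] {P : Measure Ω} [IsProbabilityMeasure P]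
  {ν : Measure Field}

open EN in
theorem loc_eq_of_punct {c₁ c₂ : Cf} (h₁ : IsGood c₁) (h₂ : IsGood c₂) {O : Set ℂ} {W : Sq}
    (hWO : closure W.o ⊆ O) {z : ℂ} (a₁ : c₁.2 {z} = 0) (a₂ : c₂.2 {z} = 0)
    (h : ∀ x ∈ O, x ≠ z → ∃ w : Sq, x ∈ w.o ∧ loc w c₁ = loc w c₂) (w : Sq) (hw : w.o ⊆ W.o) :
    loc w c₁ = loc w c₂ := by
  replace hw := (closure_mono hw).trans hWO
  have hpos : ∀ {w : Sq} {x : ℂ}, x ∈ w.o → 0 < w.2 := fun hx => (abs_nonneg _).trans_lt hx.1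
  have hT : ∀ {c c' : Cf}, IsGood c → IsGood c' → c.2 {z} = 0 →
      (∀ x ∈ O, x ≠ z → ∃ w : Sq, x ∈ w.o ∧ loc w c = loc w c') →
      (∀ p, T w c.1 p ≤ T w c'.1 p) ∧ c.2.restrict w.o ≤ c'.2.restrict w.o := by
    intro c c' k k' a hh
    refine ⟨fun p => ?_, ?_⟩
    · rcases le_or_gt w.2 0 with h0 | h0
      · rw [T_of_nonpos k.1 h0, T_of_nonpos k'.1 h0]
      · rw [T_eq k.1 k.2 h0, T_eq k'.1 k'.2 h0, ← one_mul (TU (Function.curry c'.1) _ _ _)]
        refine TU_le_of_punct (O := O) (z := z) k.1 k'.1 k'.2 zero_le_one (fun x hx hxz => ?_)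
          (isOpen_osq _ _) (compl_osq_nonempty _ _) hw _ _
        obtain ⟨w', hx', e⟩ := hh x hx hxz
        refine ⟨w'.o, isOpen_osq _ _, hx', compl_osq_nonempty _ _, fun u hu v hv => ?_⟩
        have e1 : T w' c.1 = T w' c'.1 := congrArg Prod.fst e
        rw [← T_eq_of_mem k.1 k.2 (hpos hx') (osq_subset_csq _ _ hu) (osq_subset_csq _ _ hv),
          ← T_eq_of_mem k'.1 k'.2 (hpos hx') (osq_subset_csq _ _ hu) (osq_subset_csq _ _ hv), e1,
          one_mul]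
    · rw [← one_smul ℝ≥0∞ (c'.2.restrict w.o)]
      refine restrict_le_of_punct (isOpen_osq _ _) a fun x hx hxz => ?_
      obtain ⟨w', hx', e⟩ := hh x (hw (subset_closure hx)) hxz
      exact ⟨w'.o, isOpen_osq _ _, hx', by rw [one_smul]; exact (congrArg Prod.snd e).le⟩
  have b₁ := hT h₁ h₂ a₁ h
  have b₂ := hT h₂ h₁ a₂ fun x hx hxz => (h x hx hxz).imp fun _ k => ⟨k.1, k.2.symm⟩
  exact Prod.ext (ContinuousMap.ext fun p => (b₁.1 p).antisymm (b₂.1 p)) (b₁.2.antisymm b₂.2)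

namespace MainAux

open EN Mu

/-- the configuration `c` is the Weyl scaling of `c₀` by `f` inside `U` -/
def Sc (M : Model) (c₀ : Cf) (f : ℂ → ℝ) (U : Set ℂ) (c : Cf) : Prop :=
  IsGood c ∧ IsWeylOn (fun z => M.ξ * f z) (Function.curry c₀.1) (Function.curry c.1) U ∧
    c.2 = c₀.2.withDensity fun z => ENNReal.ofReal (exp (M.γ * f z))

theorem loc_eq_of_sc {M : Model} {w : Sq} {c₀ c₁ c₂ : Cf} {f₁ f₂ : ℂ → ℝ} {U₁ U₂ : Set ℂ}
    (h₁ : Sc M c₀ f₁ U₁ c₁) (h₂ : Sc M c₀ f₂ U₂ c₂) (k₁ : closure w.o ⊆ U₁) (k₂ : closure w.o ⊆ U₂)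
    (hf : ∀ z ∈ w.o, f₁ z = f₂ z) : loc w c₁ = loc w c₂ := by
  refine Prod.ext (ContinuousMap.ext fun p => le_antisymm ?_ ?_) (Measure.ext fun s hs => ?_)
  · simpa [loc] using T_le_of_weylOn h₁.1 h₂.1 h₁.2.1 h₂.2.1 k₁ k₂ (t := 0)
      (fun z hz => by rw [hf z hz, add_zero]) p
  · simpa [loc] using T_le_of_weylOn h₂.1 h₁.1 h₂.2.1 h₁.2.1 k₂ k₁ (t := 0)
      (fun z hz => by rw [hf z hz, add_zero]) p
  · have hA := hs.inter (measurableSet_o w)
    show c₁.2.restrict _ s = c₂.2.restrict _ s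
    rw [Measure.restrict_apply hs, Measure.restrict_apply hs, h₁.2.2, h₂.2.2,
      withDensity_apply _ hA, withDensity_apply _ hA]
    exact setLIntegral_congr_fun hA fun z hz => by simp only [hf z hz.2]

theorem wmetOn_pull (φ : ℂ ≃ₜ ℂ) (f : ℂ → ℝ) (D : ℂ → ℂ → ℝ) (U : Set ℂ) (x y : ℂ) :
    wmetOn (fun z => f (φ z)) (fun x y => D (φ x) (φ y)) (φ ⁻¹' U) x y = wmetOn f D U (φ x) (φ y) := by
  refine le_antisymm (le_iInf₂ fun L P => le_iInf₂ fun u m => ?_)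
    (le_iInf₂ fun L P => le_iInf₂ fun u m => ?_)
  · refine iInf₂_le_of_le L (fun t => φ.symm (P t)) (iInf₂_le_of_le ⟨u.nonneg,
      φ.symm.continuous.comp_continuousOn u.cont, by simp [u.src], by simp [u.tgt],
      fun s t h1 h2 h3 => ?_⟩ (fun t ht => by simpa using m ht) (by simp))
    rw [← u.speed s t h1 h2 h3]
    simp [len]
  · exact iInf₂_le_of_le L (fun t => φ (P t)) (iInf₂_le_of_le ⟨u.nonneg,
      φ.continuous.comp_continuousOn u.cont, by simp [u.src], by simp [u.tgt], u.speed⟩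
      (fun t ht => m ht) le_rfl)

theorem Sc.pull {M : Model} {c₀ c : Cf} {f : ℂ → ℝ} {U : Set ℂ} (h : Sc M c₀ f U c) (b : ℂ) :
    Sc M (pull 1 b c₀) (fun y => f (1 * y + b)) ((fun y => 1 * y + b) ⁻¹' U) (pull 1 b c) := by
  refine ⟨IsGood.pull one_ne_zero h.1, fun x hx y hy => ?_, Measure.ext fun s hs => ?_⟩
  · exact (DU_pull (aff one_ne_zero b) (Function.curry c.1) U x y).trans ((h.2.1 _ hx _ hy).trans
      (wmetOn_pull (aff one_ne_zero b) (fun z => M.ξ * f z) (Function.curry c₀.1) U x y).symm)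
  · have e : MeasurableEmbedding fun z : ℂ => (z - b) / 1 := by
      simp only [div_one]
      exact measurableEmbedding_subRight b
    show (c.2.map _) s = ((c₀.2.map _).withDensity _) s
    rw [e.map_apply, h.2.2, withDensity_apply _ (e.measurable hs), withDensity_apply _ hs,
      e.restrict_map, e.lintegral_map]
    simp

/-- rational squares -/
def sq (w : ℚ × ℚ × ℚ) : Sq := (⟨w.1, w.2.1⟩, w.2.2)

theorem exists_sq {A : Set ℂ} (hA : IsOpen A) {x : ℂ} (hx : x ∈ A) :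
    ∃ w, 0 ≤ (sq w).2 ∧ x ∈ (sq w).o ∧ (sq w).c ⊆ A := by
  obtain ⟨ε, hε, hb⟩ := Metric.isOpen_iff.1 hA x hx
  obtain ⟨r, r0, r1⟩ := exists_rat_btwn (show 0 < ε / 4 by positivity)
  obtain ⟨a, a0, a1⟩ := exists_rat_btwn (show x.re - r < x.re + r by linarith)
  obtain ⟨b, b0, b1⟩ := exists_rat_btwn (show x.im - r < x.im + r by linarith)
  refine ⟨(a, b, r), r0.le, ⟨abs_lt.2 ⟨?_, ?_⟩, abs_lt.2 ⟨?_, ?_⟩⟩, fun y hy => hb ?_⟩
  · show -(r : ℝ) < x.re - a
    linarith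
  · show x.re - a < (r : ℝ)
    linarith
  · show -(r : ℝ) < x.im - b
    linarith
  · show x.im - b < (r : ℝ)
    linarith
  · have h1 : |y.re - a| ≤ r := hy.1
    have h2 : |y.im - b| ≤ r := hy.2
    have h3 := Complex.norm_le_abs_re_add_abs_im (y - x)
    rw [Complex.sub_re, Complex.sub_im] at h3
    rw [mem_ball_iff_norm]
    have h4 : |y.re - x.re| ≤ 2 * r := abs_le.2 ⟨by linarith [abs_le.1 h1], by linarith [abs_le.1 h1]⟩
    have h5 : |y.im - x.im| ≤ 2 * r := abs_le.2 ⟨by linarith [abs_le.1 h2], by linarith [abs_le.1 h2]⟩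
    linarith

theorem exp_le_half {k : ℕ} (hk : 1 ≤ k) : exp (-(k : ℝ)) ≤ 1 / 2 := by
  have h1 : (1 : ℝ) ≤ k := by exact_mod_cast hk
  have h2 := add_one_le_exp (k : ℝ)
  rw [exp_neg, one_div]
  exact inv_anti₀ two_pos (by linarith)

theorem avg_pot {γ t : ℝ} {z : ℂ} (hz : ‖z‖ + exp (-t) ≤ 1) {q : ℝ × ℂ}
    (hq : ∀ y ∈ Metric.closedBall q.2 (exp (-q.1)), exp (-t) < ‖y - z‖) :
    avg (γ • pot (t, z) : Fn) q = γ * (avg lmax q - log (max ‖q.2 - z‖ (exp (-q.1)))) := by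
  have c : Continuous fun y : ℂ => log (max ‖y - z‖ (exp (-t))) :=
    Continuous.log (by fun_prop) fun _ => (lt_max_of_lt_right (exp_pos _)).ne'
  have e1 : avg (γ • pot (t, z) : Fn) q = γ * avg (pot (t, z)) q := circleAverage_smul
  have e2 : (pot (t, z) : ℂ → ℝ) = fun y => lmax y + -log (max ‖y - z‖ (exp (-t))) :=
    funext fun y => (pot_small hz y).trans (sub_eq_add_neg _ _)
  have e3 : avg (fun y => log (max ‖y - z‖ (exp (-t)))) q = avg (fun y => log ‖z - y‖) q :=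
    Su.avg_congr (fun y hy => by simp only [max_eq_left (hq y hy).le, norm_sub_rev z]) subset_rfl
  have c' : Continuous fun y : ℂ => -log (max ‖y - z‖ (exp (-t))) := c.neg
  rw [e1, e2, avg_add lmax.continuous c', avg_neg, e3, CM.avg_log, norm_sub_rev z, ← sub_eq_add_neg]

/-- the continuous function that replaces the singular one off the disc of radius `exp (-k)` -/
def vk (γ : ℝ) (p z : ℂ) (k : ℕ) (v : Fn) : Fn := res 0 1 (p - z) v + γ • pot (k, z)

theorem pathX {M : Model} {h g X : Field} {ft : ℕ → Fn} {f : ℂ → ℝ} {p z : ℂ} {c : Cf}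
    {Z : Set ℂ} (hz : z ∈ V0) (hX : X = tip M.γ z (tr (p - z) g)) (a0 : M.μ h {p} = 0)
    (n0 : M.conf (tr (p - z) h) = pull 1 (p - z) (M.conf h)) (n1 : IsGood (M.conf X))
    (a1 : M.μ X {z} = 0)
    (n2 : ∀ k : ℕ, Sc M (M.conf (tr (p - z) h)) (vk M.γ p z k (ft k)) univ
      (M.conf (addFn (tr (p - z) h) (vk M.γ p z k (ft k)))))
    (n3 : ∀ (k : ℕ) (w : ℚ × ℚ × ℚ), (∀ q : ℝ × ℂ, Metric.closedBall q.2 (exp (-q.1)) ⊆ (sq w).o →
      X q = addFn (tr (p - z) h) (vk M.γ p z k (ft k)) q) →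
      loc (sq w) (M.conf X) = loc (sq w) (M.conf (addFn (tr (p - z) h) (vk M.γ p z k (ft k)))))
    (t1 : ∀ (k : ℕ) (q : ℝ × ℂ), Metric.closedBall q.2 (exp (-q.1)) ⊆
      {x | exp (-(k : ℝ)) < ‖x - p‖} → g q = addFn h (ft k) q)
    (t2 : ∀ (k : ℕ) (x : ℂ), exp (-(k : ℝ)) < ‖x - p‖ → ‖x - p‖ < 3 / 4 →
      f x = ft k x - M.γ * log ‖x - p‖)
    (sc : ∀ U, IsOpen U → Disjoint U Z → Sc M (M.conf h) f U c)
    (hZ : ∀ y ∈ Z, y = p ∨ 3 / 4 ≤ ‖y - p‖) {W : Sq} (hW : W.o ⊆ Wt.o) :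
    loc W (pull 1 (p - z) c) = loc W (M.conf X) := by
  unfold vk at n2 n3
  obtain ⟨b, hb⟩ : ∃ b, b = p - z := ⟨_, rfl⟩
  rw [← hb] at hX n0 n2 n3 ⊢
  have z1 : ‖z‖ ≤ 3 / 2 * (1 / 16) := norm_le_of_mem_osq hz
  have s0 := sc ∅ isOpen_empty (empty_disjoint _)
  refine loc_eq_of_punct (O := osq 0 (5 / 16)) (z := z) (IsGood.pull one_ne_zero s0.1) n1
    ?_ ?_ a1 (fun x hx hxz => ?_) W hW
  · refine (closure_minimal (osq_subset_csq _ _) (isClosed_csq _ _)).trans fun y hy => ?_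
    exact ⟨hy.1.trans_lt (by norm_num [Wt]), hy.2.trans_lt (by norm_num [Wt])⟩
  · show c.2.map _ _ = 0
    rw [Measure.map_apply (measurable_unaff 1 b) (measurableSet_singleton z), s0.2.2]
    refine withDensity_absolutelyContinuous _ _ (measure_mono_null (fun y hy => ?_) a0)
    have : (y - b) / 1 = z := hy
    rw [mem_singleton_iff]
    linear_combination this + hb
  have x1 := norm_le_of_mem_osq hx
  obtain ⟨k, k1, k2⟩ : ∃ k : ℕ, 1 ≤ k ∧ exp (-(k : ℝ)) < ‖x - z‖ := by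
    have a := (tendsto_exp_neg_atTop_nhds_zero.comp tendsto_natCast_atTop_atTop).eventually
      (gt_mem_nhds (norm_pos_iff.2 (sub_ne_zero.2 hxz)))
    exact ((eventually_ge_atTop 1).and a).exists
  have k3 := exp_le_half k1
  have k4 : ‖z‖ + exp (-(k : ℝ)) ≤ 1 := by linarith
  have oA : ∀ a : ℂ, IsOpen {y : ℂ | exp (-(k : ℝ)) < ‖y - a‖ ∧ ‖y - a‖ < 3 / 4} := fun a =>
    have c : Continuous fun y : ℂ => ‖y - a‖ := by fun_prop
    (isOpen_lt continuous_const c).inter (isOpen_lt c continuous_const)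
  obtain ⟨w, -, wx, wA⟩ := exists_sq (oA z) (x := x) ⟨k2, by linarith [norm_sub_le x z]⟩
  have wA' := (osq_subset_csq _ _).trans wA
  have eb : ∀ y : ℂ, 1 * y + b - p = y - z := fun y => by rw [hb]; ring
  have e1 := n3 k w fun q hq => by
    rw [← addFn_addFn, tr, ← affine_addFn 0 one_ne_zero, hX, tip_apply, addFn_apply,
      avg_pot k4 fun y hy => (wA' (hq hy)).1]
    refine congrArg (· + _) ((tr_apply _ _ _).trans ((t1 k _ fun y h1 => ?_).trans
      (tr_apply _ _ _).symm))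
    have a := (wA' (hq (a := y - b) (mem_closedBall_iff_norm.2 (by
      rw [show y - b - q.2 = y - (q.2 + b) by ring]
      exact mem_closedBall_iff_norm.1 h1)))).1
    rwa [← eb, one_mul, sub_add_cancel] at a
  have s4 := (sc _ (oA p) (disjoint_left.2 fun y h1 h2 => by
    rcases hZ y h2 with rfl | h3
    · exact (h1.1.trans_le' (exp_pos _).le).ne (by simp)
    · exact h1.2.not_ge h3)).pull b
  rw [← n0] at s4
  refine ⟨sq w, wx, (loc_eq_of_sc s4 (n2 k) ?_ (subset_univ _) fun y hy => ?_).trans e1.symm⟩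
  · refine (closure_minimal (osq_subset_csq _ _) (isClosed_csq _ _)).trans fun y hy => ?_
    have a := wA hy
    rwa [mem_ofPred_eq, ← eb] at a
  · have a := wA' hy
    have a1 : lmax y = 0 := by
      show log (max ‖y‖ 1) = 0
      rw [max_eq_right (by linarith [a.2, norm_sub_norm_le y z]), log_one]
    rw [t2 k _ (by rw [eb]; exact a.1) (by rw [eb]; exact a.2), eb]
    simp only [res, resc, ContinuousMap.add_apply, ContinuousMap.smul_apply, ContinuousMap.coe_mk,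
      ContinuousMap.const_apply, smul_eq_mul, pot_small k4, a1, max_eq_left a.1.le]
    ring

theorem continuous_vk (γ : ℝ) (p : ℂ) (k : ℕ) : Continuous fun x : Fn × ℂ => vk γ p x.2 k x.1 := by
  refine Continuous.add (ContinuousMap.continuous_of_continuous_uncurry _ ?_)
    (Continuous.const_smul (g := fun x : Fn × ℂ => pot (k, x.2))
      (ContinuousMap.continuous_of_continuous_uncurry _ ?_) γ)
  · show Continuous fun x : (Fn × ℂ) × ℂ => x.1.1 (1 * x.2 + (p - x.1.2)) + 0 * log ‖(1 : ℂ)‖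
    fun_prop
  · refine ((lmax.continuous.comp continuous_snd).add
      ((continuous_avg lmax).comp (by fun_prop))).sub (Continuous.log (by fun_prop) fun _ => ?_)
    exact (lt_max_of_lt_right (exp_pos _)).ne'

end MainAux

open MainAux in
theorem tip_loc (M : Model) (hν : IsGFF0 ν) (hU : DenUI M.γ ν)
    (hat : ∀ᵐ H ∂ν, ∀ z, M.μ H {z} = 0) {h : Ω → Field} {f : Ω → ℂ → ℝ} {p : ℂ}
    (hT : TipX M.γ ν P h f p) {Z : Set ℂ} {d : Ω → Met} {m : Ω → Measure ℂ}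
    (hS : IsSurf M.γ M.ξ M.D M.μ Z P h f d m) (hZ : ∀ y ∈ Z, y = p ∨ 3 / 4 ≤ ‖y - p‖) :
    ∃ G : Ω → Field, Plus ν P G ∧ FAC ν P G (Metric.ball p (3 / 4)) ∧
      ∀ᵐ x ∂P.prod U0, ∀ w : Sq, w.o ⊆ Wt.o →
        loc w (seenC p (fun ω => (d ω, m ω)) x) = loc w (M.conf (seen M.γ p G x)) := by
  obtain ⟨mh, ah, G, ft, hG, mf, hF, hT⟩ := hT
  refine ⟨G, hG, hF, ?_⟩
  have h0 := Plus.of_ac mh ah
  have h1 := h0.tr hν p
  have hX := hG.seen hν hU p
  have mv : ∀ k : ℕ, Measurable fun x : Ω × ℂ => vk M.γ p x.2 k (ft k x.1) := fun k =>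
    (continuous_vk M.γ p k).measurable.comp ((mf k).prodMap measurable_id)
  have lift : ∀ {q : Ω → Prop}, (∀ᵐ ω ∂P, q ω) → ∀ᵐ x ∂P.prod U0, q x.1 :=
    fun hq => Measure.quasiMeasurePreserving_fst.ae hq
  filter_upwards [Measure.quasiMeasurePreserving_snd.ae ae_mem_V0, lift (h0.ae_noAtoms M hν.1 hat),
    h0.conf_tr M hν.1 p, hX.ae_good M hν.1, hX.ae_noAtoms M hν.1 hat,
    ae_all_iff.2 fun k => (h1.add (mv k)).ae_good M hν.1,
    ae_all_iff.2 fun k => h1.ae_weyl M hν.1 (mv k),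
    ae_all_iff.2 fun k => ae_all_iff.2 fun w => hX.loc_congr M hν.1 (h1.add (mv k)) (sq w),
    lift hT, lift hS.length, lift hS.weyl, lift hS.area]
    with x b0 b1 b2 b3 b4 b5 b6 b7 b8 b9 b10 b11 w hw
  exact pathX (c := (d x.1, m x.1)) (X := seen M.γ p G x) b0 rfl (b1 p) b2 b3 (b4 _)
    (fun k => ⟨b5 k, (b6 k).1.isWeylOn (b5 k).2, (b6 k).2⟩) b7 b8.1 b8.2
    (fun U k₁ k₂ => ⟨b9, b10 U k₁ k₂, b11⟩) hZ hw

end Pool.Agent.Lib.MP_0d9445_pr.Tip
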