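import Pool.Agent.Lib.MP_0d9445_pr.Tip.Final
import Pool.Agent.Lib.MP_0d9445_pr.AS.Main
import Pool.Agent.Lib.MP_0d9445_pr.BM.Exist

/-! The walk on the cone and on the sphere from every starting point. -/

open MeasureTheory ProbabilityTheory Set Filter Topology Real LQ.Met
open scoped NNReal ENNReal

noncomputable section

namespace Pool.Agent.Lib.MP_0d9445_pr.Tip

open Walk Cell AS BM

variable {Ω : Type} [MeasurableSpace Ω] {P : Measure Ω} [IsProbabilityMeasure P] {M : Model}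
  {h : Ω → Field} {f : Ω → ℂ → ℝ} {d : Ω → Met} {m : Ω → Measure ℂ} {Y : ℝ≥0 → Ω → Set ℂ}
  {Z : Set ℂ} {A κ : ℝ → ℝ}

theorem main (F : M.All) (R : RefOK M) (hL : LocalLaw M A κ)
    (hc : IsCone M.γ M.Q P h f ∧ Z = {0} ∨ IsSphere M.γ M.Q M.μ P h f ∧ Z = {0, 1})
    (hS : IsSurf M.γ M.ξ M.D M.μ Z P h f d m) (hY : ∀ l, IsPPP P d m l (Y l)) {l : ℕ → ℝ≥0}
    (hl : Tendsto l atTop atTop) : ∃ φ : ℕ → ℕ, StrictMono φ ∧ ∀ᵐ ω ∂P,
      (∀ W, IsWiener W → ∃ B, PCAF W (m ω) B) ∧ ∀ z,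
      Conv (d ω) (m ω) (fun n => Y (l (φ n)) ω) (fun n => tau M.γ A κ (l (φ n))) z := by
  obtain ⟨N, h0, hσ⟩ : ∃ N, Surf M P univ Zᶜ N (fun ω => (d ω, m ω)) Y ∧
      ∀ᵐ ω ∂P, SigmaFinite (m ω) := by
    rcases hc with ⟨hc, rfl⟩ | ⟨hc, rfl⟩
    · exact ⟨_, cone_surf F R hc hS hY⟩
    · exact ⟨_, sphere_surf F R hc hS hY⟩
  obtain ⟨φ, hφ, hE⟩ := env_univ micro_ok F R hL hc hS hY h0 hl
  refine ⟨φ, hφ, ?_⟩
  filter_upwards [hσ, hE] with ω h1 ⟨h2, hE⟩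
  refine ⟨fun W hW => exists_PCAF hW fun K hK => h2.frost K hK (subset_univ _),
    fun z x hx hxz W B hW hB => ?_⟩
  rw [← compl_empty] at h2
  have := plane_ok W ∅ _ _ _ _ _ x z (fun _ => B) hW finite_empty
    (fun y _ => clock_of hW hB finite_empty h2 y) (compl_empty ▸ hE)
    (compl_empty ▸ badNegl_univ hE.nice _ x) hx hxz (notMem_empty z)
  simp only [cells, compl_empty, vorS_univ] at this
  exact pathConv_congr this (tau_eq (hl.comp hφ.tendsto_atTop) _ _ _)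

end Pool.Agent.Lib.MP_0d9445_pr.Tip
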