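import Pool.Agent.Lib.MP_0d9445_pr.AS.Dom

/-! The part of the hypotheses on the environment that is glued near a marked point. -/

open MeasureTheory Set Filter Topology
open scoped NNReal ENNReal

noncomputable section

namespace Pool.Agent.Lib.MP_0d9445_pr.Tip

open Walk Cell AS

/-- the hypotheses on the environment except the limit of the energies -/
structure Pre (O : Set ℂ) (μ : Measure ℂ) (C : ℕ → Cells) (M : ℕ → ℝ) : Prop where
  nice : NiceIn O C
  xy : XYIn O C
  mass : MassIn O μ C M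
  frost : ∀ K, IsCompact K → K ⊆ O → Frost μ K
  green : GreenIn O C M

variable {O O' : Set ℂ} {μ : Measure ℂ} {C : ℕ → Cells} {a M : ℕ → ℝ} {φ : ℕ → ℕ}

theorem pre_of_env (h : Env O μ C (fun _ => univ) a M) : Pre O μ C M :=
  ⟨h.nice, h.xy, by simpa only [MassIn, mem_univ, if_true] using h.mass, h.frost,
    by simpa only [GreenIn, mem_univ, if_true] using h.green⟩

theorem env_of_pre (h : Env O μ C (fun _ => univ) a M) (h' : Pre O' μ C M) (hn : NuIn O' C a) :
    Env O' μ C (fun _ => univ) a M :=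
  ⟨h.mem, h'.nice, h'.xy, h.a_pos, hn, h.M_top,
    by simpa only [MassIn, mem_univ, if_true] using h'.mass, h'.frost,
    by simpa only [GreenIn, mem_univ, if_true] using h'.green⟩

theorem Pre.subseq (h : Pre O μ C M) (hφ : Tendsto φ atTop atTop) :
    Pre O μ (fun n => C (φ n)) fun n => M (φ n) where
  nice K hK hO ε hε := hφ.eventually (h.nice K hK hO ε hε)
  xy K hK hO := (h.xy K hK hO).imp fun _ k c r hr hs => hφ.eventually (k c r hr hs)
  mass K hK hO ψ h1 h2 := (h.mass K hK hO ψ h1 h2).comp hφ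
  frost := h.frost
  green K hK hO ε hε := (h.green K hK hO ε hε).imp fun _ k =>
    ⟨k.1, fun r h1 h2 => hφ.eventually (k.2 r h1 h2)⟩

theorem env_subseq {Γ : ℕ → Set ℂ} (h : Env O μ C Γ a M) (hφ : Tendsto φ atTop atTop) :
    Env O μ (fun n => C (φ n)) (fun n => Γ (φ n)) (fun n => a (φ n)) fun n => M (φ n) where
  mem n := h.mem (φ n)
  nice K hK hO ε hε := hφ.eventually (h.nice K hK hO ε hε)
  xy K hK hO := (h.xy K hK hO).imp fun _ k c r hr hs => hφ.eventually (k c r hr hs)
  a_pos n := h.a_pos (φ n)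
  nu := h.nu.imp fun _ k => ⟨k.1, k.2.1, k.2.2.1, fun K hK hO s hs h1 p hp =>
    (k.2.2.2 K hK hO s hs h1 p hp).comp hφ⟩
  M_top := h.M_top.comp hφ
  mass K hK hO ψ h1 h2 := (h.mass K hK hO ψ h1 h2).comp hφ
  frost := h.frost
  green K hK hO ε hε := (h.green K hK hO ε hε).imp fun _ k =>
    ⟨k.1, fun r h1 h2 => hφ.eventually (k.2 r h1 h2)⟩

end Pool.Agent.Lib.MP_0d9445_pr.Tip
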