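import Pool.Agent.Lib.MP_0d9445_pr.Tip.XDefs
import Pool.Agent.Lib.MP_0d9445_pr.Tip.AC
import Pool.Agent.Lib.MP_0d9445_pr.Tip.Transl
import Pool.Agent.Lib.MP_0d9445_pr.EN.AC

/-! Fields that are absolutely continuous for a GFF plus a continuous function. -/

open MeasureTheory ProbabilityTheory Set Filter Topology Real LQ.Met
open scoped NNReal ENNReal

noncomputable section

namespace Pool.Agent.Lib.MP_0d9445_pr.Tip

open CR (osq csq)
open Su (IsGFF0 pot CMpot)
open EN (nrm)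

variable {Ω : Type} [MeasurableSpace Ω] {P : Measure Ω} {ν : Measure Field} {X X' : Ω → Field}
  {γ : ℝ}

namespace RhoAux

open TranslAux

theorem tr_addFn (b : ℂ) (H : Field) (v : Fn) :
    tr b (addFn H v) = addFn (tr b H) (resc 1 b v) := by
  ext q
  have h := EN.avg_aff v one_ne_zero b q
  simp only [norm_one, log_one, sub_zero] at h
  rw [tr_apply, Mu.addFn_apply, Mu.addFn_apply, tr_apply]
  congr 1
  refine Eq.trans ?_ h.symm
  rw [one_mul]

theorem addFn_nrm (H : Field) (v : Fn) : addFn H v = addFn (nrm H) (cst (H 0) + v) := by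
  rw [← Mu.addFn_addFn]
  congr 1
  ext q
  rw [EN.addFn_cst_apply, EN.nrm_apply, sub_add_cancel]

theorem tip_addFn (γ : ℝ) (z : ℂ) (H : Field) (v : Fn) :
    tip γ z (addFn H v) = addFn (tip γ z H) v := by
  ext q
  rw [tip_apply, Mu.addFn_apply, Mu.addFn_apply, tip_apply]
  ring

theorem continuous_resc : Continuous fun x : Fn × ℂ => resc 1 x.2 x.1 := by
  refine ContinuousMap.continuous_of_continuous_uncurry _ ?_
  change Continuous fun y : (Fn × ℂ) × ℂ => y.1.1 (1 * y.2 + y.1.2)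
  fun_prop

theorem lift_ac {β : Type} [MeasurableSpace β] [SFinite P] {φ : Ω → β} (hφ : Measurable φ)
    {ρ : Measure β} (ac : P.map φ ≪ ρ) : (P.prod U0).map (Prod.map φ id) ≪ ρ.prod U0 := by
  rw [← Measure.map_prod_map _ _ hφ measurable_id, Measure.map_id]
  exact ac.prod Measure.AbsolutelyContinuous.rfl

theorem meas_pair (p : ℂ) : Measurable fun x : Field × ℂ => (nrm (tr (p - x.2) x.1), x.2) :=
  (EN.measurable_nrm.comp (measurable_tr_sub p)).prodMk measurable_snd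

/-- the law of a function of the normalised translated field and of the point -/
theorem pair_ac [SFinite P] (hν : IsGFF0 ν) {H : Ω → Field} (hH : Measurable H)
    (ac : P.map H ≪ ν) (p : ℂ) {F : Field × ℂ → Field} (hF : Measurable F)
    (hac : (ν.prod U0).map F ≪ ν) :
    (P.prod U0).map (fun x => F (nrm (tr (p - x.2) (H x.1)), x.2)) ≪ ν := by
  have h1 := (lift_ac hH ac).map (meas_pair p)
  rw [map_nrm_tr_prod hν p] at h1
  have h2 := h1.map hF
  rw [Measure.map_map hF (meas_pair p),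
    Measure.map_map (hF.comp (meas_pair p)) (hH.prodMap measurable_id)] at h2
  exact h2.trans hac

theorem meas_tr {H : Ω → Field} (hH : Measurable H) (p : ℂ) :
    Measurable fun x : Ω × ℂ => tr (p - x.2) (H x.1) :=
  (measurable_tr_sub p).comp (hH.prodMap measurable_id)

theorem meas_rest {H : Ω → Field} (hH : Measurable H) {v : Ω → Fn} (hv : Measurable v) (p : ℂ) :
    Measurable fun x : Ω × ℂ => cst (tr (p - x.2) (H x.1) 0) + resc 1 (p - x.2) (v x.1) :=
  (EN.measurable_cst.comp ((Mu.measurable_eval 0).comp (meas_tr hH p))).add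
    (continuous_resc.measurable.comp (f := fun x : Ω × ℂ => (v x.1, p - x.2))
      ((hv.comp measurable_fst).prodMk (measurable_const.sub measurable_snd)))

theorem plus_tr (g : IsGFFplus X P) (b : ℂ) : IsGFFplus (fun ω => tr b (X ω)) P := by
  obtain ⟨-, f, hf, G⟩ := g
  have h1 : IsGFF id (P.map fun ω => addFn (X ω) (-f ω)) := IsGFF.map measurable_id G.meas G
  have h2 := ((isGFF_tr h1 b).of_map G.meas).plus.add ((EN.measurable_resc 1 b).comp hf)
  have e : (fun ω => tr b (X ω)) =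
      fun ω => addFn (tr b (addFn (X ω) (-f ω))) ((resc 1 b ∘ f) ω) := by
    funext ω
    rw [Function.comp, ← tr_addFn, Mu.addFn_addFn, neg_add_cancel, Mu.addFn_zero]
  rw [e]
  exact h2

theorem conf_tr_plus (M : Model) (g : IsGFFplus X P) (p : ℂ) : ∀ᵐ x ∂P.prod U0,
    M.conf (tr (p - x.2) (X x.1)) = pull 1 (p - x.2) (M.conf (X x.1)) := by
  have := g.prob
  have h1 : ∀ᵐ x ∂P.prod U0,
      M.D (tr (p - x.2) (X x.1)) = (pull 1 (p - x.2) (M.conf (X x.1))).1 := by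
    refine ae_prod_of_forall (measurableSet_eq_fun (M.hD.meas.comp (meas_tr g.1 p))
      (measurable_pull_fst (M.measurable_conf.comp g.1) p)) fun z => ?_
    filter_upwards [M.hD.coord Ω P X g 1 (p - z) one_ne_zero] with ω hω
    ext y
    rw [← affine_one (2 / M.γ + M.γ / 2)]
    exact (hω y.1 y.2).symm
  have h2 : ∀ᵐ x ∂P.prod U0,
      IsVague M.γ (tr (p - x.2) (X x.1)) (M.μ (tr (p - x.2) (X x.1))) :=
    ae_prod_of_forall (meas_tr g.1 p (Mu.measurableSet_vague M.γ M.hμ.meas)) fun z =>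
      M.hμ.vague Ω P _ (plus_tr g (p - z))
  have h3 : ∀ᵐ x ∂P.prod U0, IsVague M.γ (X x.1) (M.μ (X x.1)) :=
    Measure.quasiMeasurePreserving_fst.ae (M.hμ.vague Ω P X g)
  filter_upwards [h1, h2, h3] with x e1 e2 e3
  have hQ : M.γ * (2 / M.γ + M.γ / 2) - M.γ ^ 2 / 2 = 2 := by
    have := M.γ_pos.ne'
    field_simp
    ring
  have e4 := Mu.vague_affine e3 hQ (a := 1) (n := 0) (by simp) (p - x.2)
  rw [affine_one] at e4
  exact Prod.ext e1 (Mu.vague_unique e2 e4)

end RhoAux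

open RhoAux

theorem Plus.measurable (h : Plus ν P X) : Measurable X := by
  obtain ⟨H, v, hH, hv, -, e⟩ := h
  rw [funext e]
  exact EN.measurable_addFn' hH hv

theorem Plus.of_ac (hX : Measurable X) (h : P.map X ≪ ν) : Plus ν P X :=
  ⟨X, fun _ => 0, hX, measurable_const, h, fun _ => (Mu.addFn_zero _).symm⟩

theorem Plus.add (h : Plus ν P X) {v : Ω → Fn} (hv : Measurable v) :
    Plus ν P fun ω => addFn (X ω) (v ω) := by
  obtain ⟨H, u, hH, hu, ac, e⟩ := h
  exact ⟨H, fun ω => u ω + v ω, hH, hu.add hv, ac, fun ω => by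
    simp only [e ω, Mu.addFn_addFn]⟩

/-- almost sure properties pass from one GFF plus a continuous function to `X` -/
theorem Plus.exists_rho [IsFiniteMeasure P] (hν : IsGFF id ν) (h : Plus ν P X) :
    ∃ (ρ : Measure (Field × Fn)) (φ : Ω → Field × Fn), Measurable φ ∧ P.map φ ≪ ρ ∧
      IsGFFplus (fun x => addFn x.1 x.2) ρ ∧ ∀ ω, X ω = addFn (φ ω).1 (φ ω).2 := by
  obtain ⟨H, v, hH, hv, ac, e⟩ := h
  have := hν.prob
  refine ⟨ν ⊗ₘ condDistrib v H P, fun ω => (H ω, v ω), hH.prodMk hv, ?_, ?_, e⟩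
  · rw [← compProd_map_condDistrib hv.aemeasurable]
    exact ac.compProd_left _
  · have h1 : IsGFF id ((ν ⊗ₘ condDistrib v H P).map Prod.fst) := by
      have h2 := Measure.fst_compProd ν (condDistrib v H P)
      rw [Measure.fst] at h2
      rw [h2]
      exact hν
    exact (h1.of_map measurable_fst).plus.add measurable_snd

theorem Plus.ae [IsFiniteMeasure P] (hν : IsGFF id ν) (h : Plus ν P X) {q : Field → Prop}
    (hq : ∀ (Ω' : Type) [MeasurableSpace Ω'] (P' : Measure Ω') (h' : Ω' → Field),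
      IsGFFplus h' P' → ∀ᵐ ω ∂P', q (h' ω)) : ∀ᵐ ω ∂P, q (X ω) := by
  obtain ⟨ρ, φ, hφ, ac, g, e⟩ := h.exists_rho hν
  filter_upwards [ae_of_ae_map hφ.aemeasurable (ac.ae_le (hq _ ρ _ g))] with ω hω
  rw [e ω]
  exact hω

theorem Plus.tr [SFinite P] (hν : IsGFF0 ν) (h : Plus ν P X) (p : ℂ) :
    Plus ν (P.prod U0) fun x => tr (p - x.2) (X x.1) := by
  obtain ⟨H, v, hH, hv, ac, e⟩ := h
  have := hν.prob
  refine ⟨fun x => nrm (Tip.tr (p - x.2) (H x.1)), _, EN.measurable_nrm.comp (meas_tr hH p),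
    meas_rest hH hv p, pair_ac hν hH ac p measurable_fst ?_, fun x => ?_⟩
  · rw [Measure.map_fst_prod, measure_univ, one_smul]
  · simp only [e x.1]
    rw [tr_addFn, addFn_nrm]

theorem Plus.seen [SFinite P] (hν : IsGFF0 ν) (hU : DenUI γ ν) (h : Plus ν P X) (p : ℂ) :
    Plus ν (P.prod U0) (seen γ p X) := by
  obtain ⟨H, v, hH, hv, ac, e⟩ := h
  refine ⟨fun x => tip γ x.2 (nrm (Tip.tr (p - x.2) (H x.1))), _,
    (continuous_tip γ).measurable.comp
      ((EN.measurable_nrm.comp (meas_tr hH p)).prodMk measurable_snd),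
    meas_rest hH hv p, pair_ac hν hH ac p (continuous_tip γ).measurable (tip_ac hν hU),
    fun x => ?_⟩
  simp only [Tip.seen, e x.1]
  rw [tr_addFn, addFn_nrm, tip_addFn]

variable (M : Model) [IsFiniteMeasure P]

theorem Plus.ae_good (hν : IsGFF id ν) (h : Plus ν P X) : ∀ᵐ ω ∂P, IsGood (M.conf (X ω)) :=
  h.ae hν (q := fun H => IsGood (M.conf H)) fun _ _ _ _ g => M.ae_good g

theorem Plus.ae_vague (hν : IsGFF id ν) (h : Plus ν P X) :
    ∀ᵐ ω ∂P, IsVague M.γ (X ω) (M.μ (X ω)) :=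
  h.ae hν (q := fun H => IsVague M.γ H (M.μ H)) fun _ _ _ _ g => M.ae_vague g

theorem Plus.ae_weyl (hν : IsGFF id ν) (h : Plus ν P X) {f : Ω → Fn} (hf : Measurable f) :
    ∀ᵐ ω ∂P, IsWeyl (fun z => M.ξ * f ω z) (Function.curry (M.D (X ω)))
      (Function.curry (M.D (addFn (X ω) (f ω)))) ∧
    M.μ (addFn (X ω) (f ω)) =
      (M.μ (X ω)).withDensity fun z => ENNReal.ofReal (exp (M.γ * f ω z)) := by
  have h0 := h.ae hν (q := fun H => ∀ (f : Fn) (x y : ℂ), ENNReal.ofReal (M.D (addFn H f) (x, y)) =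
    wmetOn (fun z => M.ξ * f z) (Function.curry (M.D H)) univ x y)
    fun Ω' _ P' h' g => M.hD.weyl Ω' P' h' g
  filter_upwards [h0, h.ae_vague M hν, (h.add hf).ae_vague M hν] with ω h1 h2 h3
  exact ⟨fun x y => (h1 (f ω) x y).trans (wmet_eq _ _ x y).symm,
    Mu.vague_unique h3 (Mu.vague_addFn h2 (f ω))⟩

theorem Plus.ae_noAtoms (hν : IsGFF id ν) (hat : ∀ᵐ H ∂ν, ∀ z, M.μ H {z} = 0) (h : Plus ν P X) :
    ∀ᵐ ω ∂P, ∀ z, M.μ (X ω) {z} = 0 := by
  obtain ⟨H, v, hH, hv, ac, e⟩ := h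
  filter_upwards [(Plus.of_ac hH ac).ae_weyl M hν hv,
    ae_of_ae_map hH.aemeasurable (ac.ae_le hat)] with ω h1 h2 z
  rw [e ω, h1.2]
  exact withDensity_absolutelyContinuous _ _ (h2 z)

/-- where two fields agree on the discs inside a square they have the same local data -/
theorem Plus.loc_congr (hν : IsGFF id ν) (h : Plus ν P X) (h' : Plus ν P X') (w : Sq) :
    ∀ᵐ ω ∂P, (∀ p : ℝ × ℂ, Metric.closedBall p.2 (exp (-p.1)) ⊆ w.o → X ω p = X' ω p) →
      loc w (M.conf (X ω)) = loc w (M.conf (X' ω)) := by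
  obtain ⟨ρ, φ, hφ, ac, g, e⟩ := h.exists_rho hν
  obtain ⟨ρ', φ', hφ', ac', g', e'⟩ := h'.exists_rho hν
  obtain ⟨G, hG, e1, e2⟩ := M.exists_loc_version₂ g g' w
  filter_upwards [ae_of_ae_map hφ.aemeasurable (ac.ae_le e1),
    ae_of_ae_map hφ'.aemeasurable (ac'.ae_le e2)] with ω h2 h3 h1
  have h4 : loc w (M.conf (X ω)) = G (X ω) := by rw [e ω]; exact h2
  have h5 : loc w (M.conf (X' ω)) = G (X' ω) := by rw [e' ω]; exact h3
  rw [h4, h5]
  have key : ∀ B : Set Cf, MeasurableSet B → (G (X ω) ∈ B ↔ G (X' ω) ∈ B) := fun B hB =>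
    EN.mem_iff_of_agree h1 (hG hB)
  refine Prod.ext (ContinuousMap.ext fun p => ?_) (Measure.ext fun A hA => ?_)
  · exact (key {c | c.1 p = (G (X' ω)).1 p} (measurableSet_eq_fun
      ((Mu.measurable_eval p).comp measurable_fst) measurable_const)).2 rfl
  · exact (key {c | c.2 A = (G (X' ω)).2 A} (measurableSet_eq_fun
      ((Measure.measurable_coe hA).comp measurable_snd) measurable_const)).2 rfl

theorem Plus.conf_tr (hν : IsGFF id ν) (h : Plus ν P X) (p : ℂ) : ∀ᵐ x ∂P.prod U0,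
    M.conf (Tip.tr (p - x.2) (X x.1)) = pull 1 (p - x.2) (M.conf (X x.1)) := by
  obtain ⟨ρ, φ, hφ, ac, g, e⟩ := h.exists_rho hν
  filter_upwards [ae_of_ae_map (hφ.prodMap measurable_id).aemeasurable
    ((lift_ac hφ ac).ae_le (conf_tr_plus M g p))] with x hx
  rw [e x.1]
  exact hx

theorem Plus.ldom (hν : IsGFF0 ν) (h : Plus ν P X) {V : Set ℂ} (hV : FAC ν P X V) :
    M.LDom P (fun ω => M.conf (X ω)) V := by
  intro S hS h0
  obtain ⟨ρ, φ, hφ, ac, g, e⟩ := h.exists_rho hν.1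
  obtain ⟨S', h1, e1, e2⟩ := M.exists_fieldSet₂ g (EN.gff_suref hν.1).plus hS
  have a2 : Su.ref ν {H | M.conf H ∈ S} = Su.ref ν S' := measure_congr (eventuallyEq_set.2 e2)
  have a1 : P {ω | M.conf (X ω) ∈ S} = P {ω | X ω ∈ S'} := by
    refine measure_congr (eventuallyEq_set.2 ?_)
    filter_upwards [ae_of_ae_map hφ.aemeasurable (ac.ae_le e1)] with ω hω
    show M.conf (X ω) ∈ S ↔ X ω ∈ S'
    rw [e ω]
    exact hω
  rw [a1]
  exact hV S' h1 (a2.symm.trans ((M.suref_null_iff hν (EN.GG_le V S hS)).2 h0))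

theorem Plus.close (hν : IsGFF0 ν) (h : Plus ν P X) : ∃ c : Ω → Cf, Measurable c ∧
    P.map c ≪ M.ref0 ∧ ∀ᵐ ω ∂P, ∀ W : Sq, ∃ k : ℕ, Close M.ξ M.γ k W (M.conf (X ω)) (c ω) := by
  have hg := h.ae_good M hν.1
  obtain ⟨H, v, hH, hv, ac, e⟩ := h
  have h0 : Plus ν P H := Plus.of_ac hH ac
  refine ⟨fun ω => M.conf (H ω), M.measurable_conf.comp hH, ?_, ?_⟩
  · have h1 := ac.map M.measurable_conf
    rw [Measure.map_map M.measurable_conf hH, M.eU ν hν.1 hν.2,
      Measure.map_map M.measurable_conf M.meas_hat] at h1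
    exact h1
  · filter_upwards [hg, h0.ae_good M hν.1, h0.ae_weyl M hν.1 hv,
      h0.ae_weyl M hν.1 (f := fun _ => 0) measurable_const] with ω g1 g0 w1 w0 W
    rw [Mu.addFn_zero] at w0
    rw [← e ω] at w1
    obtain ⟨C, hC⟩ := (isCompact_csq W.1 W.2).exists_bound_of_continuousOn
      (v ω).continuous.continuousOn
    refine ⟨⌈C⌉₊, EN.close_of_weylOn (t := 0) (m := M.μ (H ω)) M.ξ_pos.le M.γ_pos.le g1 g0
      (w1.1.isWeylOn g1.2) (w0.1.isWeylOn g0.2) (subset_univ _) (subset_univ _) ?_ ?_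
      fun z hz => ?_⟩
    · simp only [add_zero]
      rw [← w1.2]
      rfl
    · rw [← w0.2]
      rfl
    · have h2 := (hC z (osq_subset_csq _ _ hz)).trans (Nat.le_ceil C)
      simpa using h2

end Pool.Agent.Lib.MP_0d9445_pr.Tip
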