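import Pool.Agent.Lib.MP_0d9445_pr.Tip.Pre

/-! Gluing of the environment on two open sets: cells, measure, energy, mass. -/

open MeasureTheory Set Filter Topology
open scoped NNReal ENNReal

noncomputable section

namespace Pool.Agent.Lib.MP_0d9445_pr.Tip

open Walk Cell AS

variable {O₁ O₂ : Set ℂ} {μ : Measure ℂ} {C : ℕ → Cells} {a M : ℕ → ℝ}

namespace UnionAAux

theorem null_re (c : ℝ) : volume {w : ℂ | w.re = c} = 0 := by
  have h := Complex.volume_preserving_equiv_real_prod.measure_preimage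
    (s := ({c} : Set ℝ) ×ˢ (univ : Set ℝ))
    ((measurableSet_singleton c).prod MeasurableSet.univ).nullMeasurableSet
  rw [Measure.volume_eq_prod, Measure.prod_prod, Real.volume_singleton, zero_mul] at h
  rw [← h]
  congr 1
  ext w
  simp

theorem null_im (c : ℝ) : volume {w : ℂ | w.im = c} = 0 := by
  have h := Complex.volume_preserving_equiv_real_prod.measure_preimage
    (s := (univ : Set ℝ) ×ˢ ({c} : Set ℝ))
    (MeasurableSet.univ.prod (measurableSet_singleton c)).nullMeasurableSet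
  rw [Measure.volume_eq_prod, Measure.prod_prod, Real.volume_singleton, mul_zero] at h
  rw [← h]
  congr 1
  ext w
  simp

theorem sub_re (z : ℂ) (l : ℝ) (i j : ℕ) : (sub z l 1 i j).re = z.re + l / 2 * i := by
  simp only [sub, pow_one, Complex.add_re, Complex.natCast_re,
    Complex.mul_re, Complex.I_re, Complex.natCast_im, Complex.I_im, mul_zero, zero_mul, sub_zero,
    add_zero, Complex.ofReal_re, Complex.ofReal_im]

theorem sub_im (z : ℂ) (l : ℝ) (i j : ℕ) : (sub z l 1 i j).im = z.im + l / 2 * j := by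
  simp only [sub, pow_one, Complex.add_im, Complex.natCast_re,
    Complex.mul_im, Complex.I_re, Complex.natCast_im, Complex.I_im, mul_zero, zero_mul, mul_one,
    add_zero, zero_add, Complex.ofReal_re, Complex.ofReal_im]

theorem child_subset {z : ℂ} {l : ℝ} (hl : 0 < l) {i j : ℕ} (hi : i < 2) (hj : j < 2) :
    Walk.box (sub z l 1 i j) (l / 2) ⊆ Walk.box z l := by
  intro w hw
  have h1 : (i : ℝ) ≤ 1 := by exact_mod_cast Nat.lt_succ_iff.1 hi
  have h2 : (j : ℝ) ≤ 1 := by exact_mod_cast Nat.lt_succ_iff.1 hj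
  have h3 : (0 : ℝ) ≤ i := Nat.cast_nonneg i
  have h4 : (0 : ℝ) ≤ j := Nat.cast_nonneg j
  obtain ⟨a1, a2, a3, a4⟩ := hw
  rw [sub_re] at a1 a2
  rw [sub_im] at a3 a4
  exact ⟨by nlinarith, by nlinarith, by nlinarith, by nlinarith⟩

theorem half (x y l : ℝ) (h1 : x ≤ y) (h2 : y < x + l) :
    ∃ i : ℕ, i < 2 ∧ x + l / 2 * i ≤ y ∧ y < x + l / 2 * i + l / 2 := by
  by_cases h : y < x + l / 2
  · exact ⟨0, by norm_num, by simpa using h1, by simpa using h⟩
  · exact ⟨1, by norm_num, by simpa using h, by push_cast; linarith⟩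

theorem descend {FF : Set (ℂ × ℝ)} (hF : ChildClosed FF) {s : ℂ × ℝ} (hs : s ∈ FF) {w : ℂ}
    (hw : w ∈ Walk.box s.1 s.2) (k : ℕ) :
    ∃ t ∈ FF, t.2 = s.2 * (1 / 2) ^ k ∧ w ∈ Walk.box t.1 t.2 := by
  induction k with
  | zero => exact ⟨s, hs, by simp, hw⟩
  | succ k ih =>
    obtain ⟨t, ht, e, b1, b2, b3, b4⟩ := ih
    obtain ⟨i, hi, i1, i2⟩ := half _ _ _ b1 b2
    obtain ⟨j, hj, j1, j2⟩ := half _ _ _ b3 b4
    refine ⟨_, (hF t ht).2 i j hi hj, by rw [pow_succ, ← mul_assoc, ← e]; ring, ?_⟩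
    exact ⟨by rwa [sub_re], by rwa [sub_re], by rwa [sub_im], by rwa [sub_im]⟩

theorem mem_interior_box {z w : ℂ} {l : ℝ} (hw : w ∈ Walk.box z l) (h1 : w.re ≠ z.re)
    (h2 : w.im ≠ z.im) : w ∈ interior (Walk.box z l) := by
  have hO : IsOpen {v : ℂ | v.re ∈ Ioo z.re (z.re + l) ∧ v.im ∈ Ioo z.im (z.im + l)} :=
    (isOpen_Ioo.preimage Complex.continuous_re).inter (isOpen_Ioo.preimage Complex.continuous_im)
  exact interior_maximal (s := Walk.box z l)
    (fun v hv => ⟨hv.1.1.le, hv.1.2, hv.2.1.le, hv.2.2⟩) hO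
    ⟨⟨lt_of_le_of_ne hw.1 h1.symm, hw.2.1⟩, lt_of_le_of_ne hw.2.2.1 h2.symm, hw.2.2.2⟩

theorem closure_box_subset {z w : ℂ} {l : ℝ} (hw : w ∈ Walk.box z l) :
    closure (Walk.box z l) ⊆ Metric.closedBall w (2 * l) := by
  refine closure_minimal (fun v hv => ?_) Metric.isClosed_closedBall
  rw [Metric.mem_closedBall, dist_eq_norm]
  refine (Complex.norm_le_abs_re_add_abs_im _).trans ?_
  obtain ⟨a1, a2, a3, a4⟩ := hw
  obtain ⟨b1, b2, b3, b4⟩ := hv
  have h1 : |(v - w).re| ≤ l := by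
    rw [Complex.sub_re, abs_le]
    constructor <;> linarith
  have h2 : |(v - w).im| ≤ l := by
    rw [Complex.sub_im, abs_le]
    constructor <;> linarith
  linarith

theorem sum_pts (N : FC) {ψ : ℂ → ℝ} :
    ∑ x ∈ N.V, N.G.deg x * ψ x = ∑ x ∈ N.pts (tsupport ψ), N.G.deg x * ψ x := by
  refine (Finset.sum_subset (fun x hx => (N.mem_pts.1 hx).1) fun x hx hn => ?_).symm
  rw [image_eq_zero_of_notMem_tsupport fun h => hn (N.mem_pts.2 ⟨hx, h⟩), mul_zero]

theorem mass_ext {O O' K : Set ℂ} (hO' : IsOpen O') (hO : O' ⊆ O)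
    (hm : ∀ n, ∀ x ∈ (C n).V, x ∈ (C n).H x) (hN : NiceIn O C) (m : MassIn O' μ C M)
    (hK : IsCompact K) (hKO : K ⊆ O) {ψ : ℂ → ℝ} (hψ : Continuous ψ)
    (h1 : tsupport ψ ⊆ interior K) (h2 : tsupport ψ ⊆ O') :
    Tendsto (fun n => (∑ x ∈ ((C n).toFC K).V, ((C n).toFC K).G.deg x * ψ x) / M n) atTop
      (𝓝 (∫ w, ψ w ∂μ)) := by
  have hc : IsClosed (tsupport ψ) := isClosed_tsupport ψ
  obtain ⟨L, hL, l1, l2⟩ := exists_compact_between
    (hK.of_isClosed_subset hc (h1.trans interior_subset)) hO' h2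
  refine (m L hL l2 ψ hψ l1).congr' ?_
  filter_upwards [hN.sameOn hm (A := tsupport ψ) hK hKO hL (l2.trans hO)
    (hc.closure_eq.symm ▸ h1) (hc.closure_eq.symm ▸ l1)] with n hn
  rw [sum_pts, sum_pts ((C n).toFC K), hn.pts]
  congr 1
  exact Finset.sum_congr rfl fun x hx => by rw [hn.deg (FC.mem_pts _ |>.1 hx).2]

theorem integrable_of {K : Set ℂ} (hK : IsCompact K) (hμ : μ K < ∞) {ψ : ℂ → ℝ}
    (hψ : Continuous ψ) (h1 : tsupport ψ ⊆ K) : Integrable ψ μ := by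
  obtain ⟨B, hB⟩ := hK.exists_bound_of_continuousOn hψ.continuousOn
  refine (integrableOn_iff_integrable_of_support_subset ((subset_tsupport ψ).trans h1)).1 ?_
  exact Measure.integrableOn_of_bounded hμ.ne hψ.aestronglyMeasurable
    (ae_restrict_of_forall_mem hK.measurableSet hB)

end UnionAAux

open UnionAAux

/-- a compact subset of the union is covered, with a Lebesgue number, by two compact sets -/
theorem exists_split (h₁ : IsOpen O₁) (h₂ : IsOpen O₂) {K : Set ℂ} (hK : IsCompact K)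
    (hKO : K ⊆ O₁ ∪ O₂) : ∃ (K₁ K₂ : Set ℂ) (δ : ℝ), IsCompact K₁ ∧ IsCompact K₂ ∧ K₁ ⊆ O₁ ∧
      K₂ ⊆ O₂ ∧ 0 < δ ∧ ∀ x ∈ K, Metric.ball x δ ⊆ K₁ ∨ Metric.ball x δ ⊆ K₂ := by
  obtain ⟨A, B, hA, hB, a1, b1, rfl⟩ := hK.binary_compact_cover h₁ h₂ hKO
  obtain ⟨δ, hδ, a2⟩ := hA.exists_cthickening_subset_open h₁ a1
  obtain ⟨ε, hε, b2⟩ := hB.exists_cthickening_subset_open h₂ b1
  refine ⟨_, _, min δ ε, hA.cthickening, hB.cthickening, a2, b2, lt_min hδ hε, fun x hx => ?_⟩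
  exact hx.imp
    (fun h => (Metric.ball_subset_closedBall.trans (Metric.closedBall_subset_closedBall
      (min_le_left _ _))).trans (Metric.closedBall_subset_cthickening h δ))
    fun h => (Metric.ball_subset_closedBall.trans (Metric.closedBall_subset_closedBall
      (min_le_right _ _))).trans (Metric.closedBall_subset_cthickening h ε)

theorem nice_union (h₁ : IsOpen O₁) (h₂ : IsOpen O₂) (n₁ : NiceIn O₁ C) (n₂ : NiceIn O₂ C) :
    NiceIn (O₁ ∪ O₂) C := by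
  intro K hK hKO ε hε
  obtain ⟨A, B, hA, hB, a1, b1, rfl⟩ := hK.binary_compact_cover h₁ h₂ hKO
  filter_upwards [n₁ A hA a1 ε hε, n₂ B hB b1 ε hε] with n ⟨fa, na⟩ ⟨fb, nb⟩
  have hf : {x | x ∈ (C n).V ∧ ((C n).H x ∩ (A ∪ B)).Nonempty}.Finite :=
    (fa.union fb).subset fun x ⟨h, w, w1, w2⟩ =>
      w2.imp (fun k => ⟨h, w, w1, k⟩) fun k => ⟨h, w, w1, k⟩
  have key : ∀ x ∈ ((C n).toFC (A ∪ B)).V, x ∈ ((C n).toFC A).V ∨ x ∈ ((C n).toFC B).V := by
    intro x hx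
    obtain ⟨h, w, w1, w2⟩ := (LQ.Met.mem_toFC hf).1 hx
    exact w2.imp (fun k => (LQ.Met.mem_toFC fa).2 ⟨h, w, w1, k⟩) fun k => (LQ.Met.mem_toFC fb).2 ⟨h, w, w1, k⟩
  refine ⟨hf, fun x hx => (key x hx).elim (na.cpt x) (nb.cpt x),
    fun x hx => (key x hx).elim (na.conn x) (nb.conn x),
    fun x hx => (key x hx).elim (na.mem x) (nb.mem x),
    fun x hx => (key x hx).elim (na.diam x) (nb.diam x), fun w hw => ?_⟩
  rcases hw with k | k
  · obtain ⟨x, hx, e⟩ := na.cover w k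
    exact ⟨x, (LQ.Met.mem_toFC hf).2 ⟨((LQ.Met.mem_toFC fa).1 hx).1, w, e, Or.inl k⟩, e⟩
  · obtain ⟨x, hx, e⟩ := nb.cover w k
    exact ⟨x, (LQ.Met.mem_toFC hf).2 ⟨((LQ.Met.mem_toFC fb).1 hx).1, w, e, Or.inr k⟩, e⟩

theorem frost_union (h₁ : IsOpen O₁) (h₂ : IsOpen O₂)
    (f₁ : ∀ K, IsCompact K → K ⊆ O₁ → Frost μ K) (f₂ : ∀ K, IsCompact K → K ⊆ O₂ → Frost μ K)
    (K : Set ℂ) (hK : IsCompact K) (hKO : K ⊆ O₁ ∪ O₂) : Frost μ K := by
  obtain ⟨A, B, δ, hA, hB, a1, b1, hδ, h⟩ := exists_split h₁ h₂ hK hKO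
  obtain ⟨a2, c, α, r, hα, hr, a3⟩ := f₁ A hA a1
  obtain ⟨b2, d, β, s, hβ, hs, b3⟩ := f₂ B hB b1
  have key : ∀ (L : Set ℂ) (e η t : ℝ), e ≤ max (max c d) 0 → min α β ≤ η →
      (∀ x ∈ L, ∀ u, 0 < u → u ≤ t → μ (Metric.ball x u ∩ L) ≤ ENNReal.ofReal (e * u ^ η)) →
      ∀ x u, Metric.ball x δ ⊆ L → 0 < u → u ≤ δ → u ≤ 1 → u ≤ t →
        μ (Metric.ball x u ∩ K) ≤ ENNReal.ofReal (max (max c d) 0 * u ^ min α β) := by
    intro L e η t he hη hL x u hx u0 u1 u2 u3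
    refine (measure_mono fun w hw => ?_).trans
      ((hL x (hx (Metric.mem_ball_self hδ)) u u0 u3).trans (ENNReal.ofReal_le_ofReal ?_))
    · exact ⟨hw.1, hx (Metric.ball_subset_ball u1 hw.1)⟩
    · exact (mul_le_mul_of_nonneg_right he (Real.rpow_nonneg u0.le _)).trans
        (mul_le_mul_of_nonneg_left (Real.rpow_le_rpow_of_exponent_ge u0 u2 hη) (le_max_right _ _))
  refine ⟨(measure_mono (t := A ∪ B) fun x hx => (h x hx).imp
      (fun k => k (Metric.mem_ball_self hδ)) fun k => k (Metric.mem_ball_self hδ)).trans_lt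
      (measure_union_lt_top a2 b2), max (max c d) 0, min α β, min (min δ 1) (min r s),
    lt_min hα hβ, lt_min (lt_min hδ one_pos) (lt_min hr hs), fun x hx u u0 hu => ?_⟩
  simp only [le_min_iff] at hu
  rcases h x hx with k | k
  · exact key A c α r (le_max_of_le_left (le_max_left _ _)) (min_le_left _ _) a3 x u k u0
      hu.1.1 hu.1.2 hu.2.1
  · exact key B d β s (le_max_of_le_left (le_max_right _ _)) (min_le_right _ _) b3 x u k u0
      hu.1.1 hu.1.2 hu.2.2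

theorem nu_ext (h₁ : IsOpen O₁) (h0 : volume (O₂ \ O₁) = 0)
    (hm : ∀ n, ∀ x ∈ (C n).V, x ∈ (C n).H x) (h12 : O₁ ⊆ O₂) (hN : NiceIn O₂ C)
    (n₁ : NuIn O₁ C a) : NuIn O₂ C a := by
  obtain ⟨FF, hc, hF, hv, hn⟩ := n₁
  refine ⟨{s | s ∈ FF ∧ closure (Walk.box s.1 s.2) ⊆ O₁}, hc.mono fun s hs => hs.1,
    fun s hs => ⟨(hF s hs.1).1, fun i j hi hj => ⟨(hF s hs.1).2 i j hi hj,
      (closure_mono (child_subset (hF s hs.1).1 hi hj)).trans hs.2⟩⟩, ?_,
    fun K hK hKO s hs hsK p hp => ?_⟩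
  · have hL : volume (⋃ s ∈ FF, ({w : ℂ | w.re = s.1.re} ∪ {w : ℂ | w.im = s.1.im})) = 0 :=
      (measure_biUnion_null_iff hc).2 fun s _ => measure_union_null (null_re _) (null_im _)
    refine measure_mono_null (fun w hw => ?_) (measure_union_null (measure_union_null h0 hv) hL)
    by_contra hcon
    simp only [mem_union, not_or] at hcon
    obtain ⟨⟨c1, c2⟩, c3⟩ := hcon
    have w1 : w ∈ O₁ := by_contra fun k => c1 ⟨hw.1, k⟩
    have w2 : w ∈ Walk.cov FF := by_contra fun k => c2 ⟨w1, k⟩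
    obtain ⟨s, hs, w3⟩ := mem_iUnion₂.1 w2
    obtain ⟨ε, hε, hb⟩ := Metric.isOpen_iff.1 h₁ w w1
    have ht : Tendsto (fun k : ℕ => 2 * (s.2 * (1 / 2 : ℝ) ^ k)) atTop (𝓝 (2 * (s.2 * 0))) :=
      ((tendsto_pow_atTop_nhds_zero_of_lt_one (by norm_num) (by norm_num)).const_mul _).const_mul _
    rw [mul_zero, mul_zero] at ht
    obtain ⟨k, hk⟩ := (ht.eventually (gt_mem_nhds hε)).exists
    obtain ⟨t, t1, t2, t3⟩ := descend hF hs (interior_subset w3) k
    refine hw.2 (mem_iUnion₂.2 ⟨t, ⟨t1, (closure_box_subset t3).trans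
      ((Metric.closedBall_subset_ball (by rwa [t2])).trans hb)⟩, mem_interior_box t3 ?_ ?_⟩)
    · exact fun e => c3 (mem_iUnion₂.2 ⟨t, t1, Or.inl e⟩)
    · exact fun e => c3 (mem_iUnion₂.2 ⟨t, t1, Or.inr e⟩)
  · obtain ⟨L, hL, l1, l2⟩ := exists_compact_between
      (hK.of_isClosed_subset isClosed_closure (hsK.trans interior_subset)) h₁ hs.2
    refine (hn L hL l2 s hs.1 l1 p hp).congr' ?_
    filter_upwards [hN.sameOn hm hK hKO hL (l2.trans h12) hsK l1] with n k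
    rw [k.nu]

theorem mass_union (h₁ : IsOpen O₁) (h₂ : IsOpen O₂) (hm : ∀ n, ∀ x ∈ (C n).V, x ∈ (C n).H x)
    (hN : NiceIn (O₁ ∪ O₂) C) (hμ : ∀ K, IsCompact K → K ⊆ O₁ ∪ O₂ → μ K < ∞)
    (m₁ : MassIn O₁ μ C M) (m₂ : MassIn O₂ μ C M) : MassIn (O₁ ∪ O₂) μ C M := by
  intro K hK hKO φ hφ hs
  have hc : IsClosed (tsupport φ) := isClosed_tsupport φ
  have hT : IsCompact (tsupport φ) := hK.of_isClosed_subset hc (hs.trans interior_subset)
  obtain ⟨L, hL, l1, l2⟩ := exists_compact_between (hT.diff h₂) h₁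
    fun x hx => (hKO (interior_subset (hs hx.1))).resolve_right hx.2
  obtain ⟨χ, c1, -, c2, -⟩ := exists_continuousMap_one_of_isCompact_subset_isOpen hL h₁ l2
  have k1 : Continuous fun x => φ x * χ x := hφ.mul χ.continuous
  have k2 : Continuous fun x => φ x * (1 - χ x) := hφ.mul (continuous_const.sub χ.continuous)
  have s1 : (tsupport fun x => φ x * χ x) ⊆ interior K := tsupport_mul_subset_left.trans hs
  have s2 : (tsupport fun x => φ x * (1 - χ x)) ⊆ interior K := tsupport_mul_subset_left.trans hs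
  have s3 : (tsupport fun x => φ x * (1 - χ x)) ⊆ O₂ := by
    refine (closure_minimal (t := tsupport φ \ interior L) (fun x hx => ⟨?_, fun k => ?_⟩)
      (hc.sdiff isOpen_interior)).trans fun x hx => by_contra fun k => hx.2 (l1 ⟨hx.1, k⟩)
    · exact subset_tsupport _ (left_ne_zero_of_mul hx)
    · exact right_ne_zero_of_mul hx (by rw [c1 (interior_subset k), Pi.one_apply, sub_self])
  have t := (mass_ext h₁ subset_union_left hm hN m₁ hK hKO k1 s1
    (tsupport_mul_subset_right.trans c2)).add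
    (mass_ext h₂ subset_union_right hm hN m₂ hK hKO k2 s2 s3)
  rw [← integral_add (integrable_of hK (hμ K hK hKO) k1 (s1.trans interior_subset))
    (integrable_of hK (hμ K hK hKO) k2 (s2.trans interior_subset))] at t
  have e : ∀ x, φ x * χ x + φ x * (1 - χ x) = φ x := fun x => by ring
  simp only [e, ← add_div, ← Finset.sum_add_distrib, ← mul_add] at t
  simpa only [add_sub_cancel, mul_one] using t

end Pool.Agent.Lib.MP_0d9445_pr.Tip
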