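import Pool.Agent.Lib.MP_0d9445_pr.Tip.Defs

/-! Surfaces with a logarithmic singularity at a point: definitions. -/

open MeasureTheory ProbabilityTheory Set Filter Topology Real
open scoped NNReal ENNReal

noncomputable section

namespace Pool.Agent.Lib.MP_0d9445_pr.Tip

variable {Ω : Type} [MeasurableSpace Ω]

/-- `X` is a field whose law is absolutely continuous for `ν`, plus a continuous function -/
def Plus (ν : Measure Field) (P : Measure Ω) (X : Ω → Field) : Prop :=
  ∃ (H : Ω → Field) (v : Ω → Fn), Measurable H ∧ Measurable v ∧ P.map H ≪ ν ∧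
    ∀ ω, X ω = addFn (H ω) (v ω)

/-- read inside `V`, the law of `X` is absolutely continuous for the reference law -/
def FAC (ν : Measure Field) (P : Measure Ω) (X : Ω → Field) (V : Set ℂ) : Prop :=
  ∀ B, MeasurableSet[sigmaOn id V] B → Su.ref ν B = 0 → P {ω | X ω ∈ B} = 0

/-- Near `p` the field `h + f` is `G - γ log |· - p|`, where `G` agrees with `h + ft k` on the
discs at distance more than `exp (-k)` from `p`. -/
def TipX (γ : ℝ) (ν : Measure Field) (P : Measure Ω) (h : Ω → Field) (f : Ω → ℂ → ℝ) (p : ℂ) :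
    Prop :=
  Measurable h ∧ P.map h ≪ ν ∧ ∃ (G : Ω → Field) (ft : ℕ → Ω → Fn), Plus ν P G ∧
    (∀ k, Measurable (ft k)) ∧ FAC ν P G (Metric.ball p (3 / 4)) ∧
    ∀ᵐ ω ∂P, (∀ (k : ℕ) (q : ℝ × ℂ),
      Metric.closedBall q.2 (exp (-q.1)) ⊆ {x | exp (-(k : ℝ)) < ‖x - p‖} →
        G ω q = addFn (h ω) (ft k ω) q) ∧
      ∀ (k : ℕ) (x : ℂ), exp (-(k : ℝ)) < ‖x - p‖ → ‖x - p‖ < 3 / 4 →
        f ω x = ft k ω x - γ * log ‖x - p‖

/-- the field seen from the random origin -/
def seen (γ : ℝ) (p : ℂ) (G : Ω → Field) (x : Ω × ℂ) : Field := tip γ x.2 (tr (p - x.2) (G x.1))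

/-- the surface seen from the random origin -/
def seenC (p : ℂ) (s : Ω → Cf) (x : Ω × ℂ) : Cf := pull 1 (p - x.2) (s x.1)

/-- the points seen from the random origin -/
def seenY (p : ℂ) (Y : Ω → Set ℂ) (x : Ω × ℂ) : Set ℂ := (fun y => y + (p - x.2)) ⁻¹' Y x.1

end Pool.Agent.Lib.MP_0d9445_pr.Tip
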